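import Mathlib

section

/-! Profile curves of `O(2) × O(2)`-invariant self-shrinkers: definitions and identities. -/

set_option autoImplicit false

open Real Set Filter Topology

namespace Pool.Agent.MP_48470b_gt

/-- curvature prescribed by the shrinker equation -/
noncomputable def kap (x y c s : ℝ) : ℝ := s * (x / 2 - 1 / x) - c * (y / 2 - 1 / y)

/-- An embedded profile curve from the `x`-axis to the `y`-axis (unbundled form). -/
structure Prof (L : ℝ) (x y c s : ℝ → ℝ) : Prop where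
  L_pos : 0 < L
  cx : ContinuousOn x (Icc 0 L)
  cy : ContinuousOn y (Icc 0 L)
  cc : ContinuousOn c (Icc 0 L)
  cs : ContinuousOn s (Icc 0 L)
  unit : ∀ t ∈ Icc 0 L, c t ^ 2 + s t ^ 2 = 1
  pos : ∀ t ∈ Ioo 0 L, 0 < x t ∧ 0 < y t
  dx : ∀ t ∈ Ioo 0 L, HasDerivAt x (c t) t
  dy : ∀ t ∈ Ioo 0 L, HasDerivAt y (s t) t
  dc : ∀ t ∈ Ioo 0 L, HasDerivAt c (-(s t * kap (x t) (y t) (c t) (s t))) t
  ds : ∀ t ∈ Ioo 0 L, HasDerivAt s (c t * kap (x t) (y t) (c t) (s t)) t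
  x0 : 0 < x 0
  y0 : y 0 = 0
  c0 : c 0 = 0
  s0 : s 0 = 1
  xL : x L = 0
  yL : 0 < y L
  cL : c L = -1
  sL : s L = 0
  inj : ∀ t ∈ Icc 0 L, ∀ u ∈ Icc 0 L, x t = x u → y t = y u → t = u

/-- A planar curve with unit tangent. -/
structure Crv where
  x : ℝ → ℝ
  y : ℝ → ℝ
  c : ℝ → ℝ
  s : ℝ → ℝ

theorem hd {f g : ℝ → ℝ} {a b t : ℝ} (h : HasDerivAt f a t) (hf : ∀ t, g t = f t)
    (hab : b = a) : HasDerivAt g b t := by
  have : g = f := funext hf
  rw [this, hab]; exact h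

namespace Crv

variable (γ : Crv)

/-- curvature prescribed by the shrinker equation -/
noncomputable def k (t : ℝ) : ℝ :=
  (γ.x t / 2 - 1 / γ.x t) * γ.s t - (γ.y t / 2 - 1 / γ.y t) * γ.c t
noncomputable def u (t : ℝ) : ℝ := γ.x t * γ.s t - γ.y t * γ.c t
noncomputable def v (t : ℝ) : ℝ := γ.x t * γ.c t + γ.y t * γ.s t
/-- squared distance to the origin -/
noncomputable def z (t : ℝ) : ℝ := γ.x t ^ 2 + γ.y t ^ 2
noncomputable def E (t : ℝ) : ℝ := exp (-γ.z t / 4)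
noncomputable def w (t : ℝ) : ℝ := γ.x t * γ.y t * γ.E t
noncomputable def G (t : ℝ) : ℝ := 3 - γ.z t / 2
/-- `x y k` -/
noncomputable def n0 (t : ℝ) : ℝ :=
  (γ.x t ^ 2 / 2 - 1) * γ.y t * γ.s t - (γ.y t ^ 2 / 2 - 1) * γ.x t * γ.c t
/-- `x y (k - s / x)` -/
noncomputable def n1 (t : ℝ) : ℝ :=
  (γ.x t ^ 2 / 2 - 2) * γ.y t * γ.s t - (γ.y t ^ 2 / 2 - 1) * γ.x t * γ.c t
/-- `x y (k + c / y)` -/
noncomputable def n2 (t : ℝ) : ℝ :=
  (γ.x t ^ 2 / 2 - 1) * γ.y t * γ.s t - (γ.y t ^ 2 / 2 - 2) * γ.x t * γ.c t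
noncomputable def V (t : ℝ) : ℝ := γ.w t * γ.v t
noncomputable def K1 (t : ℝ) : ℝ := γ.w t * γ.n1 t
noncomputable def K2 (t : ℝ) : ℝ := γ.w t * γ.n2 t
noncomputable def Wn (t : ℝ) : ℝ :=
  γ.E t * (γ.u t * γ.c t * γ.n1 t - γ.s t * γ.n0 t * γ.v t)
noncomputable def W1 (t : ℝ) : ℝ := γ.Wn t / γ.x t

/-- The ODE holds at time `t`, inside the open quadrant. -/
structure Sol (t : ℝ) : Prop where
  dx : HasDerivAt γ.x (γ.c t) t
  dy : HasDerivAt γ.y (γ.s t) t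
  dc : HasDerivAt γ.c (-γ.s t * γ.k t) t
  ds : HasDerivAt γ.s (γ.c t * γ.k t) t
  cs : γ.c t ^ 2 + γ.s t ^ 2 = 1
  px : 0 < γ.x t
  py : 0 < γ.y t

/-- An embedded profile curve from the `x`-axis to the `y`-axis. -/
structure Prof (L : ℝ) : Prop where
  hL : 0 < L
  cx : ContinuousOn γ.x (Icc 0 L)
  cy : ContinuousOn γ.y (Icc 0 L)
  cc : ContinuousOn γ.c (Icc 0 L)
  cs' : ContinuousOn γ.s (Icc 0 L)
  sol : ∀ t ∈ Ioo 0 L, γ.Sol t
  y0 : γ.y 0 = 0
  xL : γ.x L = 0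
  x0 : 0 < γ.x 0
  yL : 0 < γ.y L
  c0 : γ.c 0 = 0
  s0 : γ.s 0 = 1
  cL : γ.c L = -1
  sL : γ.s L = 0
  inj : ∀ t ∈ Icc 0 L, ∀ t' ∈ Icc 0 L, γ.x t = γ.x t' → γ.y t = γ.y t' → t = t'

theorem E_pos (t : ℝ) : 0 < γ.E t := exp_pos _

theorem n2_sub_n1 (t : ℝ) : γ.n2 t - γ.n1 t = γ.v t := by
  unfold n1 n2 v; ring

variable {γ}

namespace Sol

variable {t : ℝ}

theorem w_pos (h : γ.Sol t) : 0 < γ.w t := by
  unfold w; exact mul_pos (mul_pos h.px h.py) (γ.E_pos t)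

theorem z_pos (h : γ.Sol t) : 0 < γ.z t := by
  unfold z; have := h.px; positivity

theorem k_eq (h : γ.Sol t) : γ.k t = γ.n0 t / (γ.x t * γ.y t) := by
  have hx := h.px.ne'; have hy := h.py.ne'
  unfold k n0; field_simp

theorem hk (h : γ.Sol t) : γ.k t * (γ.x t * γ.y t) = γ.n0 t := by
  rw [h.k_eq]; have hx := h.px.ne'; have hy := h.py.ne'; field_simp

theorem uv (h : γ.Sol t) : γ.u t ^ 2 + γ.v t ^ 2 = γ.z t := by
  have h := h.cs
  unfold u v z
  linear_combination (γ.x t ^ 2 + γ.y t ^ 2) * h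

theorem dx2 (h : γ.Sol t) : HasDerivAt (fun t => γ.x t ^ 2) (2 * γ.x t * γ.c t) t :=
  hd (h.dx.mul h.dx) (fun _ => by simp [sq]) (by ring)

theorem dy2 (h : γ.Sol t) : HasDerivAt (fun t => γ.y t ^ 2) (2 * γ.y t * γ.s t) t :=
  hd (h.dy.mul h.dy) (fun _ => by simp [sq]) (by ring)

theorem dz (h : γ.Sol t) : HasDerivAt γ.z (2 * γ.v t) t :=
  hd (h.dx2.add h.dy2) (fun _ => rfl) (by unfold v; ring)

theorem dG (h : γ.Sol t) : HasDerivAt γ.G (-γ.v t) t :=
  hd ((h.dz.div_const 2).const_sub 3) (fun _ => rfl) (by ring)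

theorem dE (h : γ.Sol t) : HasDerivAt γ.E (-γ.v t / 2 * γ.E t) t :=
  hd ((h.dz.neg).div_const 4).exp (fun _ => rfl) (by
    have : γ.E t = exp ((-γ.z) t / 4) := rfl
    rw [← this]; ring)

theorem du (h : γ.Sol t) : HasDerivAt γ.u (γ.k t * γ.v t) t :=
  hd ((h.dx.mul h.ds).sub (h.dy.mul h.dc)) (fun _ => rfl) (by unfold v; ring)

theorem dv (h : γ.Sol t) : HasDerivAt γ.v (1 - γ.k t * γ.u t) t :=
  hd ((h.dx.mul h.dc).add (h.dy.mul h.ds)) (fun _ => rfl) (by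
    have hcs := h.cs
    unfold u; linear_combination -hcs)

theorem dw (h : γ.Sol t) :
    HasDerivAt γ.w ((γ.c t * γ.y t + γ.x t * γ.s t - γ.x t * γ.y t * γ.v t / 2) * γ.E t) t :=
  hd ((h.dx.mul h.dy).mul h.dE) (fun _ => rfl) (by simp only [Pi.mul_apply]; ring)

theorem dn (h : γ.Sol t) (p q : ℝ) : HasDerivAt
    (fun t => (γ.x t ^ 2 / 2 - p) * γ.y t * γ.s t - (γ.y t ^ 2 / 2 - q) * γ.x t * γ.c t)
    (γ.x t * γ.c t * γ.y t * γ.s t + (γ.x t ^ 2 / 2 - p) * γ.s t * γ.s t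
      + (γ.x t ^ 2 / 2 - p) * γ.y t * (γ.c t * γ.k t)
      - (γ.y t * γ.s t * γ.x t * γ.c t + (γ.y t ^ 2 / 2 - q) * γ.c t * γ.c t
      + (γ.y t ^ 2 / 2 - q) * γ.x t * (-γ.s t * γ.k t))) t :=
  hd (((((h.dx2.div_const 2).sub_const p).mul h.dy).mul h.ds).sub
    ((((h.dy2.div_const 2).sub_const q).mul h.dx).mul h.dc)) (fun _ => rfl)
    (by simp only [Pi.mul_apply]; ring)

theorem dV (h : γ.Sol t) : HasDerivAt γ.V (γ.w t * γ.G t) t :=
  hd (h.dw.mul h.dv) (fun _ => rfl) (by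
    have hcs := h.cs
    have hk := h.hk
    unfold n0 at hk
    unfold w G z u v
    linear_combination (-γ.E t * γ.c t * γ.y t + γ.E t * γ.s t * γ.x t) * hk
      + (-2 * γ.E t * γ.x t * γ.y t + (1/2) * γ.E t * γ.x t * γ.y t ^ 3
        + (1/2) * γ.E t * γ.x t ^ 3 * γ.y t) * hcs)

theorem dK1 (h : γ.Sol t) : HasDerivAt γ.K1 (-(γ.w t * γ.s t ^ 2 * γ.G t)) t :=
  hd (h.dw.mul (h.dn 2 1)) (fun _ => rfl) (by
    have hk := h.hk
    unfold n0 at hk
    unfold w G z v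
    linear_combination ((-1/2) * γ.E t * γ.c t * γ.x t ^ 2 * γ.y t + 2 * γ.E t * γ.c t * γ.y t
      + γ.E t * γ.s t * γ.x t + (-1/2) * γ.E t * γ.s t * γ.x t * γ.y t ^ 2) * hk)

theorem dK2 (h : γ.Sol t) : HasDerivAt γ.K2 (γ.w t * γ.c t ^ 2 * γ.G t) t :=
  hd (h.dw.mul (h.dn 1 2)) (fun _ => rfl) (by
    have hk := h.hk
    unfold n0 at hk
    unfold w G z v
    linear_combination ((-1/2) * γ.E t * γ.c t * γ.x t ^ 2 * γ.y t + γ.E t * γ.c t * γ.y t
      + 2 * γ.E t * γ.s t * γ.x t + (-1/2) * γ.E t * γ.s t * γ.x t * γ.y t ^ 2) * hk)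

theorem dwu (h : γ.Sol t) :
    HasDerivAt (fun t => γ.w t * γ.u t) (γ.E t * (γ.x t ^ 2 - γ.y t ^ 2)) t :=
  hd (h.dw.mul h.du) (fun _ => rfl) (by
    have hcs := h.cs
    have hk := h.hk
    unfold n0 at hk
    unfold w u v
    linear_combination (-γ.E t * γ.c t * γ.x t - γ.E t * γ.s t * γ.y t) * hk
      + (-γ.E t * γ.x t ^ 2 + γ.E t * γ.y t ^ 2) * hcs)

theorem dW1 (h : γ.Sol t) :
    HasDerivAt γ.W1 (-2 * γ.E t * γ.u t * γ.c t ^ 2 * γ.n1 t / γ.x t ^ 2) t := by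
  have hn : HasDerivAt γ.Wn _ t := hd (h.dE.mul (((h.du.mul h.dc).mul (h.dn 2 1)).sub
    ((h.ds.mul (h.dn 1 1)).mul h.dv))) (fun _ => rfl) rfl
  refine hd (hn.div h.dx h.px.ne') (fun _ => rfl) ?_
  congr 1
  have hcs := h.cs
  have hk := h.hk
  unfold n0 at hk
  simp only [Pi.mul_apply, Pi.sub_apply]
  unfold Wn n0 n1 u v
  linear_combination ((1/2) * γ.E t * γ.c t * γ.x t ^ 2 * γ.y t + γ.E t * γ.c t * γ.y t
    + 3 * γ.E t * γ.c t ^ 2 * γ.s t * γ.x t + (-3) * γ.E t * γ.c t ^ 3 * γ.y t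
    + (-2) * γ.E t * γ.s t * γ.x t + (1/2) * γ.E t * γ.s t * γ.x t * γ.y t ^ 2) * hk
    + (γ.E t * γ.c t * γ.k t * γ.x t * γ.y t ^ 2
    + (1/2) * γ.E t * γ.c t * γ.k t * γ.x t ^ 3 * γ.y t ^ 2
    + 2 * γ.E t * γ.c t * γ.s t * γ.x t ^ 2
    + (-3/2) * γ.E t * γ.c t * γ.s t * γ.x t ^ 2 * γ.y t ^ 2
    + (1/4) * γ.E t * γ.c t * γ.s t * γ.x t ^ 2 * γ.y t ^ 4
    + (-1/4) * γ.E t * γ.c t * γ.s t * γ.x t ^ 4 * γ.y t ^ 2
    + γ.E t * γ.c t * γ.s t * γ.y t ^ 2 + (-1) * γ.E t * γ.c t ^ 2 * γ.x t * γ.y t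
    + (1/2) * γ.E t * γ.c t ^ 2 * γ.x t * γ.y t ^ 3
    + (-1/2) * γ.E t * γ.c t ^ 2 * γ.x t ^ 3 * γ.y t
    + (1/4) * γ.E t * γ.c t ^ 2 * γ.x t ^ 3 * γ.y t ^ 3
    + (-2) * γ.E t * γ.k t * γ.s t * γ.x t ^ 2 * γ.y t
    + (1/2) * γ.E t * γ.k t * γ.s t * γ.x t ^ 2 * γ.y t ^ 3
    + (-2) * γ.E t * γ.s t ^ 2 * γ.x t * γ.y t + (1/2) * γ.E t * γ.s t ^ 2 * γ.x t * γ.y t ^ 3
    + γ.E t * γ.s t ^ 2 * γ.x t ^ 3 * γ.y t
    + (-1/4) * γ.E t * γ.s t ^ 2 * γ.x t ^ 3 * γ.y t ^ 3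
    - γ.E t * γ.x t * γ.s t * ((γ.x t ^ 2 / 2 - 1) * γ.y t * γ.s t
      - (γ.y t ^ 2 / 2 - 1) * γ.x t * γ.c t)) * hcs

end Sol

/-! ### Continuity up to the ends -/

namespace Prof

variable {L : ℝ}

theorem cu (h : γ.Prof L) : ContinuousOn γ.u (Icc 0 L) :=
  (h.cx.mul h.cs').sub (h.cy.mul h.cc)
theorem cv (h : γ.Prof L) : ContinuousOn γ.v (Icc 0 L) :=
  (h.cx.mul h.cc).add (h.cy.mul h.cs')
theorem cz (h : γ.Prof L) : ContinuousOn γ.z (Icc 0 L) :=
  (h.cx.pow 2).add (h.cy.pow 2)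
theorem cG (h : γ.Prof L) : ContinuousOn γ.G (Icc 0 L) :=
  continuousOn_const.sub (h.cz.div_const 2)
theorem cE (h : γ.Prof L) : ContinuousOn γ.E (Icc 0 L) :=
  continuous_exp.comp_continuousOn (h.cz.neg.div_const 4)
theorem cw (h : γ.Prof L) : ContinuousOn γ.w (Icc 0 L) :=
  (h.cx.mul h.cy).mul h.cE
theorem cn (h : γ.Prof L) (p q : ℝ) : ContinuousOn
    (fun t => (γ.x t ^ 2 / 2 - p) * γ.y t * γ.s t - (γ.y t ^ 2 / 2 - q) * γ.x t * γ.c t)
    (Icc 0 L) :=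
  (((((h.cx.pow 2).div_const 2).sub continuousOn_const).mul h.cy).mul h.cs').sub
    (((((h.cy.pow 2).div_const 2).sub continuousOn_const).mul h.cx).mul h.cc)
theorem cn0 (h : γ.Prof L) : ContinuousOn γ.n0 (Icc 0 L) := h.cn 1 1
theorem cn1 (h : γ.Prof L) : ContinuousOn γ.n1 (Icc 0 L) := h.cn 2 1
theorem cn2 (h : γ.Prof L) : ContinuousOn γ.n2 (Icc 0 L) := h.cn 1 2
theorem cV (h : γ.Prof L) : ContinuousOn γ.V (Icc 0 L) := h.cw.mul h.cv
theorem cK1 (h : γ.Prof L) : ContinuousOn γ.K1 (Icc 0 L) := h.cw.mul h.cn1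
theorem cK2 (h : γ.Prof L) : ContinuousOn γ.K2 (Icc 0 L) := h.cw.mul h.cn2
theorem cWn (h : γ.Prof L) : ContinuousOn γ.Wn (Icc 0 L) :=
  h.cE.mul (((h.cu.mul h.cc).mul h.cn1).sub ((h.cs'.mul h.cn0).mul h.cv))

theorem x_pos (h : γ.Prof L) {t : ℝ} (ht : t ∈ Ico 0 L) : 0 < γ.x t := by
  rcases ht.1.eq_or_lt with h0 | h0
  · rw [← h0]; exact h.x0
  · exact (h.sol t ⟨h0, ht.2⟩).px

theorem y_pos (h : γ.Prof L) {t : ℝ} (ht : t ∈ Ioc 0 L) : 0 < γ.y t := by
  rcases ht.2.eq_or_lt with h0 | h0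
  · rw [h0]; exact h.yL
  · exact (h.sol t ⟨ht.1, h0⟩).py

theorem z_pos (h : γ.Prof L) {t : ℝ} (ht : t ∈ Icc 0 L) : 0 < γ.z t := by
  unfold z
  rcases ht.2.eq_or_lt with h0 | h0
  · have := h.y_pos (t := t) ⟨by rw [h0]; exact h.hL, ht.2⟩
    positivity
  · have := h.x_pos (t := t) ⟨ht.1, h0⟩
    positivity

theorem u0 (h : γ.Prof L) : γ.u 0 = γ.x 0 := by unfold u; rw [h.s0, h.y0]; ring
theorem uL (h : γ.Prof L) : γ.u L = γ.y L := by unfold u; rw [h.xL, h.cL]; ring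
theorem v0 (h : γ.Prof L) : γ.v 0 = 0 := by unfold v; rw [h.c0, h.y0]; ring
theorem vL (h : γ.Prof L) : γ.v L = 0 := by unfold v; rw [h.xL, h.sL]; ring
theorem w0 (h : γ.Prof L) : γ.w 0 = 0 := by unfold w; rw [h.y0]; ring
theorem wL (h : γ.Prof L) : γ.w L = 0 := by unfold w; rw [h.xL]; ring

end Prof

/-! ### The mirror image -/

variable (γ)

/-- reflect in the diagonal and reverse time -/
noncomputable def mir (L : ℝ) : Crv :=
  ⟨fun t => γ.y (L - t), fun t => γ.x (L - t), fun t => -γ.s (L - t), fun t => -γ.c (L - t)⟩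

theorem mir_x (L t : ℝ) : (γ.mir L).x t = γ.y (L - t) := rfl
theorem mir_y (L t : ℝ) : (γ.mir L).y t = γ.x (L - t) := rfl
theorem mir_c (L t : ℝ) : (γ.mir L).c t = -γ.s (L - t) := rfl
theorem mir_s (L t : ℝ) : (γ.mir L).s t = -γ.c (L - t) := rfl
theorem mir_u (L t : ℝ) : (γ.mir L).u t = γ.u (L - t) := by
  unfold u; rw [mir_x, mir_y, mir_c, mir_s]; ring
theorem mir_v (L t : ℝ) : (γ.mir L).v t = -γ.v (L - t) := by
  unfold v; rw [mir_x, mir_y, mir_c, mir_s]; ring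
theorem mir_z (L t : ℝ) : (γ.mir L).z t = γ.z (L - t) := by
  unfold z; rw [mir_x, mir_y]; ring
theorem mir_k (L t : ℝ) : (γ.mir L).k t = γ.k (L - t) := by
  unfold k; rw [mir_x, mir_y, mir_c, mir_s]; ring

variable {γ}

theorem Sol.mir {L t : ℝ} (h : γ.Sol (L - t)) : (γ.mir L).Sol t := by
  have hl : HasDerivAt (fun t => L - t) (-1) t := by
    simpa using (hasDerivAt_id t).const_sub L
  refine ⟨?_, ?_, ?_, ?_, ?_, h.py, h.px⟩
  · exact hd (h.dy.comp t hl) (fun _ => rfl) (by rw [mir_c]; ring)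
  · exact hd (h.dx.comp t hl) (fun _ => rfl) (by rw [mir_s]; ring)
  · exact hd ((h.ds.comp t hl).neg) (fun _ => rfl) (by rw [mir_k, mir_s]; ring)
  · exact hd ((h.dc.comp t hl).neg) (fun _ => rfl) (by rw [mir_k, mir_c]; ring)
  · rw [mir_c, mir_s]; linear_combination h.cs

theorem Prof.mir {L : ℝ} (h : γ.Prof L) : (γ.mir L).Prof L := by
  have hm : MapsTo (fun t => L - t) (Icc 0 L) (Icc 0 L) := fun t ht =>
    ⟨by linarith [ht.2], by linarith [ht.1]⟩
  have hc : ContinuousOn (fun t : ℝ => L - t) (Icc 0 L) := by fun_prop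
  refine ⟨h.hL, h.cy.comp hc hm, h.cx.comp hc hm, (h.cs'.comp hc hm).neg, (h.cc.comp hc hm).neg,
    fun t ht => (h.sol (L - t) ⟨by linarith [ht.2], by linarith [ht.1]⟩).mir, ?_, ?_, ?_, ?_,
    ?_, ?_, ?_, ?_, ?_⟩
  · rw [mir_y, sub_zero]; exact h.xL
  · rw [mir_x, sub_self]; exact h.y0
  · rw [mir_x, sub_zero]; exact h.yL
  · rw [mir_y, sub_self]; exact h.x0
  · rw [mir_c, sub_zero, h.sL]; ring
  · rw [mir_s, sub_zero, h.cL]; ring
  · rw [mir_c, sub_self, h.s0]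
  · rw [mir_s, sub_self, h.c0]; ring
  · intro t ht t' ht' h1 h2
    have := h.inj _ (hm ht) _ (hm ht') h2 h1
    linarith

end Crv

/-! ### Calculus helpers -/

theorem mono_of_deriv {f f' : ℝ → ℝ} {a b : ℝ} (hab : a ≤ b) (hc : ContinuousOn f (Icc a b))
    (hd : ∀ t ∈ Ioo a b, HasDerivAt f (f' t) t) (h0 : ∀ t ∈ Ioo a b, 0 ≤ f' t) : f a ≤ f b := by
  rcases hab.eq_or_lt with h | h
  · rw [h]
  obtain ⟨c, hc', h2⟩ := exists_hasDerivAt_eq_slope f f' h hc hd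
  have := h0 c hc'
  rw [h2] at this
  have h3 := (div_nonneg_iff.1 this)
  rcases h3 with h3 | h3 <;> linarith [h3.1, h3.2]

theorem anti_of_deriv {f f' : ℝ → ℝ} {a b : ℝ} (hab : a ≤ b) (hc : ContinuousOn f (Icc a b))
    (hd : ∀ t ∈ Ioo a b, HasDerivAt f (f' t) t) (h0 : ∀ t ∈ Ioo a b, f' t ≤ 0) : f b ≤ f a := by
  have := mono_of_deriv (f := fun t => -f t) (f' := fun t => -f' t) hab hc.neg
    (fun t ht => (hd t ht).neg) (fun t ht => by linarith [h0 t ht])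
  linarith

theorem smono_of_deriv {f f' : ℝ → ℝ} {a b : ℝ} (hab : a < b) (hc : ContinuousOn f (Icc a b))
    (hd : ∀ t ∈ Ioo a b, HasDerivAt f (f' t) t) (h0 : ∀ t ∈ Ioo a b, 0 < f' t) : f a < f b := by
  obtain ⟨c, hc', h2⟩ := exists_hasDerivAt_eq_slope f f' hab hc hd
  have := h0 c hc'
  rw [h2] at this
  have h3 := (div_pos_iff.1 this)
  rcases h3 with h3 | h3 <;> linarith [h3.1, h3.2]

theorem santi_of_deriv {f f' : ℝ → ℝ} {a b : ℝ} (hab : a < b) (hc : ContinuousOn f (Icc a b))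
    (hd : ∀ t ∈ Ioo a b, HasDerivAt f (f' t) t) (h0 : ∀ t ∈ Ioo a b, f' t < 0) : f b < f a := by
  have := smono_of_deriv (f := fun t => -f t) (f' := fun t => -f' t) hab hc.neg
    (fun t ht => (hd t ht).neg) (fun t ht => by linarith [h0 t ht])
  linarith

/-- no zero on an interval gives a constant sign -/
theorem pos_of_ne {f : ℝ → ℝ} {I : Set ℝ} (hI : IsPreconnected I) (hc : ContinuousOn f I)
    (hne : ∀ t ∈ I, f t ≠ 0) {t0 : ℝ} (h0 : t0 ∈ I) (hp : 0 < f t0) : ∀ t ∈ I, 0 < f t := by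
  intro t ht
  by_contra hn
  push Not at hn
  obtain ⟨c, hc1, hc2⟩ := hI.intermediate_value ht h0 hc ⟨hn, hp.le⟩
  exact hne c hc1 hc2

theorem neg_of_ne {f : ℝ → ℝ} {I : Set ℝ} (hI : IsPreconnected I) (hc : ContinuousOn f I)
    (hne : ∀ t ∈ I, f t ≠ 0) {t0 : ℝ} (h0 : t0 ∈ I) (hp : f t0 < 0) : ∀ t ∈ I, f t < 0 := by
  intro t ht
  have := pos_of_ne (f := fun t => -f t) hI hc.neg (fun t ht => by simpa using hne t ht) h0
    (by simpa using hp) t ht
  simpa using this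

/-- first zero after `a` -/
theorem exists_first_zero {f : ℝ → ℝ} {a b : ℝ} (hab : a < b) (hc : ContinuousOn f (Icc a b))
    (hb : f b = 0) (ha : ∀ᶠ t in 𝓝[>] a, f t ≠ 0) :
    ∃ c ∈ Ioc a b, f c = 0 ∧ ∀ t ∈ Ioo a c, f t ≠ 0 := by
  obtain ⟨d, hd, hd2⟩ := (mem_nhdsGT_iff_exists_Ioo_subset' hab).1 ha
  have hd' : a < d := hd
  have hdb : d ≤ b := by
    by_contra hn
    push Not at hn
    exact hd2 ⟨hab, hn⟩ hb
  have hcomp : IsCompact (Icc d b ∩ f ⁻¹' {0}) :=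
    (isCompact_Icc.of_isClosed_subset
      ((hc.mono (Icc_subset_Icc_left hd'.le)).preimage_isClosed_of_isClosed isClosed_Icc
        isClosed_singleton) inter_subset_left)
  obtain ⟨c, hc1, hc2⟩ := hcomp.exists_isLeast ⟨b, ⟨hdb, le_rfl⟩, hb⟩
  refine ⟨c, ⟨lt_of_lt_of_le hd' hc1.1.1, hc1.1.2⟩, hc1.2, fun t ht h0 => ?_⟩
  by_cases htd : t < d
  · exact hd2 ⟨ht.1, htd⟩ h0
  · push Not at htd
    have := hc2 ⟨⟨htd, ht.2.le.trans hc1.1.2⟩, h0⟩
    linarith [ht.2]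

/-- Uniqueness for a linear system of two equations with continuous coefficients. -/
theorem lin_unique {f g A B C D : ℝ → ℝ} {a b t0 : ℝ} (h0 : t0 ∈ Ioo a b)
    (hf : ∀ t ∈ Ioo a b, HasDerivAt f (A t * f t + B t * g t) t)
    (hg : ∀ t ∈ Ioo a b, HasDerivAt g (C t * f t + D t * g t) t)
    (hA : ContinuousOn A (Ioo a b)) (hB : ContinuousOn B (Ioo a b))
    (hC : ContinuousOn C (Ioo a b)) (hD : ContinuousOn D (Ioo a b))
    (f0 : f t0 = 0) (g0 : g t0 = 0) : ∀ t ∈ Ioo a b, f t = 0 ∧ g t = 0 := by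
  intro t ht
  set lo := min t t0
  set hi := max t t0
  have hsub : Icc lo hi ⊆ Ioo a b := fun s hs =>
    ⟨lt_of_lt_of_le (lt_min ht.1 h0.1) hs.1, lt_of_le_of_lt hs.2 (max_lt ht.2 h0.2)⟩
  have hcont : ContinuousOn (fun s => |A s| + |B s| + |C s| + |D s|) (Icc lo hi) :=
    (((hA.abs.add hB.abs).add hC.abs).add hD.abs).mono hsub
  obtain ⟨M, hM⟩ := isCompact_Icc.exists_bound_of_continuousOn hcont
  have hq : ∀ s ∈ Ioo a b, HasDerivAt (fun s => f s ^ 2 + g s ^ 2)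
      (2 * f s * (A s * f s + B s * g s) + 2 * g s * (C s * f s + D s * g s)) s := fun s hs =>
    hd (((hf s hs).mul (hf s hs)).add ((hg s hs).mul (hg s hs))) (fun _ => by simp [sq])
      (by ring)
  have hb : ∀ s ∈ Icc lo hi, |2 * f s * (A s * f s + B s * g s) + 2 * g s * (C s * f s + D s * g s)|
      ≤ 2 * M * (f s ^ 2 + g s ^ 2) := by
    intro s hs
    have h1 := hM s hs
    rw [Real.norm_eq_abs] at h1
    have h2 : |A s| + |B s| + |C s| + |D s| ≤ M := (le_abs_self _).trans h1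
    have a1 := abs_le.1 (le_refl |A s|)
    have a2 := abs_le.1 (le_refl |B s|)
    have a3 := abs_le.1 (le_refl |C s|)
    have a4 := abs_le.1 (le_refl |D s|)
    have n1 := abs_nonneg (A s)
    have n2 := abs_nonneg (B s)
    have n3 := abs_nonneg (C s)
    have n4 := abs_nonneg (D s)
    have p1 := sq_nonneg (f s)
    have p2 := sq_nonneg (g s)
    have p3 := sq_nonneg (f s - g s)
    have p4 := sq_nonneg (f s + g s)
    have hM2 : (|A s| + |B s| + |C s| + |D s|) * (f s ^ 2 + g s ^ 2) ≤ M * (f s ^ 2 + g s ^ 2) :=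
      mul_le_mul_of_nonneg_right h2 (by positivity)
    rw [abs_le]
    constructor
    · nlinarith [mul_nonneg (sub_nonneg.2 a1.1) p1, mul_nonneg (sub_nonneg.2 a4.1) p2,
        mul_nonneg (sub_nonneg.2 a2.1) p4, mul_nonneg (sub_nonneg.2 a2.2) p3,
        mul_nonneg (sub_nonneg.2 a3.1) p4, mul_nonneg (sub_nonneg.2 a3.2) p3,
        mul_nonneg n1 p2, mul_nonneg n4 p1, mul_nonneg n2 p1, mul_nonneg n2 p2,
        mul_nonneg n3 p1, mul_nonneg n3 p2]
    · nlinarith [mul_nonneg (sub_nonneg.2 a1.2) p1, mul_nonneg (sub_nonneg.2 a4.2) p2,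
        mul_nonneg (sub_nonneg.2 a2.1) p3, mul_nonneg (sub_nonneg.2 a2.2) p4,
        mul_nonneg (sub_nonneg.2 a3.1) p3, mul_nonneg (sub_nonneg.2 a3.2) p4,
        mul_nonneg n1 p2, mul_nonneg n4 p1, mul_nonneg n2 p1, mul_nonneg n2 p2,
        mul_nonneg n3 p1, mul_nonneg n3 p2]
  have hqc : ∀ m : ℝ, ContinuousOn (fun s => (f s ^ 2 + g s ^ 2) * exp (m * s)) (Icc lo hi) :=
    fun m s hs => (((hq s (hsub hs)).continuousAt.mul (by fun_prop))).continuousWithinAt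
  have hqd : ∀ m : ℝ, ∀ s ∈ Ioo a b, HasDerivAt (fun s => (f s ^ 2 + g s ^ 2) * exp (m * s))
      ((2 * f s * (A s * f s + B s * g s) + 2 * g s * (C s * f s + D s * g s)
        + m * (f s ^ 2 + g s ^ 2)) * exp (m * s)) s := fun m s hs =>
    hd ((hq s hs).mul (((hasDerivAt_id s).const_mul m).exp)) (fun _ => rfl)
      (by simp only [id]; ring)
  have key : f t ^ 2 + g t ^ 2 ≤ 0 := by
    rcases le_total t t0 with h | h
    · have hlo : lo = t := min_eq_left h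
      have hhi : hi = t0 := max_eq_right h
      rw [hlo, hhi] at hb hqc hsub
      have := mono_of_deriv h (hqc (2 * M)) (fun s hs => hqd (2 * M) s (hsub (Ioo_subset_Icc_self hs)))
        (fun s hs => mul_nonneg (by linarith [(abs_le.1 (hb s (Ioo_subset_Icc_self hs))).1])
          (exp_pos _).le)
      simp only [f0, g0] at this
      have he := exp_pos (2 * M * t)
      nlinarith
    · have hlo : lo = t0 := min_eq_right h
      have hhi : hi = t := max_eq_left h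
      rw [hlo, hhi] at hb hqc hsub
      have := anti_of_deriv h (hqc (-(2 * M)))
        (fun s hs => hqd (-(2 * M)) s (hsub (Ioo_subset_Icc_self hs)))
        (fun s hs => mul_nonpos_of_nonpos_of_nonneg
          (by linarith [(abs_le.1 (hb s (Ioo_subset_Icc_self hs))).2]) (exp_pos _).le)
      simp only [f0, g0] at this
      have he := exp_pos (-(2 * M) * t)
      nlinarith
  constructor <;> nlinarith [sq_nonneg (f t), sq_nonneg (g t)]

/-- a continuous function vanishing on `(a,b)` vanishes on `[a,b]` -/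
theorem zero_of_Ioo {f : ℝ → ℝ} {a b : ℝ} (hab : a < b) (hc : ContinuousOn f (Icc a b))
    (h : ∀ t ∈ Ioo a b, f t = 0) : ∀ t ∈ Icc a b, f t = 0 := by
  have : EqOn f (fun _ => (0 : ℝ)) (Icc a b) :=
    EqOn.of_subset_closure (s := Ioo a b) h hc continuousOn_const Ioo_subset_Icc_self
      (by rw [closure_Ioo hab.ne])
  exact this

namespace Crv.Prof

variable {γ : Crv} {L : ℝ}

theorem cI (_h : γ.Prof L) {f : ℝ → ℝ} (hf : ContinuousOn f (Icc 0 L)) :
    ContinuousOn f (Ioo 0 L) := hf.mono Ioo_subset_Icc_self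

/-- touching the circle tangentially forces the circle -/
theorem circle (h : γ.Prof L) {t0 : ℝ} (h0 : t0 ∈ Ioo 0 L) (hv : γ.v t0 = 0) (hz : γ.z t0 = 6) :
    ∀ t ∈ Icc 0 L, γ.z t = 6 := by
  have key := lin_unique (f := γ.V) (g := γ.G) (A := fun _ => 0) (B := γ.w)
    (C := fun t => -(γ.w t)⁻¹) (D := fun _ => 0) h0
    (fun t ht => hd (h.sol t ht).dV (fun _ => rfl) (by ring))
    (fun t ht => hd (h.sol t ht).dG (fun _ => rfl) (by
      have := (h.sol t ht).w_pos.ne'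
      unfold V; field_simp; ring))
    continuousOn_const (h.cI h.cw) ((h.cI h.cw).inv₀ (fun t ht => (h.sol t ht).w_pos.ne')).neg
    continuousOn_const (by unfold V; rw [hv]; ring) (by unfold G; rw [hz]; ring)
  have := zero_of_Ioo h.hL h.cG (fun t ht => (key t ht).2)
  intro t ht
  have := this t ht
  unfold G at this; linarith

/-- a radial tangent never occurs on the diagonal -/
theorem diag (h : γ.Prof L) {t0 : ℝ} (h0 : t0 ∈ Ioo 0 L) (hu : γ.u t0 = 0) :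
    γ.x t0 ≠ γ.y t0 := by
  intro hxy
  have key := lin_unique (f := fun t => γ.w t * γ.u t) (g := fun t => γ.x t - γ.y t)
    (A := fun _ => 0) (B := fun t => γ.E t * (γ.x t + γ.y t))
    (C := fun t => -(γ.w t * γ.x t)⁻¹) (D := fun t => γ.c t * (γ.x t)⁻¹) h0
    (fun t ht => hd (h.sol t ht).dwu (fun _ => rfl) (by ring))
    (fun t ht => hd ((h.sol t ht).dx.sub (h.sol t ht).dy) (fun _ => rfl) (by
      have := (h.sol t ht).w_pos.ne'
      have := (h.sol t ht).px.ne'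
      unfold u; field_simp; ring))
    continuousOn_const (h.cI (h.cE.mul (h.cx.add h.cy)))
    ((h.cI (h.cw.mul h.cx)).inv₀
      (fun t ht => (mul_pos (h.sol t ht).w_pos (h.sol t ht).px).ne')).neg
    ((h.cI h.cc).mul ((h.cI h.cx).inv₀ (fun t ht => (h.sol t ht).px.ne')))
    (by simp [hu]) (by simp [hxy])
  have := zero_of_Ioo h.hL (h.cx.sub h.cy) (fun t ht => (key t ht).2) 0 ⟨le_rfl, h.hL.le⟩
  simp only [Pi.sub_apply, h.y0] at this
  linarith [h.x0]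

/-- no vertical tangent on the line `x = √2` -/
theorem lineX (h : γ.Prof L) {t0 : ℝ} (h0 : t0 ∈ Ioo 0 L) (hc : γ.c t0 = 0) :
    γ.x t0 ^ 2 ≠ 2 := by
  intro hx
  have key := lin_unique (f := γ.c) (g := fun t => γ.x t ^ 2 - 2)
    (A := fun t => γ.s t * (γ.y t / 2 - (γ.y t)⁻¹)) (B := fun t => -(γ.s t ^ 2 / 2 * (γ.x t)⁻¹))
    (C := fun t => 2 * γ.x t) (D := fun _ => 0) h0
    (fun t ht => hd (h.sol t ht).dc (fun _ => rfl) (by
      have := (h.sol t ht).py.ne'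
      have := (h.sol t ht).px.ne'
      unfold k; field_simp; ring))
    (fun t ht => hd ((h.sol t ht).dx2.sub_const 2) (fun _ => rfl) (by ring))
    ((h.cI h.cs').mul (((h.cI h.cy).div_const 2).sub
      ((h.cI h.cy).inv₀ (fun t ht => (h.sol t ht).py.ne'))))
    ((((h.cI h.cs').pow 2).div_const 2).mul
      ((h.cI h.cx).inv₀ (fun t ht => (h.sol t ht).px.ne'))).neg
    (continuousOn_const.mul (h.cI h.cx)) continuousOn_const hc (by simp [hx])
  have := zero_of_Ioo h.hL h.cc (fun t ht => (key t ht).1) L ⟨h.hL.le, le_rfl⟩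
  rw [h.cL] at this
  norm_num at this

/-- no horizontal tangent on the line `y = √2` -/
theorem lineY (h : γ.Prof L) {t0 : ℝ} (h0 : t0 ∈ Ioo 0 L) (hs : γ.s t0 = 0) :
    γ.y t0 ^ 2 ≠ 2 := by
  have := h.mir.lineX (t0 := L - t0) ⟨by linarith [h0.2], by linarith [h0.1]⟩
    (by rw [mir_c, sub_sub_cancel, hs]; ring)
  rwa [mir_x, sub_sub_cancel] at this

end Crv.Prof

/-- the unbundled interface gives the bundled one -/
theorem Prof.crv {L : ℝ} {x y c s : ℝ → ℝ} (h : Prof L x y c s) :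
    (⟨x, y, c, s⟩ : Crv).Prof L := by
  have hk : ∀ t, (⟨x, y, c, s⟩ : Crv).k t = kap (x t) (y t) (c t) (s t) := fun t => by
    unfold Crv.k kap; ring
  refine ⟨h.L_pos, h.cx, h.cy, h.cc, h.cs, fun t ht => ⟨h.dx t ht, h.dy t ht, ?_, ?_,
    h.unit t (Ioo_subset_Icc_self ht), (h.pos t ht).1, (h.pos t ht).2⟩, h.y0, h.xL, h.x0, h.yL,
    h.c0, h.s0, h.cL, h.sL, h.inj⟩
  · exact hd (h.dc t ht) (fun _ => rfl) (by rw [hk]; ring)
  · exact hd (h.ds t ht) (fun _ => rfl) (by rw [hk])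

end Pool.Agent.MP_48470b_gt

end

section

/-! Segments of solutions of the profile equation and the monotone quantities. -/

open Set
open scoped Topology

noncomputable section

namespace Pool.Agent.MP_48470b_gt

lemma mono_le {f g : ℝ → ℝ} {a b : ℝ} (hab : a ≤ b) (hf : ContinuousOn f (Icc a b))
    (hd : ∀ u ∈ Ioo a b, HasDerivAt f (g u) u) (hg : ∀ u ∈ Ioo a b, 0 ≤ g u) : f a ≤ f b := by
  rcases hab.eq_or_lt with rfl | h
  · exact le_rfl
  obtain ⟨u, hu, he⟩ := exists_hasDerivAt_eq_slope f g h hf hd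
  have h1 := hg u hu
  rw [he, le_div_iff₀ (by linarith)] at h1
  linarith

lemma mono_lt {f g : ℝ → ℝ} {a b : ℝ} (hf : ContinuousOn f (Icc a b))
    (hd : ∀ u ∈ Ioo a b, HasDerivAt f (g u) u) (hg : ∀ u ∈ Ioo a b, 0 ≤ g u) {v : ℝ}
    (hv : v ∈ Ioo a b) (hv' : 0 < g v) : f a < f b := by
  by_contra hc
  have hc' := not_lt.1 hc
  have key : ∀ u ∈ Ioo a b, f u = f a := fun u hu => by
    have h1 : f a ≤ f u := mono_le hu.1.le (hf.mono (Icc_subset_Icc_right hu.2.le))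
      (fun w hw => hd w ⟨hw.1, hw.2.trans hu.2⟩) fun w hw => hg w ⟨hw.1, hw.2.trans hu.2⟩
    have h2 : f u ≤ f b := mono_le hu.2.le (hf.mono (Icc_subset_Icc_left hu.1.le))
      (fun w hw => hd w ⟨hu.1.trans hw.1, hw.2⟩) fun w hw => hg w ⟨hu.1.trans hw.1, hw.2⟩
    linarith
  have h3 : f =ᶠ[𝓝 v] fun _ => f a :=
    Filter.mem_of_superset (Ioo_mem_nhds hv.1 hv.2) key
  have h4 : HasDerivAt f 0 v := (hasDerivAt_const v (f a)).congr_of_eventuallyEq h3
  exact hv'.ne' ((hd v hv).unique h4)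

lemma anti_le {f g : ℝ → ℝ} {a b : ℝ} (hab : a ≤ b) (hf : ContinuousOn f (Icc a b))
    (hd : ∀ u ∈ Ioo a b, HasDerivAt f (g u) u) (hg : ∀ u ∈ Ioo a b, g u ≤ 0) : f b ≤ f a := by
  have := mono_le (f := fun u => -f u) (g := fun u => -g u) hab hf.neg
    (fun u hu => (hd u hu).neg) fun u hu => neg_nonneg.2 (hg u hu)
  linarith

lemma anti_lt {f g : ℝ → ℝ} {a b : ℝ} (hf : ContinuousOn f (Icc a b))
    (hd : ∀ u ∈ Ioo a b, HasDerivAt f (g u) u) (hg : ∀ u ∈ Ioo a b, g u ≤ 0) {v : ℝ}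
    (hv : v ∈ Ioo a b) (hv' : g v < 0) : f b < f a := by
  have := mono_lt (f := fun u => -f u) (g := fun u => -g u) hf.neg
    (fun u hu => (hd u hu).neg) (fun u hu => neg_nonneg.2 (hg u hu)) hv (neg_pos.2 hv')
  linarith

lemma exists_ne_left {f : ℝ → ℝ} {a b : ℝ} (hab : a < b) (hf : ContinuousOn f (Icc a b))
    (h : f a ≠ 0) : ∃ u ∈ Ioo a b, f u ≠ 0 := by
  by_contra hc
  have h1 : EqOn f (fun _ => 0) (Ioo a b) := fun u hu => by
    by_contra h2; exact hc ⟨u, hu, h2⟩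
  have h2 := h1.of_subset_closure hf continuousOn_const Ioo_subset_Icc_self
    (by rw [closure_Ioo hab.ne])
  exact h (h2 (left_mem_Icc.2 hab.le))

lemma exists_ne_right {f : ℝ → ℝ} {a b : ℝ} (hab : a < b) (hf : ContinuousOn f (Icc a b))
    (h : f b ≠ 0) : ∃ u ∈ Ioo a b, f u ≠ 0 := by
  by_contra hc
  have h1 : EqOn f (fun _ => 0) (Ioo a b) := fun u hu => by
    by_contra h2; exact hc ⟨u, hu, h2⟩
  have h2 := h1.of_subset_closure hf continuousOn_const Ioo_subset_Icc_self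
    (by rw [closure_Ioo hab.ne])
  exact h (h2 (right_mem_Icc.2 hab.le))

/-- a piece of a solution in the closed quadrant -/
structure Seg (a b : ℝ) (x y c s : ℝ → ℝ) : Prop where
  lt : a < b
  cx : ContinuousOn x (Icc a b)
  cy : ContinuousOn y (Icc a b)
  cc : ContinuousOn c (Icc a b)
  cs : ContinuousOn s (Icc a b)
  unit : ∀ t ∈ Icc a b, c t ^ 2 + s t ^ 2 = 1
  pos : ∀ t ∈ Ioo a b, 0 < x t ∧ 0 < y t
  nn : ∀ t ∈ Icc a b, 0 ≤ x t ∧ 0 ≤ y t ∧ 0 < x t ^ 2 + y t ^ 2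
  dx : ∀ t ∈ Ioo a b, HasDerivAt x (c t) t
  dy : ∀ t ∈ Ioo a b, HasDerivAt y (s t) t
  dc : ∀ t ∈ Ioo a b, HasDerivAt c (-(s t * kap (x t) (y t) (c t) (s t))) t
  ds : ∀ t ∈ Ioo a b, HasDerivAt s (c t * kap (x t) (y t) (c t) (s t)) t

variable {a b L : ℝ} {x y c s : ℝ → ℝ}

lemma Prof.seg (h : Prof L x y c s) : Seg 0 L x y c s where
  lt := h.L_pos
  cx := h.cx
  cy := h.cy
  cc := h.cc
  cs := h.cs
  unit := h.unit
  pos := h.pos
  nn := fun t ht => by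
    rcases ht.1.eq_or_lt with rfl | h1
    · have := h.x0
      exact ⟨this.le, h.y0.ge, by positivity⟩
    rcases ht.2.eq_or_lt with rfl | h2
    · have := h.yL
      exact ⟨h.xL.ge, this.le, by positivity⟩
    have := h.pos t ⟨h1, h2⟩
    exact ⟨this.1.le, this.2.le, by have := this.1; positivity⟩
  dx := h.dx
  dy := h.dy
  dc := h.dc
  ds := h.ds

lemma Seg.sub (h : Seg a b x y c s) {a' b' : ℝ} (h1 : a ≤ a') (h2 : a' < b') (h3 : b' ≤ b) :
    Seg a' b' x y c s where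
  lt := h2
  cx := h.cx.mono (Icc_subset_Icc h1 h3)
  cy := h.cy.mono (Icc_subset_Icc h1 h3)
  cc := h.cc.mono (Icc_subset_Icc h1 h3)
  cs := h.cs.mono (Icc_subset_Icc h1 h3)
  unit := fun t ht => h.unit t (Icc_subset_Icc h1 h3 ht)
  pos := fun t ht => h.pos t (Ioo_subset_Ioo h1 h3 ht)
  nn := fun t ht => h.nn t (Icc_subset_Icc h1 h3 ht)
  dx := fun t ht => h.dx t (Ioo_subset_Ioo h1 h3 ht)
  dy := fun t ht => h.dy t (Ioo_subset_Ioo h1 h3 ht)
  dc := fun t ht => h.dc t (Ioo_subset_Ioo h1 h3 ht)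
  ds := fun t ht => h.ds t (Ioo_subset_Ioo h1 h3 ht)

lemma Seg.swap (h : Seg a b x y c s) : Seg a b y x s c where
  lt := h.lt
  cx := h.cy
  cy := h.cx
  cc := h.cs
  cs := h.cc
  unit := fun t ht => by rw [add_comm]; exact h.unit t ht
  pos := fun t ht => (h.pos t ht).symm
  nn := fun t ht => ⟨(h.nn t ht).2.1, (h.nn t ht).1, by rw [add_comm]; exact (h.nn t ht).2.2⟩
  dx := h.dy
  dy := h.dx
  dc := fun t ht => by convert h.ds t ht using 1; unfold kap; ring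
  ds := fun t ht => by convert h.dc t ht using 1; unfold kap; ring

lemma Seg.rev (h : Seg a b x y c s) :
    Seg (-b) (-a) (fun t => x (-t)) (fun t => y (-t)) (fun t => -c (-t)) (fun t => -s (-t)) := by
  have m1 : MapsTo (fun t : ℝ => -t) (Icc (-b) (-a)) (Icc a b) := fun t ht =>
    ⟨by linarith [ht.2], by linarith [ht.1]⟩
  have m2 : ∀ t ∈ Ioo (-b) (-a), -t ∈ Ioo a b := fun t ht =>
    ⟨by linarith [ht.2], by linarith [ht.1]⟩
  refine ⟨by linarith [h.lt], h.cx.comp continuousOn_neg m1, h.cy.comp continuousOn_neg m1,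
    (h.cc.comp continuousOn_neg m1).neg, (h.cs.comp continuousOn_neg m1).neg, fun t ht => ?_,
    fun t ht => h.pos _ (m2 t ht), fun t ht => h.nn _ (m1 ht), fun t ht => ?_, fun t ht => ?_,
    fun t ht => ?_, fun t ht => ?_⟩
  · rw [neg_sq, neg_sq]; exact h.unit _ (m1 ht)
  · exact ((h.dx _ (m2 t ht)).comp t (hasDerivAt_neg t)).congr_deriv (by ring)
  · exact ((h.dy _ (m2 t ht)).comp t (hasDerivAt_neg t)).congr_deriv (by ring)
  · exact ((h.dc _ (m2 t ht)).comp t (hasDerivAt_neg t)).neg.congr_deriv (by unfold kap; ring)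
  · exact ((h.ds _ (m2 t ht)).comp t (hasDerivAt_neg t)).neg.congr_deriv (by unfold kap; ring)

def rE (x y : ℝ) : ℝ := Real.exp (-((x ^ 2 + y ^ 2) / 4))
def rLam (x y c s : ℝ) : ℝ := (s * y * (x ^ 2 - 2) - c * x * (y ^ 2 - 4)) / 2
def rPi (x y c s : ℝ) : ℝ := rLam x y c s - c ^ 2 * (x * c + y * s)

lemma rE_pos (x y : ℝ) : 0 < rE x y := Real.exp_pos _

namespace Seg
variable (h : Seg a b x y c s)
include h

lemma cE : ContinuousOn (fun t => rE (x t) (y t)) (Icc a b) := by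
  have := h.cx; have := h.cy
  unfold rE; fun_prop
lemma cLam : ContinuousOn (fun t => rLam (x t) (y t) (c t) (s t)) (Icc a b) := by
  have := h.cx; have := h.cy; have := h.cc; have := h.cs
  unfold rLam; fun_prop
lemma cV : ContinuousOn (fun t => x t * c t + y t * s t) (Icc a b) := by
  have := h.cx; have := h.cy; have := h.cc; have := h.cs
  fun_prop
lemma cU : ContinuousOn (fun t => x t * s t - y t * c t) (Icc a b) := by
  have := h.cx; have := h.cy; have := h.cc; have := h.cs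
  fun_prop
lemma cP : ContinuousOn (fun t => x t ^ 2 + y t ^ 2) (Icc a b) := by
  have := h.cx; have := h.cy
  fun_prop
lemma cPi : ContinuousOn (fun t => rPi (x t) (y t) (c t) (s t)) (Icc a b) :=
  h.cLam.sub ((h.cc.pow 2).mul h.cV)

variable {t : ℝ} (ht : t ∈ Ioo a b)
include ht

lemma dP : HasDerivAt (fun t => x t ^ 2 + y t ^ 2) (2 * (x t * c t + y t * s t)) t :=
  (((h.dx t ht).fun_pow 2).fun_add ((h.dy t ht).fun_pow 2)).congr_deriv (by simp; ring)

lemma dE : HasDerivAt (fun t => rE (x t) (y t))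
    (-(x t * c t + y t * s t) / 2 * rE (x t) (y t)) t :=
  (((h.dP ht).div_const 4).fun_neg).exp.congr_deriv (by unfold rE; ring)

lemma dV : HasDerivAt (fun t => x t * c t + y t * s t)
    (1 - kap (x t) (y t) (c t) (s t) * (x t * s t - y t * c t)) t := by
  refine (((h.dx t ht).fun_mul (h.dc t ht)).fun_add
    ((h.dy t ht).fun_mul (h.ds t ht))).congr_deriv ?_
  have := h.unit t (Ioo_subset_Icc_self ht)
  linear_combination this

lemma dLam : HasDerivAt (fun t => rLam (x t) (y t) (c t) (s t))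
    ((c t * kap (x t) (y t) (c t) (s t) * y t * (x t ^ 2 - 2) + s t * s t * (x t ^ 2 - 2) +
      s t * y t * (2 * x t * c t) + s t * kap (x t) (y t) (c t) (s t) * x t * (y t ^ 2 - 4) -
      c t * c t * (y t ^ 2 - 4) - c t * x t * (2 * y t * s t)) / 2) t :=
  (((((h.ds t ht).fun_mul (h.dy t ht)).fun_mul (((h.dx t ht).fun_pow 2).sub_const 2)).fun_sub
    (((h.dc t ht).fun_mul (h.dx t ht)).fun_mul
      (((h.dy t ht).fun_pow 2).sub_const 4))).div_const 2).congr_deriv (by simp; ring)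

lemma dA1 : HasDerivAt (fun t => x t * y t * rE (x t) (y t) * rLam (x t) (y t) (c t) (s t))
    (-(x t * y t * rE (x t) (y t) * c t ^ 2 * (x t ^ 2 + y t ^ 2 - 6) / 2)) t := by
  refine ((((h.dx t ht).fun_mul (h.dy t ht)).fun_mul (h.dE ht)).fun_mul (h.dLam ht)).congr_deriv ?_
  have hu := h.unit t (Ioo_subset_Icc_self ht)
  obtain ⟨hx, hy⟩ := h.pos t ht
  unfold kap rLam
  field_simp
  grind

lemma dWV : HasDerivAt (fun t => x t * y t * rE (x t) (y t) * (x t * c t + y t * s t))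
    (-(x t * y t * rE (x t) (y t) * (x t ^ 2 + y t ^ 2 - 6) / 2)) t := by
  refine ((((h.dx t ht).fun_mul (h.dy t ht)).fun_mul (h.dE ht)).fun_mul (h.dV ht)).congr_deriv ?_
  have hu := h.unit t (Ioo_subset_Icc_self ht)
  obtain ⟨hx, hy⟩ := h.pos t ht
  unfold kap
  field_simp
  grind

lemma dA2 : HasDerivAt (fun t => x t * y t * rE (x t) (y t) *
      (x t * c t + y t * s t - rLam (x t) (y t) (c t) (s t)))
    (-(x t * y t * rE (x t) (y t) * s t ^ 2 * (x t ^ 2 + y t ^ 2 - 6) / 2)) t := by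
  refine ((((h.dx t ht).fun_mul (h.dy t ht)).fun_mul (h.dE ht)).fun_mul
    ((h.dV ht).fun_sub (h.dLam ht))).congr_deriv ?_
  have hu := h.unit t (Ioo_subset_Icc_self ht)
  obtain ⟨hx, hy⟩ := h.pos t ht
  unfold kap rLam
  field_simp
  grind

lemma dPi : HasDerivAt (fun t => rPi (x t) (y t) (c t) (s t))
    ((c t * kap (x t) (y t) (c t) (s t) * y t * (x t ^ 2 - 2) + s t * s t * (x t ^ 2 - 2) +
      s t * y t * (2 * x t * c t) + s t * kap (x t) (y t) (c t) (s t) * x t * (y t ^ 2 - 4) -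
      c t * c t * (y t ^ 2 - 4) - c t * x t * (2 * y t * s t)) / 2 -
      (-(2 * c t * s t * kap (x t) (y t) (c t) (s t)) * (x t * c t + y t * s t) +
        c t ^ 2 * (1 - kap (x t) (y t) (c t) (s t) * (x t * s t - y t * c t)))) t :=
  ((h.dLam ht).fun_sub (((h.dc t ht).fun_pow 2).fun_mul (h.dV ht))).congr_deriv
    (by push_cast; ring)

lemma dN3 : HasDerivAt (fun t => x t / y t * rE (x t) (y t) * rPi (x t) (y t) (c t) (s t))
    (-(2 * (x t * s t - y t * c t) * (s t / y t) ^ 2 * rE (x t) (y t) *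
      rLam (x t) (y t) (c t) (s t))) t := by
  obtain ⟨hx, hy⟩ := h.pos t ht
  refine ((((h.dx t ht).fun_div (h.dy t ht) hy.ne').fun_mul (h.dE ht)).fun_mul
    (h.dPi ht)).congr_deriv ?_
  have hu := h.unit t (Ioo_subset_Icc_self ht)
  unfold kap rPi rLam
  field_simp
  grind

lemma dN2 : HasDerivAt (fun t => y t / x t * rE (x t) (y t) * rPi (x t) (y t) (c t) (s t))
    (-(2 * (x t * s t - y t * c t) * (c t / x t) ^ 2 * rE (x t) (y t) *
      (x t * c t + y t * s t - rLam (x t) (y t) (c t) (s t)))) t := by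
  obtain ⟨hx, hy⟩ := h.pos t ht
  refine ((((h.dy t ht).fun_div (h.dx t ht) hx.ne').fun_mul (h.dE ht)).fun_mul
    (h.dPi ht)).congr_deriv ?_
  have hu := h.unit t (Ioo_subset_Icc_self ht)
  unfold kap rPi rLam
  field_simp
  grind

end Seg

end Pool.Agent.MP_48470b_gt

end
end

section

/-! The radial derivative on arcs without radial tangent; signs of the two monotone
quantities. -/

open Set
open scoped Topology

noncomputable section

namespace Pool.Agent.MP_48470b_gt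

variable {a b L : ℝ} {x y c s : ℝ → ℝ}

namespace Seg
variable (h : Seg a b x y c s)
include h

lemma P_lt (hv : ∀ t ∈ Ioo a b, 0 < x t * c t + y t * s t) {t u : ℝ} (ht : a ≤ t) (htu : t < u)
    (hu : u ≤ b) : x t ^ 2 + y t ^ 2 < x u ^ 2 + y u ^ 2 := by
  have h' := h.sub ht htu hu
  have m : (t + u) / 2 ∈ Ioo t u := ⟨by linarith, by linarith⟩
  exact mono_lt h'.cP (fun w hw => h'.dP hw)
    (fun w hw => by have := hv w (Ioo_subset_Ioo ht hu hw); positivity) m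
    (by have := hv _ (Ioo_subset_Ioo ht hu m); positivity)

lemma w_pos {t : ℝ} (ht : t ∈ Ioo a b) : 0 < x t * y t * rE (x t) (y t) := by
  have := h.pos t ht
  exact mul_pos (mul_pos this.1 this.2) (rE_pos _ _)

lemma cW : ContinuousOn (fun t => x t * y t * rE (x t) (y t)) (Icc a b) :=
  (h.cx.mul h.cy).mul h.cE

/-- an arc with increasing radius and vanishing radial derivative at the ends crosses the
circle -/
lemma cross (hv : ∀ t ∈ Ioo a b, 0 < x t * c t + y t * s t) (ha : x a * c a + y a * s a = 0)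
    (hb : x b * c b + y b * s b = 0) : ∃ m ∈ Ioo a b, x m ^ 2 + y m ^ 2 = 6 := by
  have hab := h.lt
  have m : (a + b) / 2 ∈ Ioo a b := ⟨by linarith, by linarith⟩
  have hm := mul_pos (h.w_pos m) (hv _ m)
  have h1 : x a ^ 2 + y a ^ 2 < 6 := by
    by_contra hc
    have h' := h.sub le_rfl m.1 m.2.le
    have := anti_le m.1.le (h'.cW.mul h'.cV) (fun w hw => h'.dWV hw) fun w hw => by
      have a1 := h'.w_pos hw
      have a2 := h.P_lt hv le_rfl hw.1 (hw.2.le.trans m.2.le)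
      have := mul_pos a1 (by linarith : 0 < x w ^ 2 + y w ^ 2 - 6)
      linarith
    simp only [Pi.mul_apply, ha, mul_zero] at this
    linarith
  have h2 : 6 < x b ^ 2 + y b ^ 2 := by
    by_contra hc
    have h' := h.sub m.1.le m.2 le_rfl
    have := mono_le m.2.le (h'.cW.mul h'.cV) (fun w hw => h'.dWV hw) fun w hw => by
      have a1 := h'.w_pos hw
      have a2 := h.P_lt hv (m.1.le.trans hw.1.le) hw.2 le_rfl
      have := mul_pos a1 (by linarith : 0 < 6 - (x w ^ 2 + y w ^ 2))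
      linarith
    simp only [Pi.mul_apply, hb, mul_zero] at this
    linarith
  exact intermediate_value_Ioo hab.le h.cP ⟨h1, h2⟩

/-- inside the circle `w (v - Λ)` increases -/
lemma A2_in {t : ℝ} (ht : t ∈ Ioo a b) (hp : ∀ u ∈ Ioo a t, x u ^ 2 + y u ^ 2 < 6) (hs : s a ≠ 0)
    (h0 : 0 ≤ x a * y a * rE (x a) (y a) * (x a * c a + y a * s a - rLam (x a) (y a) (c a) (s a))) :
    rLam (x t) (y t) (c t) (s t) < x t * c t + y t * s t := by
  have h' := h.sub le_rfl ht.1 ht.2.le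
  obtain ⟨v, hv, hv'⟩ := exists_ne_left ht.1 h'.cs hs
  have := mono_lt (h'.cW.mul (h'.cV.sub h'.cLam)) (fun w hw => h'.dA2 hw) (fun w hw => by
      have := mul_nonneg (mul_nonneg (h'.w_pos hw).le (sq_nonneg (s w)))
        (by linarith [hp w hw] : 0 ≤ 6 - (x w ^ 2 + y w ^ 2))
      linarith) hv (by
      have := mul_pos (mul_pos (h'.w_pos hv) (sq_pos_of_ne_zero hv'))
        (by linarith [hp v hv] : 0 < 6 - (x v ^ 2 + y v ^ 2))
      linarith)
  have h1 : 0 < x t * y t * rE (x t) (y t) *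
      (x t * c t + y t * s t - rLam (x t) (y t) (c t) (s t)) := lt_of_le_of_lt h0 this
  have := (mul_pos_iff_of_pos_left (h.w_pos ht)).1 h1
  linarith

/-- outside the circle `w Λ` decreases -/
lemma A1_out {t : ℝ} (ht : t ∈ Ioo a b) (hp : ∀ u ∈ Ioo t b, 6 < x u ^ 2 + y u ^ 2) (hc : c b ≠ 0)
    (h0 : 0 ≤ x b * y b * rE (x b) (y b) * rLam (x b) (y b) (c b) (s b)) :
    0 < rLam (x t) (y t) (c t) (s t) := by
  have h' := h.sub ht.1.le ht.2 le_rfl
  obtain ⟨v, hv, hv'⟩ := exists_ne_right ht.2 h'.cc hc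
  have := anti_lt (h'.cW.mul h'.cLam) (fun w hw => h'.dA1 hw) (fun w hw => by
      have := mul_nonneg (mul_nonneg (h'.w_pos hw).le (sq_nonneg (c w)))
        (by linarith [hp w hw] : 0 ≤ x w ^ 2 + y w ^ 2 - 6)
      linarith) hv (by
      have := mul_pos (mul_pos (h'.w_pos hv) (sq_pos_of_ne_zero hv'))
        (by linarith [hp v hv] : 0 < x v ^ 2 + y v ^ 2 - 6)
      linarith)
  exact (mul_pos_iff_of_pos_left (h.w_pos ht)).1 (lt_of_le_of_lt h0 this)

lemma nonneg_left {f : ℝ → ℝ} (hf : ContinuousOn f (Icc a b)) (hp : ∀ t ∈ Ioo a b, 0 < f t) :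
    ∀ t ∈ Icc a b, 0 ≤ f t := by
  intro t ht
  have : t ∈ closure (Ioo a b) := by rwa [closure_Ioo h.lt.ne]
  exact ContinuousWithinAt.closure_le this continuousWithinAt_const
    ((hf t ht).mono Ioo_subset_Icc_self) fun u hu => (hp u hu).le

lemma x_left (hu : ∀ t ∈ Ioo a b, 0 < x t * s t - y t * c t) : 0 < x a := by
  have hab := h.lt
  have n := h.nn a (left_mem_Icc.2 hab.le)
  refine n.1.lt_of_ne fun h0 => ?_
  have hy : 0 < y a := n.2.1.lt_of_ne fun h1 => by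
    have := n.2.2
    rw [← h0, ← h1] at this
    simp at this
  have m : (a + b) / 2 ∈ Ioo a b := ⟨by linarith, by linarith⟩
  have h' := h.sub le_rfl m.1 m.2.le
  have hy' : ∀ t ∈ Icc a ((a + b) / 2), y t ≠ 0 := fun t ht => by
    rcases ht.1.eq_or_lt with rfl | h1
    · exact hy.ne'
    · exact (h.pos t ⟨h1, lt_of_le_of_lt ht.2 m.2⟩).2.ne'
  have := anti_le m.1.le (h'.cx.div h'.cy hy')
    (fun w hw => (h'.dx w hw).div (h'.dy w hw) (hy' w (Ioo_subset_Icc_self hw))) fun w hw => by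
      have := hu w ⟨hw.1, hw.2.trans m.2⟩
      exact div_nonpos_of_nonpos_of_nonneg (by linarith) (sq_nonneg _)
  simp only [Pi.div_apply, ← h0, zero_div] at this
  have h2 := h.pos _ m
  exact absurd (div_pos h2.1 h2.2) (not_lt.2 this)

lemma y_right (hu : ∀ t ∈ Ioo a b, 0 < x t * s t - y t * c t) : 0 < y b := by
  have := h.swap.rev.x_left fun t ht => by
    have := hu (-t) ⟨by linarith [ht.2], by linarith [ht.1]⟩
    linarith
  simpa using this

end Seg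

lemma end_alg {x y c s : ℝ} (h1 : c ^ 2 + s ^ 2 = 1) (hv : x * c + y * s = 0) :
    x = s * (x * s - y * c) ∧ y = -c * (x * s - y * c) ∧
      (x * s - y * c) * rLam x y c s = x * y * (x ^ 2 + y ^ 2 - 6) / 2 := by
  have e1 : x = s * (x * s - y * c) := by linear_combination (-x) * h1 + c * hv
  have e2 : y = -c * (x * s - y * c) := by linear_combination (-y) * h1 + s * hv
  refine ⟨e1, e2, ?_⟩
  unfold rLam
  linear_combination (-(y * (x ^ 2 - 2)) / 2) * e1 + (-(x * (y ^ 2 - 4)) / 2) * e2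

theorem Seg.lemR_pp (h : Seg a b x y c s) (hu : ∀ t ∈ Ioo a b, 0 < x t * s t - y t * c t)
    (hv : ∀ t ∈ Ioo a b, 0 < x t * c t + y t * s t) (ha : x a * c a + y a * s a = 0)
    (hb : x b * c b + y b * s b = 0) : False := by
  have hab := h.lt
  have ma := left_mem_Icc.2 hab.le
  have mb := right_mem_Icc.2 hab.le
  obtain ⟨m, hm, hp⟩ := h.cross hv ha hb
  have hxa := h.x_left hu
  have hyb := h.y_right hu
  obtain ⟨a1, -, a3⟩ := end_alg (h.unit a ma) ha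
  obtain ⟨-, b2, b3⟩ := end_alg (h.unit b mb) hb
  have ua : 0 < x a * s a - y a * c a := (h.nonneg_left h.cU hu a ma).lt_of_ne fun e => by
    rw [← e, mul_zero] at a1; exact hxa.ne' a1
  have ub : 0 < x b * s b - y b * c b := (h.nonneg_left h.cU hu b mb).lt_of_ne fun e => by
    rw [← e, mul_zero] at b2; exact hyb.ne' b2
  have sa : s a ≠ 0 := fun e => by rw [e, zero_mul] at a1; exact hxa.ne' a1
  have cb : c b ≠ 0 := fun e => by rw [e, neg_zero, zero_mul] at b2; exact hyb.ne' b2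
  have pin : ∀ u ∈ Ico a m, x u ^ 2 + y u ^ 2 < 6 := fun u hu' =>
    hp ▸ h.P_lt hv hu'.1 hu'.2 hm.2.le
  have pout : ∀ u ∈ Ioc m b, 6 < x u ^ 2 + y u ^ 2 := fun u hu' =>
    hp ▸ h.P_lt hv hm.1.le hu'.1 hu'.2
  have la : rLam (x a) (y a) (c a) (s a) ≤ 0 := by
    have h1 := mul_nonneg (mul_nonneg hxa.le (h.nn a ma).2.1)
      (by linarith [pin a ⟨le_rfl, hm.1⟩] : 0 ≤ 6 - (x a ^ 2 + y a ^ 2))
    exact nonpos_of_mul_nonpos_right (by linarith) ua
  have lb : 0 ≤ rLam (x b) (y b) (c b) (s b) := by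
    have h1 := mul_nonneg (mul_nonneg (h.nn b mb).1 hyb.le)
      (by linarith [pout b ⟨hm.2, le_rfl⟩] : 0 ≤ x b ^ 2 + y b ^ 2 - 6)
    exact nonneg_of_mul_nonneg_right (by linarith) ub
  have i2 : ∀ t ∈ Ioo a m, rLam (x t) (y t) (c t) (s t) < x t * c t + y t * s t := fun t ht =>
    h.A2_in ⟨ht.1, ht.2.trans hm.2⟩ (fun u hu' => pin u ⟨hu'.1.le, hu'.2.trans ht.2⟩) sa
      (mul_nonneg (mul_nonneg (mul_nonneg hxa.le (h.nn a ma).2.1) (rE_pos _ _).le) (by linarith))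
  have i1 : ∀ t ∈ Ioo m b, 0 < rLam (x t) (y t) (c t) (s t) := fun t ht =>
    h.A1_out ⟨hm.1.trans ht.1, ht.2⟩ (fun u hu' => pout u ⟨ht.1.trans hu'.1, hu'.2.le⟩) cb
      (mul_nonneg (mul_nonneg (mul_nonneg (h.nn b mb).1 hyb.le) (rE_pos _ _).le) lb)
  have h1 := h.sub le_rfl hm.1 hm.2.le
  have h2 := h.sub hm.1.le hm.2 le_rfl
  have hx : ∀ t ∈ Icc a m, x t ≠ 0 := fun t ht => by
    rcases ht.1.eq_or_lt with rfl | e
    · exact hxa.ne'
    · exact (h.pos t ⟨e, lt_of_le_of_lt ht.2 hm.2⟩).1.ne'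
  have hy : ∀ t ∈ Icc m b, y t ≠ 0 := fun t ht => by
    rcases ht.2.eq_or_lt with rfl | e
    · exact hyb.ne'
    · exact (h.pos t ⟨lt_of_lt_of_le hm.1 ht.1, e⟩).2.ne'
  have c2 := ((h1.cy.div h1.cx hx).mul h1.cE).mul h1.cPi
  have c3 := ((h2.cx.div h2.cy hy).mul h2.cE).mul h2.cPi
  have g2 : ∀ t ∈ Ioo a m, 0 < 2 * (x t * s t - y t * c t) * rE (x t) (y t) *
      (x t * c t + y t * s t - rLam (x t) (y t) (c t) (s t)) := fun t ht =>
    mul_pos (mul_pos (mul_pos two_pos (hu t ⟨ht.1, ht.2.trans hm.2⟩)) (rE_pos _ _))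
      (sub_pos.2 (i2 t ht))
  have g3 : ∀ t ∈ Ioo m b, 0 < 2 * (x t * s t - y t * c t) * rE (x t) (y t) *
      rLam (x t) (y t) (c t) (s t) := fun t ht =>
    mul_pos (mul_pos (mul_pos two_pos (hu t ⟨hm.1.trans ht.1, ht.2⟩)) (rE_pos _ _)) (i1 t ht)
  have d2 : ∀ t ∈ Ioo a m, -(2 * (x t * s t - y t * c t) * (c t / x t) ^ 2 * rE (x t) (y t) *
      (x t * c t + y t * s t - rLam (x t) (y t) (c t) (s t))) ≤ 0 := fun t ht => by
    have := mul_nonneg (g2 t ht).le (sq_nonneg (c t / x t)); linarith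
  have d3 : ∀ t ∈ Ioo m b, -(2 * (x t * s t - y t * c t) * (s t / y t) ^ 2 * rE (x t) (y t) *
      rLam (x t) (y t) (c t) (s t)) ≤ 0 := fun t ht => by
    have := mul_nonneg (g3 t ht).le (sq_nonneg (s t / y t)); linarith
  have n2 : y a / x a * rE (x a) (y a) * rPi (x a) (y a) (c a) (s a) ≤ 0 := by
    refine mul_nonpos_of_nonneg_of_nonpos
      (mul_nonneg (div_nonneg (h.nn a ma).2.1 hxa.le) (rE_pos _ _).le) ?_
    rw [rPi, ha]; linarith
  have n3 : 0 ≤ x b / y b * rE (x b) (y b) * rPi (x b) (y b) (c b) (s b) := by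
    refine mul_nonneg (mul_nonneg (div_nonneg (h.nn b mb).1 hyb.le) (rE_pos _ _).le) ?_
    rw [rPi, hb]; linarith
  obtain ⟨hxm, hym⟩ := h.pos m hm
  have k2 : 0 < y m / x m * rE (x m) (y m) := mul_pos (div_pos hym hxm) (rE_pos _ _)
  have k3 : 0 < x m / y m * rE (x m) (y m) := mul_pos (div_pos hxm hym) (rE_pos _ _)
  by_cases hc : c m = 0
  · have hs : s m ≠ 0 := fun e => by
      have := h.unit m (Ioo_subset_Icc_self hm)
      rw [hc, e] at this; simp at this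
    obtain ⟨v, hv1, hv2⟩ := exists_ne_left hm.2 h2.cs hs
    have e3 := anti_lt c3 (fun t ht => h2.dN3 ht) d3 hv1 (by
      have := mul_pos (g3 v hv1) (sq_pos_of_ne_zero (div_ne_zero hv2 (hy v (Ioo_subset_Icc_self hv1))))
      linarith)
    have e2 := anti_le hm.1.le c2 (fun t ht => h1.dN2 ht) d2
    have f3 := (mul_pos_iff_of_pos_left k3).1 (lt_of_le_of_lt n3 e3)
    exact absurd (mul_pos k2 f3) (not_lt.2 (le_trans e2 n2))
  · obtain ⟨v, hv1, hv2⟩ := exists_ne_right hm.1 h1.cc hc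
    have e2 := anti_lt c2 (fun t ht => h1.dN2 ht) d2 hv1 (by
      have := mul_pos (g2 v hv1) (sq_pos_of_ne_zero (div_ne_zero hv2 (hx v (Ioo_subset_Icc_self hv1))))
      linarith)
    have e3 := anti_le hm.2.le c3 (fun t ht => h2.dN3 ht) d3
    have f3 : 0 ≤ rPi (x m) (y m) (c m) (s m) := nonneg_of_mul_nonneg_right (le_trans n3 e3) k3
    exact absurd (lt_of_lt_of_le e2 n2) (not_lt.2 (mul_nonneg k2.le f3))

lemma sign_const {f : ℝ → ℝ} (hf : ContinuousOn f (Icc a b)) (hne : ∀ t ∈ Ioo a b, f t ≠ 0) :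
    (∀ t ∈ Ioo a b, 0 < f t) ∨ ∀ t ∈ Ioo a b, f t < 0 := by
  by_contra hc
  rw [not_or] at hc
  obtain ⟨h1, h2⟩ := hc
  simp only [not_forall, not_lt] at h1 h2
  obtain ⟨t, ht, h1⟩ := h1
  obtain ⟨u, hu, h2⟩ := h2
  obtain ⟨v, hv, h3⟩ := isPreconnected_Ioo.intermediate_value ht hu
    (hf.mono Ioo_subset_Icc_self) ⟨h1, h2⟩
  exact hne v hv h3

/-- between two zeros of the radial derivative there is a radial tangent -/
theorem Seg.lemR (h : Seg a b x y c s) (hv : ∀ t ∈ Ioo a b, x t * c t + y t * s t ≠ 0)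
    (ha : x a * c a + y a * s a = 0) (hb : x b * c b + y b * s b = 0) :
    ∃ t ∈ Ioo a b, x t * s t - y t * c t = 0 := by
  by_contra hc
  have hu : ∀ t ∈ Ioo a b, x t * s t - y t * c t ≠ 0 := fun t ht e => hc ⟨t, ht, e⟩
  have m : ∀ t ∈ Ioo (-b) (-a), -t ∈ Ioo a b := fun t ht =>
    ⟨by linarith [ht.2], by linarith [ht.1]⟩
  rcases sign_const h.cU hu with h1 | h1 <;> rcases sign_const h.cV hv with h2 | h2
  · exact h.lemR_pp h1 h2 ha hb
  · exact h.swap.rev.lemR_pp (fun t ht => by linarith [h1 _ (m t ht)])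
      (fun t ht => by linarith [h2 _ (m t ht)]) (by simp only [neg_neg]; linarith)
      (by simp only [neg_neg]; linarith)
  · exact h.swap.lemR_pp (fun t ht => by linarith [h1 t ht]) (fun t ht => by linarith [h2 t ht])
      (by linarith) (by linarith)
  · exact h.rev.lemR_pp (fun t ht => by linarith [h1 _ (m t ht)])
      (fun t ht => by linarith [h2 _ (m t ht)]) (by simp only [neg_neg]; linarith)
      (by simp only [neg_neg]; linarith)

end Pool.Agent.MP_48470b_gt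

end
end

section

/-! Consequences of `v > 0`: ordering of the principal curvatures, signs of the tangent. -/

set_option autoImplicit false

open Real Set Filter Topology

namespace Pool.Agent.MP_48470b_gt

namespace Crv.Prof

variable {γ : Crv} {L : ℝ}

theorem sub_Icc (_h : γ.Prof L) {a b : ℝ} (ha : a ∈ Icc 0 L) (hb : b ∈ Icc 0 L) :
    Icc a b ⊆ Icc 0 L := Icc_subset_Icc ha.1 hb.2

theorem sub_Ioo (_h : γ.Prof L) {a b : ℝ} (ha : a ∈ Icc 0 L) (hb : b ∈ Icc 0 L) :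
    Ioo a b ⊆ Ioo 0 L := Ioo_subset_Ioo ha.1 hb.2

theorem z_lt (h : γ.Prof L) (hv : ∀ t ∈ Ioo 0 L, 0 < γ.v t) {a b : ℝ} (ha : a ∈ Icc 0 L)
    (hb : b ∈ Icc 0 L) (hab : a < b) : γ.z a < γ.z b :=
  smono_of_deriv hab (h.cz.mono (h.sub_Icc ha hb))
    (fun t ht => (h.sol t (h.sub_Ioo ha hb ht)).dz)
    (fun t ht => by linarith [hv t (h.sub_Ioo ha hb ht)])

theorem z_le (h : γ.Prof L) (hv : ∀ t ∈ Ioo 0 L, 0 < γ.v t) {a b : ℝ} (ha : a ∈ Icc 0 L)
    (hb : b ∈ Icc 0 L) (hab : a ≤ b) : γ.z a ≤ γ.z b := by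
  rcases hab.eq_or_lt with h1 | h1
  · rw [h1]
  · exact (h.z_lt hv ha hb h1).le

theorem K2_nonneg (h : γ.Prof L) (hv : ∀ t ∈ Ioo 0 L, 0 < γ.v t) {t : ℝ} (ht : t ∈ Icc 0 L) :
    0 ≤ γ.K2 t := by
  have h0 : (0 : ℝ) ∈ Icc 0 L := ⟨le_rfl, h.hL.le⟩
  have hL : L ∈ Icc 0 L := ⟨h.hL.le, le_rfl⟩
  rcases le_total (γ.z t) 6 with hz | hz
  · have := mono_of_deriv ht.1 (h.cK2.mono (h.sub_Icc h0 ht))
      (fun s hs => (h.sol s (h.sub_Ioo h0 ht hs)).dK2) (fun s hs => by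
        have hs' := h.sub_Ioo h0 ht hs
        have h1 := h.z_le hv (Ioo_subset_Icc_self hs') ht hs.2.le
        have h2 : 0 ≤ γ.G s := by unfold G; linarith
        have := (h.sol s hs').w_pos
        positivity)
    have h3 : γ.K2 0 = 0 := by unfold K2; rw [h.w0]; ring
    linarith
  · have := anti_of_deriv ht.2 (h.cK2.mono (h.sub_Icc ht hL))
      (fun s hs => (h.sol s (h.sub_Ioo ht hL hs)).dK2) (fun s hs => by
        have hs' := h.sub_Ioo ht hL hs
        have h1 := h.z_le hv ht (Ioo_subset_Icc_self hs') hs.1.le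
        have h2 : γ.G s ≤ 0 := by unfold G; linarith
        have := (h.sol s hs').w_pos
        exact mul_nonpos_of_nonneg_of_nonpos (by positivity) h2)
    have h3 : γ.K2 L = 0 := by unfold K2; rw [h.wL]; ring
    linarith

theorem K1_nonpos (h : γ.Prof L) (hv : ∀ t ∈ Ioo 0 L, 0 < γ.v t) {t : ℝ} (ht : t ∈ Icc 0 L) :
    γ.K1 t ≤ 0 := by
  have h0 : (0 : ℝ) ∈ Icc 0 L := ⟨le_rfl, h.hL.le⟩
  have hL : L ∈ Icc 0 L := ⟨h.hL.le, le_rfl⟩
  rcases le_total (γ.z t) 6 with hz | hz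
  · have := anti_of_deriv ht.1 (h.cK1.mono (h.sub_Icc h0 ht))
      (fun s hs => (h.sol s (h.sub_Ioo h0 ht hs)).dK1) (fun s hs => by
        have hs' := h.sub_Ioo h0 ht hs
        have h1 := h.z_le hv (Ioo_subset_Icc_self hs') ht hs.2.le
        have h2 : 0 ≤ γ.G s := by unfold G; linarith
        have := (h.sol s hs').w_pos
        have : 0 ≤ γ.w s * γ.s s ^ 2 * γ.G s := by positivity
        linarith)
    have h3 : γ.K1 0 = 0 := by unfold K1; rw [h.w0]; ring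
    linarith
  · have := mono_of_deriv ht.2 (h.cK1.mono (h.sub_Icc ht hL))
      (fun s hs => (h.sol s (h.sub_Ioo ht hL hs)).dK1) (fun s hs => by
        have hs' := h.sub_Ioo ht hL hs
        have h1 := h.z_le hv ht (Ioo_subset_Icc_self hs') hs.1.le
        have h2 : γ.G s ≤ 0 := by unfold G; linarith
        have := (h.sol s hs').w_pos
        have : γ.w s * γ.s s ^ 2 * γ.G s ≤ 0 :=
          mul_nonpos_of_nonneg_of_nonpos (by positivity) h2
        linarith)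
    have h3 : γ.K1 L = 0 := by unfold K1; rw [h.wL]; ring
    linarith

theorem n2_nonneg (h : γ.Prof L) (hv : ∀ t ∈ Ioo 0 L, 0 < γ.v t) {t : ℝ} (ht : t ∈ Ioo 0 L) :
    0 ≤ γ.n2 t := by
  have h1 := h.K2_nonneg hv (Ioo_subset_Icc_self ht)
  unfold K2 at h1
  exact nonneg_of_mul_nonneg_right h1 (h.sol t ht).w_pos

theorem n1_nonpos (h : γ.Prof L) (hv : ∀ t ∈ Ioo 0 L, 0 < γ.v t) {t : ℝ} (ht : t ∈ Ioo 0 L) :
    γ.n1 t ≤ 0 := by
  have h1 := h.K1_nonpos hv (Ioo_subset_Icc_self ht)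
  unfold K1 at h1
  by_contra hn
  push Not at hn
  linarith [mul_pos (h.sol t ht).w_pos hn]

/-- vertical tangents -/
theorem vert (h : γ.Prof L) (hv : ∀ t ∈ Ioo 0 L, 0 < γ.v t) {t : ℝ} (ht : t ∈ Ioo 0 L)
    (hc : γ.c t = 0) : γ.s t = 1 ∧ 2 < γ.x t ^ 2 := by
  have hs := h.sol t ht
  have h1 := hv t ht
  have h2 := h.n2_nonneg hv ht
  have h3 := hs.cs
  unfold v at h1
  unfold n2 at h2
  rw [hc] at h1 h2 h3
  have hy := hs.py
  have h4 : 0 < γ.s t := by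
    by_contra hn
    push Not at hn
    nlinarith
  have h5 : γ.s t = 1 := by nlinarith
  refine ⟨h5, lt_of_le_of_ne ?_ (h.lineX ht hc).symm⟩
  rw [h5] at h2
  nlinarith

/-- the barrier lemma: if `f' < 0` at zeros then `f ≤ 0` persists -/
theorem stay_nonpos (_h : γ.Prof L) {f f' : ℝ → ℝ} (hc : ContinuousOn f (Icc 0 L))
    (hd : ∀ t ∈ Ioo 0 L, HasDerivAt f (f' t) t) (hz : ∀ t ∈ Ioo 0 L, f t = 0 → f' t < 0)
    {a : ℝ} (ha : a ∈ Ioo 0 L) (hfa : f a ≤ 0) : ∀ t ∈ Icc a L, f t ≤ 0 := by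
  intro t ht
  exact image_le_of_deriv_right_lt_deriv_boundary (f := f) (f' := f') (a := a) (b := L)
    (hc.mono (Icc_subset_Icc_left ha.1.le))
    (fun x hx => (hd x ⟨lt_of_lt_of_le ha.1 hx.1, hx.2⟩).hasDerivWithinAt)
    (B := fun _ => 0) (B' := fun _ => 0) hfa (fun x => hasDerivAt_const x 0)
    (fun x hx hx0 => hz x ⟨lt_of_lt_of_le ha.1 hx.1, hx.2⟩ hx0) ht

theorem s_pos (h : γ.Prof L) (hv : ∀ t ∈ Ioo 0 L, 0 < γ.v t) {t : ℝ} (ht : t ∈ Ioo 0 L) :
    0 < γ.s t := by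
  by_contra hn
  push Not at hn
  have key := h.stay_nonpos h.cs' (fun s hs => (h.sol s hs).ds) (fun s hs h0 => by
    have hS := h.sol s hs
    have h1 := hv s hs
    have h2 := h.n1_nonpos hv hs
    have h3 := hS.cs
    have h6 := h.lineY hs h0
    unfold v at h1
    unfold n1 at h2
    rw [h0] at h1 h2 h3
    have hx := hS.px
    have hy := hS.py
    have h4 : 0 < γ.c s := by
      by_contra hn
      push Not at hn
      nlinarith
    have h5 : γ.c s = 1 := by nlinarith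
    rw [h5] at h2
    have h7 : 2 < γ.y s ^ 2 := lt_of_le_of_ne (by nlinarith) h6.symm
    rw [h5, hS.k_eq]
    unfold n0
    rw [h0, h5, one_mul]
    apply div_neg_of_neg_of_pos
    · nlinarith
    · positivity) ht hn
  have hc : ∀ s ∈ Ioo t L, 0 ≤ γ.c s := by
    intro s hs
    have hs' : s ∈ Ioo 0 L := ⟨ht.1.trans hs.1, hs.2⟩
    have h1 := hv s hs'
    have h2 := key s (Ioo_subset_Icc_self hs)
    have hx := (h.sol s hs').px
    have hy := (h.sol s hs').py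
    unfold v at h1
    by_contra hn
    push Not at hn
    nlinarith
  have hcl : L ∈ closure (Ioo t L) := by
    rw [closure_Ioo ht.2.ne]; exact ⟨ht.2.le, le_rfl⟩
  have := ContinuousWithinAt.closure_le hcl (f := fun _ => (0 : ℝ)) (g := γ.c)
    continuousWithinAt_const
    ((h.cc L ⟨h.hL.le, le_rfl⟩).mono (fun s hs => ⟨(ht.1.trans hs.1).le, hs.2.le⟩)) hc
  rw [h.cL] at this
  norm_num at this

theorem c_stay (h : γ.Prof L) (hv : ∀ t ∈ Ioo 0 L, 0 < γ.v t) {a : ℝ} (ha : a ∈ Ioo 0 L)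
    (hc : γ.c a ≤ 0) : ∀ t ∈ Icc a L, γ.c t ≤ 0 :=
  h.stay_nonpos h.cc (fun s hs => (h.sol s hs).dc) (fun s hs h0 => by
    obtain ⟨h1, h2⟩ := h.vert hv hs h0
    have hS := h.sol s hs
    have hx := hS.px
    have hy := hS.py
    rw [hS.k_eq]
    unfold n0
    rw [h0, h1]
    have : 0 < ((γ.x s ^ 2 / 2 - 1) * γ.y s * 1 - (γ.y s ^ 2 / 2 - 1) * γ.x s * 0)
        / (γ.x s * γ.y s) := by
      apply div_pos
      · nlinarith
      · positivity
    linarith) ha hc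

end Crv.Prof

end Pool.Agent.MP_48470b_gt

end
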