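import Pool.Agent.MP_48470b_gt.Defs
import Pool.Agent.Mg.F48470b.Ge66c69

section

/-! The profile set, local data of a plane curve, unit speed arcs. -/

open Set
open scoped Topology ContDiff

noncomputable section

namespace Pool.Agent.MP_48470b_gt

def io (z : ℝ × ℝ) : E4 := !₂[z.1, 0, z.2, 0]

def Gam (S : Set E4) : Set (ℝ × ℝ) := {z | io z ∈ S}

/-- on `V` the set `Γ` is the zero set of `G`, and `W` is a unit tangent field along it -/
structure Loc (Γ V : Set (ℝ × ℝ)) (G : ℝ × ℝ → ℝ) (W : ℝ × ℝ → ℝ × ℝ) : Prop where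
  opn : IsOpen V
  cG : ContDiffOn ℝ 1 G V
  cW : ContDiffOn ℝ 1 W V
  mem : ∀ z ∈ V, z ∈ Γ ↔ G z = 0
  tan : ∀ z ∈ V, fderiv ℝ G z (W z) = 0
  nor : ∀ z ∈ V, z ∈ Γ → fderiv ℝ G z ((W z).2, -(W z).1) ≠ 0
  unit : ∀ z ∈ V, z ∈ Γ → (W z).1 ^ 2 + (W z).2 ^ 2 = 1
  curv : ∀ z ∈ V, z ∈ Γ → 0 < z.1 → 0 < z.2 →
    fderiv ℝ W z (W z) = kap z.1 z.2 (W z).1 (W z).2 • (-(W z).2, (W z).1)
  ax1 : ∀ z ∈ V, z ∈ Γ → z.1 = 0 → (W z).2 = 0
  ax2 : ∀ z ∈ V, z ∈ Γ → z.2 = 0 → (W z).1 = 0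

def LocAll (Γ : Set (ℝ × ℝ)) : Prop := ∀ z ∈ Γ, ∃ V G W, z ∈ V ∧ Loc Γ V G W

/-- a unit speed arc in `Γ` with continuous tangent -/
structure IsArc (Γ : Set (ℝ × ℝ)) (I : Set ℝ) (γ T : ℝ → ℝ × ℝ) : Prop where
  mem : ∀ t ∈ I, γ t ∈ Γ
  der : ∀ t ∈ I, HasDerivAt γ (T t) t
  unit : ∀ t ∈ I, (T t).1 ^ 2 + (T t).2 ^ 2 = 1
  cont : ∀ t ∈ I, ContinuousAt T t

end Pool.Agent.MP_48470b_gt

end
end

section

open Set
open scoped Topology ContDiff RealInnerProductSpace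

noncomputable section

namespace Pool.Agent.MP_48470b_gt

def ioL : ℝ × ℝ →L[ℝ] E4 := LinearMap.toContinuousLinearMap
  { toFun := io
    map_add' := fun a b => by ext i; fin_cases i <;> simp [io]
    map_smul' := fun a b => by ext i; fin_cases i <;> simp [io] }

lemma ioL_apply (z : ℝ × ℝ) : ioL z = io z := rfl

def rotL (α β : ℝ) : E4 →L[ℝ] E4 := LinearMap.toContinuousLinearMap
  { toFun := rot α β
    map_add' := fun a b => by ext i; fin_cases i <;> simp [rot] <;> ring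
    map_smul' := fun a b => by ext i; fin_cases i <;> simp [rot] <;> ring }

lemma rotL_apply (α β : ℝ) (p : E4) : rotL α β p = rot α β p := rfl

lemma RedC_inner (a b : E4) : ⟪a, b⟫ = a 0 * b 0 + a 1 * b 1 + a 2 * b 2 + a 3 * b 3 := by
  simp [PiLp.inner_apply, Fin.sum_univ_four, mul_comm]

lemma RedC_d1 (q : E4) : HasDerivAt (fun θ => rot θ 0 q) !₂[-q 1, q 0, 0, 0] 0 := by
  have h := (((Real.hasDerivAt_cos 0).smul_const (!₂[q 0, q 1, 0, 0] : E4)).add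
    ((Real.hasDerivAt_sin 0).smul_const (!₂[-q 1, q 0, 0, 0] : E4))).add_const
    (!₂[0, 0, q 2, q 3] : E4)
  refine (h.congr_deriv (by simp)).congr_of_eventuallyEq (.of_forall fun θ => ?_)
  ext i; fin_cases i <;> simp [rot] <;> ring

lemma RedC_d2 (q : E4) : HasDerivAt (fun θ => rot 0 θ q) !₂[0, 0, -q 3, q 2] 0 := by
  have h := (((Real.hasDerivAt_cos 0).smul_const (!₂[0, 0, q 2, q 3] : E4)).add
    ((Real.hasDerivAt_sin 0).smul_const (!₂[0, 0, -q 3, q 2] : E4))).add_const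
    (!₂[q 0, q 1, 0, 0] : E4)
  refine (h.congr_deriv (by simp)).congr_of_eventuallyEq (.of_forall fun θ => ?_)
  ext i; fin_cases i <;> simp [rot] <;> ring

lemma RedC_rot0 (q : E4) : rot 0 0 q = q := by ext i; fin_cases i <;> simp [rot]

lemma RedC_curve {S : Set E4} {φ : E4 → ℝ} {φ' : E4 →L[ℝ] ℝ} {q v : E4} {b : ℝ → E4}
    (hφ : HasFDerivAt φ φ' q) (h0 : ∀ᶠ p in 𝓝 q, p ∈ S → φ p = 0) (hb : HasDerivAt b v 0)
    (b0 : b 0 = q) (hS : ∀ t, b t ∈ S) : φ' v = 0 := by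
  have h1 : HasDerivAt (fun t => φ (b t)) (φ' v) 0 := (b0 ▸ hφ).comp_hasDerivAt 0 hb
  have h2 : (fun t => φ (b t)) =ᶠ[𝓝 0] fun _ => 0 := by
    have : Filter.Tendsto b (𝓝 0) (𝓝 q) := b0 ▸ hb.continuousAt.tendsto
    filter_upwards [this.eventually h0] with t ht using ht (hS t)
  exact h1.unique ((hasDerivAt_const 0 (0:ℝ)).congr_of_eventuallyEq h2)

variable {S U : Set E4} {F : E4 → ℝ}

lemma RedC_grad (F : E4 → ℝ) (q v : E4) : fderiv ℝ F q v = ⟪gradient F q, v⟫ := by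
  rw [gradient, InnerProductSpace.toDual_symm_apply]

lemma RedC_nu {q : E4} (h : gradient F q ≠ 0) (v : E4) :
    fderiv ℝ F q v = ‖gradient F q‖ * ⟪nu F q, v⟫ := by
  rw [RedC_grad, nu, real_inner_smul_left, ← mul_assoc, mul_inv_cancel₀ (norm_ne_zero_iff.2 h),
    one_mul]

lemma RedC_unit {q : E4} (h : gradient F q ≠ 0) : ⟪nu F q, nu F q⟫ = 1 := by
  rw [real_inner_self_eq_norm_sq, nu, norm_smul, norm_inv, norm_norm,
    inv_mul_cancel₀ (norm_ne_zero_iff.2 h), one_pow]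

lemma RedC_smooth {q : E4} (hF : ContDiffAt ℝ ∞ F q) (h : gradient F q ≠ 0) :
    ContDiffAt ℝ 1 (nu F) q := by
  have h1 : ContDiffAt ℝ 1 (fderiv ℝ F) q := hF.fderiv_right (by norm_cast)
  have h2 : ContDiffAt ℝ 1 (gradient F) q :=
    (InnerProductSpace.toDual ℝ E4).symm.toContinuousLinearEquiv.contDiff.contDiffAt.comp q h1
  exact ((h2.norm ℝ h).inv (norm_ne_zero_iff.2 h)).smul h2

/-- the normal at a point fixed by a rotation -/
lemma RedC_fix (hR : ∀ α β, ∀ p ∈ S, rot α β p ∈ S) {q : E4} (hF : ContDiffAt ℝ ∞ F q)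
    (hm : ∀ᶠ p in 𝓝 q, p ∈ S ↔ F p = 0) (hq : q ∈ S) (h : gradient F q ≠ 0) {α β : ℝ}
    (hf : rot α β q = q) :
    ∃ a b : ℝ, (a, b) ≠ 0 ∧ ∀ v, a * ⟪nu F q, v⟫ + b * ⟪nu F q, rot α β v⟫ = 0 := by
  have h1 := hF.hasStrictFDerivAt (by simp)
  have h2 : HasStrictFDerivAt (fun p => F (rotL α β p)) ((fderiv ℝ F q).comp (rotL α β)) q :=
    HasStrictFDerivAt.comp q (g := F) (by rw [rotL_apply, hf]; exact h1)
      (rotL α β).hasStrictFDerivAt
  have F0 : F q = 0 := hm.self_of_nhds.1 hq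
  have ht : Filter.Tendsto (rotL α β) (𝓝 q) (𝓝 q) := by
    have := (rotL α β).continuous.tendsto q
    rwa [rotL_apply, hf] at this
  have he : IsLocalExtrOn (fun p => F (rotL α β p)) {x | F x = F q} q := by
    refine .inl ?_
    filter_upwards [self_mem_nhdsWithin, mem_nhdsWithin_of_mem_nhds hm,
      mem_nhdsWithin_of_mem_nhds (ht.eventually hm)] with p p1 p2 p3
    have : F (rotL α β p) = 0 := p3.1 (hR _ _ _ (p2.2 (p1.trans F0)))
    rw [this, rotL_apply, hf, F0]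
  obtain ⟨a, b, hab, e⟩ := he.exists_multipliers_of_hasStrictFDerivAt_1d h1 h2
  refine ⟨a, b, hab, fun v => ?_⟩
  have := congrArg (fun L : E4 →L[ℝ] ℝ => L v) e
  simp only [add_apply, smul_apply, smul_eq_mul,
    ContinuousLinearMap.comp_apply, rotL_apply, zero_apply, RedC_nu h] at this
  refine mul_left_cancel₀ (norm_ne_zero_iff.2 h) ?_
  linear_combination this

lemma RedC_two {a b u v : ℝ} (h : (a, b) ≠ 0) (h1 : a * u + b * v = 0) (h2 : a * v - b * u = 0) :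
    u = 0 ∧ v = 0 := by
  have p : a ^ 2 + b ^ 2 ≠ 0 := fun e => h (Prod.ext (by simp; nlinarith) (by simp; nlinarith))
  exact ⟨mul_left_cancel₀ p (by linear_combination a * h1 - b * h2),
    mul_left_cancel₀ p (by linear_combination b * h1 + a * h2)⟩

theorem locAll_Gam {S : Set E4} (hS : IsShrinker S) (hR : ∀ α β, ∀ p ∈ S, rot α β p ∈ S) :
    LocAll (Gam S) := by
  intro z0 hz0
  obtain ⟨U, F, hU, hp, hF, hg, hm, hH⟩ := hS _ hz0
  have sF : ∀ q ∈ U, ContDiffAt ℝ ∞ F q := fun q hq => hF.contDiffAt (hU.mem_nhds hq)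
  have sN : ∀ q ∈ U, ContDiffAt ℝ 1 (nu F) q := fun q hq => RedC_smooth (sF q hq) (hg q hq)
  have dF : ∀ q ∈ U, HasFDerivAt F (fderiv ℝ F q) q := fun q hq =>
    ((sF q hq).differentiableAt (by simp)).hasFDerivAt
  have dN : ∀ q ∈ U, HasFDerivAt (nu F) (fderiv ℝ (nu F) q) q := fun q hq =>
    ((sN q hq).differentiableAt (by simp)).hasFDerivAt
  have dNi : ∀ q ∈ U, ∀ i, HasFDerivAt (fun p => nu F p i)
      ((EuclideanSpace.proj i).comp (fderiv ℝ (nu F) q)) q := fun q hq i =>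
    (EuclideanSpace.proj (𝕜 := ℝ) i).hasFDerivAt.comp q (dN q hq)
  have dpi : ∀ (q : E4) (i : Fin 4), HasFDerivAt (fun p : E4 => p i)
      (EuclideanSpace.proj (𝕜 := ℝ) i) q := fun q i => (EuclideanSpace.proj (𝕜 := ℝ) i).hasFDerivAt
  have ev : ∀ q ∈ U, ∀ᶠ p in 𝓝 q, p ∈ S ↔ F p = 0 := fun q hq => by
    filter_upwards [hU.mem_nhds hq] with p hp using hm p hp
  have nz : ∀ q ∈ U, ‖gradient F q‖ ≠ 0 := fun q hq => norm_ne_zero_iff.2 (hg q hq)
  have T1 : ∀ q ∈ U, q ∈ S → nu F q 1 * q 0 - nu F q 0 * q 1 = 0 := fun q hq hs => by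
    have := RedC_curve (dF q hq) ((ev q hq).mono fun p h => h.1) (RedC_d1 q) (RedC_rot0 q)
      fun t => hR _ _ _ hs
    rw [RedC_nu (hg q hq), mul_eq_zero, RedC_inner] at this
    have := this.resolve_left (nz q hq)
    simp at this
    linarith
  have T2 : ∀ q ∈ U, q ∈ S → nu F q 3 * q 2 - nu F q 2 * q 3 = 0 := fun q hq hs => by
    have := RedC_curve (dF q hq) ((ev q hq).mono fun p h => h.1) (RedC_d2 q) (RedC_rot0 q)
      fun t => hR _ _ _ hs
    rw [RedC_nu (hg q hq), mul_eq_zero, RedC_inner] at this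
    have := this.resolve_left (nz q hq)
    simp at this
    linarith
  have A1 : ∀ z, io z ∈ U → io z ∈ S → z.1 = 0 → nu F (io z) 0 = 0 ∧ nu F (io z) 1 = 0 := by
    intro z hq hs e
    obtain ⟨a, b, hab, k⟩ := RedC_fix hR (sF _ hq) (ev _ hq) hs (hg _ hq) (α := Real.pi / 2) (β := 0)
      (by ext i; fin_cases i <;> simp [rot, io, e])
    have k1 := k !₂[1, 0, 0, 0]
    have k2 := k !₂[0, 1, 0, 0]
    simp [RedC_inner, rot] at k1 k2
    exact RedC_two hab (by linarith) (by linarith)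
  have A2 : ∀ z, io z ∈ U → io z ∈ S → z.2 = 0 → nu F (io z) 2 = 0 ∧ nu F (io z) 3 = 0 := by
    intro z hq hs e
    obtain ⟨a, b, hab, k⟩ := RedC_fix hR (sF _ hq) (ev _ hq) hs (hg _ hq) (α := 0) (β := Real.pi / 2)
      (by ext i; fin_cases i <;> simp [rot, io, e])
    have k1 := k !₂[0, 0, 1, 0]
    have k2 := k !₂[0, 0, 0, 1]
    simp [RedC_inner, rot] at k1 k2
    exact RedC_two hab (by linarith) (by linarith)
  have N1 : ∀ z, io z ∈ U → io z ∈ S → nu F (io z) 1 = 0 := fun z hq hs => by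
    by_cases e : z.1 = 0
    · exact (A1 z hq hs e).2
    · simpa [io, e] using T1 _ hq hs
  have N3 : ∀ z, io z ∈ U → io z ∈ S → nu F (io z) 3 = 0 := fun z hq hs => by
    by_cases e : z.2 = 0
    · exact (A2 z hq hs e).2
    · simpa [io, e] using T2 _ hq hs
  have un : ∀ z, io z ∈ U → io z ∈ S → nu F (io z) 2 ^ 2 + nu F (io z) 0 ^ 2 = 1 := fun z hq hs => by
    have := RedC_unit (hg _ hq)
    rw [RedC_inner, N1 z hq hs, N3 z hq hs] at this
    linarith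
  have dG : ∀ z, io z ∈ U → ∀ w, fderiv ℝ (fun z => F (io z)) z w =
      ‖gradient F (io z)‖ * (nu F (io z) 0 * w.1 + nu F (io z) 2 * w.2) := fun z hq w => by
    have : HasFDerivAt (fun z => F (io z)) ((fderiv ℝ F (io z)).comp ioL) z :=
      HasFDerivAt.comp z (f := ioL) (dF _ hq) ioL.hasFDerivAt
    rw [this.fderiv, ContinuousLinearMap.comp_apply, RedC_nu (hg _ hq), RedC_inner, ioL_apply]
    simp [io]
  have sNi : ∀ z, io z ∈ U → ∀ i, ContDiffAt ℝ 1 (fun z => nu F (io z) i) z := fun z hq i =>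
    (EuclideanSpace.proj (𝕜 := ℝ) i).contDiff.contDiffAt.comp z
      (ContDiffAt.comp z (f := ioL) (sN _ hq) ioL.contDiff.contDiffAt)
  refine ⟨io ⁻¹' U, fun z => F (io z), fun z => (-nu F (io z) 2, nu F (io z) 0), hp,
    hU.preimage ioL.continuous, fun z hz => ?_, fun z hz => ?_, fun z hz => hm _ hz,
    fun z hz => ?_, fun z hz hs => ?_, fun z hz hs => ?_, fun z hz hs x0 y0 => ?_,
    fun z hz hs e => (A1 z hz hs e).1, fun z hz hs e => by simp [(A2 z hz hs e).1]⟩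
  · exact (ContDiffAt.comp z (f := ioL) ((sF _ hz).of_le (by exact_mod_cast le_top))
      ioL.contDiff.contDiffAt).contDiffWithinAt
  · exact ((sNi z hz 2).neg.prodMk (sNi z hz 0)).contDiffWithinAt
  · rw [dG z hz]; ring
  · rw [dG z hz]
    refine mul_ne_zero (nz _ hz) ?_
    have := un z hz hs
    simp only [neg_neg]
    nlinarith
  · simpa using un z hz hs
  · have hz : io z ∈ U := hz
    have hs : io z ∈ S := hs
    set M := fderiv ℝ (nu F) (io z) with hM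
    have dW : HasFDerivAt (fun z => (-nu F (io z) 2, nu F (io z) 0))
        ((-(((EuclideanSpace.proj 2).comp M).comp ioL)).prod
          (((EuclideanSpace.proj 0).comp M).comp ioL)) z :=
      (HasFDerivAt.comp z (f := ioL) (dNi _ hz 2) ioL.hasFDerivAt).neg.prodMk
        (HasFDerivAt.comp z (f := ioL) (dNi _ hz 0) ioL.hasFDerivAt)
    have orth : ∀ v, ⟪M v, nu F (io z)⟫ = 0 := fun v => by
      have h1 := (dN _ hz).inner ℝ (dN _ hz)
      have h2 : (fun p => ⟪nu F p, nu F p⟫) =ᶠ[𝓝 (io z)] fun _ => (1:ℝ) := by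
        filter_upwards [hU.mem_nhds hz] with p hp using RedC_unit (hg p hp)
      have h3 := congrArg (fun L : E4 →L[ℝ] ℝ => L v)
        (h1.unique ((hasFDerivAt_const (1:ℝ) (io z)).congr_of_eventuallyEq h2))
      simp only [ContinuousLinearMap.comp_apply, ContinuousLinearMap.prod_apply,
        fderivInnerCLM_apply, zero_apply, ← hM] at h3
      rw [real_inner_comm] at h3
      linarith
    have m1 := RedC_curve (((dNi _ hz 1).mul (dpi _ 0)).sub ((dNi _ hz 0).mul (dpi _ 1)))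
      (by filter_upwards [hU.mem_nhds hz] with p hp using T1 p hp) (RedC_d1 _) (RedC_rot0 _)
      fun t => hR _ _ _ hs
    have m2 := RedC_curve (((dNi _ hz 3).mul (dpi _ 2)).sub ((dNi _ hz 2).mul (dpi _ 3)))
      (by filter_upwards [hU.mem_nhds hz] with p hp using T2 p hp) (RedC_d2 _) (RedC_rot0 _)
      fun t => hR _ _ _ hs
    have e1 : (!₂[-io z 1, io z 0, 0, 0] : E4) = z.1 • EuclideanSpace.single 1 1 := by
      ext i; fin_cases i <;> simp [io]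
    have e2 : (!₂[0, 0, -io z 3, io z 2] : E4) = z.2 • EuclideanSpace.single 3 1 := by
      ext i; fin_cases i <;> simp [io]
    rw [e1] at m1
    rw [e2] at m2
    have i0 : io z 0 = z.1 := by simp [io]
    have i1 : io z 1 = 0 := by simp [io]
    have i2 : io z 2 = z.2 := by simp [io]
    have i3 : io z 3 = 0 := by simp [io]
    have H := hH _ hz hs
    have n1 := N1 z hz hs
    have n3 := N3 z hz hs
    set s := nu F (io z) 0 with hs0
    set c := nu F (io z) 2 with hc0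
    have eT : io (-c, s) = (-c) • EuclideanSpace.single 0 1 + s • EuclideanSpace.single 2 1 := by
      ext i; fin_cases i <;> simp [io]
    have o0 := orth (EuclideanSpace.single 0 1)
    have o2 := orth (EuclideanSpace.single 2 1)
    rw [divT, ← hM, orth, Fin.sum_univ_four] at H
    simp [RedC_inner, n1, n3, i0, i1, i2, i3, ← hM, ← hs0, ← hc0] at o0 o2 H m1 m2
    rw [dW.fderiv]
    simp only [ContinuousLinearMap.prod_apply, neg_apply,
      ContinuousLinearMap.comp_apply, ioL_apply, eT, map_add, map_smul]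
    simp [kap]
    have k1 : M (EuclideanSpace.single 1 1) 1 = s * z.1⁻¹ := by
      have := m1.resolve_left x0.ne'
      field_simp
      linarith
    have k2 : M (EuclideanSpace.single 3 1) 3 = c * z.2⁻¹ := by
      have := m2.resolve_left y0.ne'
      field_simp
      linarith
    rw [k1, k2] at H
    exact ⟨by linear_combination o0 - s * H, by linear_combination o2 - c * H⟩

end Pool.Agent.MP_48470b_gt

end
end

section

open Set
open scoped Topology ContDiff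

noncomputable section

namespace Pool.Agent.MP_48470b_gt

theorem RedD_polar (x y : ℝ) :
    ∃ a, x = Real.cos a * √(x ^ 2 + y ^ 2) ∧ y = Real.sin a * √(x ^ 2 + y ^ 2) := by
  have e : ‖(⟨x, y⟩ : ℂ)‖ = √(x ^ 2 + y ^ 2) := Complex.norm_eq_sqrt_sq_add_sq _
  refine ⟨Complex.arg ⟨x, y⟩, ?_, ?_⟩
  · rw [← e, mul_comm, Complex.norm_mul_cos_arg]
  · rw [← e, mul_comm, Complex.norm_mul_sin_arg]

theorem RedD_inv (a b : ℝ) (p : E4) : rot (-a) (-b) (rot a b p) = p := by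
  have h1 := Real.sin_sq_add_cos_sq a
  have h2 := Real.sin_sq_add_cos_sq b
  ext i
  fin_cases i <;> simp [rot]
  · linear_combination (p 0) * h1
  · linear_combination (p 1) * h1
  · linear_combination (p 2) * h2
  · linear_combination (p 3) * h2

theorem mem_iff_io {S : Set E4} (hR : ∀ α β, ∀ p ∈ S, rot α β p ∈ S) (p : E4) :
    p ∈ S ↔ (√(p 0 ^ 2 + p 1 ^ 2), √(p 2 ^ 2 + p 3 ^ 2)) ∈ Gam S := by
  obtain ⟨a, a1, a2⟩ := RedD_polar (p 0) (p 1)
  obtain ⟨b, b1, b2⟩ := RedD_polar (p 2) (p 3)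
  have e : rot a b (io (√(p 0 ^ 2 + p 1 ^ 2), √(p 2 ^ 2 + p 3 ^ 2))) = p := by
    ext i
    fin_cases i <;> simp [rot, io]
    · exact a1.symm
    · exact a2.symm
    · exact b1.symm
    · exact b2.symm
  constructor
  · intro h
    have := hR (-a) (-b) p h
    rw [← e, RedD_inv] at this
    exact this
  · intro h
    rw [← e]
    exact hR a b _ h

theorem RedD_cont : Continuous io := by
  unfold io
  refine (PiLp.continuous_toLp 2 _).comp (continuous_pi fun i => ?_)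
  fin_cases i <;> simp <;> fun_prop

theorem isCompact_Gam {S : Set E4} (hS : IsCompact S) : IsCompact (Gam S) := by
  have h : Function.LeftInverse (fun p : E4 => (p 0, p 2)) io := fun z => by simp [io]
  exact (h.isClosedEmbedding (by fun_prop) RedD_cont).isCompact_preimage hS

theorem RedD_wind {S : Set E4} (h : S ≃ₜ Metric.sphere (0 : E4) 1) (g : E4 → ℂ) (hg : Continuous g)
    (hne : ∀ p ∈ S, g p ≠ 0) (c : ℝ → E4) (hc : Continuous c) (hm : ∀ t, c t ∈ S) (q : E4)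
    (hq : q ∈ S) (hd : ∀ t, c t ≠ q) (a : ℂ) (he : ∀ t : ℝ, g (c t) = a * Complex.exp (t * Complex.I))
    (hp : c (2 * Real.pi) = c 0) : False := by
  have : Fact (Module.finrank ℝ E4 = 3 + 1) := ⟨finrank_euclideanSpace_fin⟩
  let e := stereographic' 3 (h ⟨q, hq⟩)
  have c1 : Continuous e.symm := continuousOn_univ.1 (by
    have := e.continuousOn_symm
    rwa [stereographic'_target] at this)
  let f : C(EuclideanSpace ℝ (Fin 3), {z : ℂ // z ≠ 0}) :=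
    ⟨fun y => ⟨g (h.symm (e.symm y)), hne _ (h.symm (e.symm y)).2⟩, by fun_prop⟩
  obtain ⟨F, ⟨-, hF⟩, -⟩ := Complex.isCoveringMap_exp.existsUnique_continuousMap_lifts f 0
    (Complex.log (f 0)) (Subtype.ext (Complex.exp_log (f 0).2))
  have hs : ∀ t, h ⟨c t, hm t⟩ ∈ e.source := fun t => by
    rw [stereographic'_source]
    exact fun k => hd t (congrArg Subtype.val (h.injective k))
  have c2 : Continuous fun t => e (h ⟨c t, hm t⟩) :=
    e.continuousOn.comp_continuous (by fun_prop) hs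
  have k1 : ∀ t : ℝ, Complex.exp (F (e (h ⟨c t, hm t⟩)) - t * Complex.I) = a := fun t => by
    have := congrArg Subtype.val (congrFun hF (e (h ⟨c t, hm t⟩)))
    simp only [Function.comp, f, ContinuousMap.coe_mk, e.left_inv (hs t),
      Homeomorph.symm_apply_apply, he] at this
    rw [Complex.exp_sub, this, mul_div_cancel_right₀ _ (Complex.exp_ne_zero _)]
  have k2 := Complex.isCoveringMap_exp.const_of_comp
    (g := fun t : ℝ => F (e (h ⟨c t, hm t⟩)) - t * Complex.I)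
    ((F.continuous.comp c2).sub (by fun_prop))
    (fun s t => Subtype.ext ((k1 s).trans (k1 t).symm)) (2 * Real.pi) 0
  simp only [hp, sub_right_inj] at k2
  simp [Real.pi_ne_zero] at k2

theorem RedD_rot (p : E4) (a b : ℝ → ℝ) (ha : Continuous a) (hb : Continuous b) :
    Continuous fun t => rot (a t) (b t) p := by
  unfold rot
  refine (PiLp.continuous_toLp 2 _).comp (continuous_pi fun i => ?_)
  fin_cases i <;> simp <;> fun_prop

theorem meets_planes {S : Set E4} (hT : Nonempty (S ≃ₜ Metric.sphere (0 : E4) 1))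
    (hR : ∀ α β, ∀ p ∈ S, rot α β p ∈ S) (hp : ∃ z ∈ Gam S, z.1 ≠ 0 ∧ z.2 ≠ 0) :
    (∃ p ∈ S, p 0 = 0 ∧ p 1 = 0) ∧ ∃ p ∈ S, p 2 = 0 ∧ p 3 = 0 := by
  obtain ⟨h⟩ := hT
  obtain ⟨z, hz, z1, z2⟩ := hp
  constructor
  · by_contra! hc
    refine RedD_wind h (fun p => p 0 + p 1 * Complex.I) (by fun_prop) (fun p hp k => ?_)
      (fun t => rot t 0 (io z)) (RedD_rot _ _ _ continuous_id continuous_const)
      (fun t => hR _ _ _ hz) _ (hR 0 Real.pi _ hz) (fun t k => ?_) z.1 (fun t => ?_) ?_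
    · exact hc p hp (by simpa using congrArg Complex.re k) (by simpa using congrArg Complex.im k)
    · have := congrArg (fun p : E4 => p 2) k
      simp [rot, io] at this
      exact z2 (by linarith)
    · rw [Complex.exp_mul_I]
      simp [rot, io]
      ring
    · simp [rot]
  · by_contra! hc
    refine RedD_wind h (fun p => p 2 + p 3 * Complex.I) (by fun_prop) (fun p hp k => ?_)
      (fun t => rot 0 t (io z)) (RedD_rot _ _ _ continuous_const continuous_id)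
      (fun t => hR _ _ _ hz) _ (hR Real.pi 0 _ hz) (fun t k => ?_) z.2 (fun t => ?_) ?_
    · exact hc p hp (by simpa using congrArg Complex.re k) (by simpa using congrArg Complex.im k)
    · have := congrArg (fun p : E4 => p 0) k
      simp [rot, io] at this
      exact z1 (by linarith)
    · rw [Complex.exp_mul_I]
      simp [rot, io]
      ring
    · simp [rot]

end Pool.Agent.MP_48470b_gt

end
end

section

open Set
open scoped Topology ContDiff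

noncomputable section

namespace Pool.Agent.MP_48470b_gt

variable {Γ V : Set (ℝ × ℝ)} {G : ℝ × ℝ → ℝ} {W : ℝ × ℝ → ℝ × ℝ} {I J : Set ℝ}
  {γ T α τ : ℝ → ℝ × ℝ}

theorem Loc.neg (h : Loc Γ V G W) : Loc Γ V G (fun z => -W z) where
  opn := h.opn
  cG := h.cG
  cW := h.cW.neg
  mem := h.mem
  tan z hz := by rw [map_neg, h.tan z hz, neg_zero]
  nor z hz hz' := by
    have e : ((-W z).2, -(-W z).1) = -((W z).2, -(W z).1) := by ext <;> simp
    rw [e, map_neg]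
    exact neg_ne_zero.2 (h.nor z hz hz')
  unit z hz hz' := by simpa using h.unit z hz hz'
  curv z hz hz' h1 h2 := by
    rw [fderiv_fun_neg, _root_.neg_apply, map_neg, neg_neg, h.curv z hz hz' h1 h2]
    ext <;> simp [kap] <;> ring
  ax1 z hz hz' h1 := by simp [h.ax1 z hz hz' h1]
  ax2 z hz hz' h1 := by simp [h.ax2 z hz hz' h1]

theorem IsArc.mono (h : IsArc Γ I γ T) (hJ : J ⊆ I) : IsArc Γ J γ T :=
  ⟨fun t ht => h.mem t (hJ ht), fun t ht => h.der t (hJ ht), fun t ht => h.unit t (hJ ht),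
    fun t ht => h.cont t (hJ ht)⟩

theorem IsArc.shift (h : IsArc Γ I γ T) (a : ℝ) {σ : ℝ} (hσ : σ = 1 ∨ σ = -1) :
    IsArc Γ {u | a + σ * u ∈ I} (fun u => γ (a + σ * u)) (fun u => σ • T (a + σ * u)) := by
  refine ⟨fun t ht => h.mem _ ht, fun t ht => ?_, fun t ht => ?_, fun t ht => ?_⟩
  · have h1 : HasDerivAt (fun u => a + σ * u) σ t := by
      simpa using ((hasDerivAt_id t).const_mul σ).const_add a
    exact (h.der _ ht).scomp t h1
  · have := h.unit _ ht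
    rcases hσ with rfl | rfl <;> simpa using this
  · exact (ContinuousAt.comp (f := fun u => a + σ * u) (h.cont _ ht) (by fun_prop)).const_smul σ

theorem RedA_pm (hL : Loc Γ V G W) (h : IsArc Γ I γ T) (hI : IsOpen I) {t : ℝ} (ht : t ∈ I)
    (hV : γ t ∈ V) : T t = W (γ t) ∨ T t = -W (γ t) := by
  have hG : HasFDerivAt G (fderiv ℝ G (γ t)) (γ t) :=
    ((hL.cG.contDiffAt (hL.opn.mem_nhds hV)).differentiableAt one_ne_zero).hasFDerivAt
  have h1 : HasDerivAt (G ∘ γ) (fderiv ℝ G (γ t) (T t)) t := hG.comp_hasDerivAt t (h.der t ht)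
  have h2 : G ∘ γ =ᶠ[𝓝 t] fun _ => 0 := by
    filter_upwards [hI.mem_nhds ht, (h.der t ht).continuousAt.preimage_mem_nhds
      (hL.opn.mem_nhds hV)] with u hu hu'
    exact (hL.mem _ hu').1 (h.mem u hu)
  have h3 : fderiv ℝ G (γ t) (T t) = 0 :=
    h1.unique ((hasDerivAt_const t (0 : ℝ)).congr_of_eventuallyEq h2)
  have h4 := hL.tan _ hV
  have h5 := hL.nor _ hV (h.mem t ht)
  have h6 := hL.unit _ hV (h.mem t ht)
  have h7 := h.unit t ht
  generalize fderiv ℝ G (γ t) = L at *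
  generalize W (γ t) = w at *
  generalize T t = v at *
  obtain ⟨c, s⟩ := w
  obtain ⟨p, q⟩ := v
  simp only at h5 h6 h7
  have e : ((p, q) : ℝ × ℝ) = (p * c + q * s) • (c, s) + (p * s - q * c) • (s, -c) := by
    ext
    · simp only [Prod.smul_mk, smul_eq_mul, Prod.mk_add_mk]; linear_combination (-p) * h6
    · simp only [Prod.smul_mk, smul_eq_mul, Prod.mk_add_mk]; linear_combination (-q) * h6
  have hb : p * s - q * c = 0 := by
    rw [e, map_add, map_smul, map_smul, h4, smul_zero, zero_add, smul_eq_mul] at h3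
    exact (mul_eq_zero.1 h3).resolve_right h5
  rw [hb, zero_smul, add_zero] at e
  have ha : (p * c + q * s - 1) * (p * c + q * s + 1) = 0 := by
    linear_combination (p ^ 2 + q ^ 2) * h6 + h7 - (p * s - q * c) * hb
  rcases mul_eq_zero.1 ha with h' | h'
  · left; rw [e, sub_eq_zero.1 h', one_smul]
  · right; rw [e, eq_neg_of_add_eq_zero_left h', neg_one_smul]

theorem RedA_loc (hL : Loc Γ V G W) (h : IsArc Γ I γ T) (hI : IsOpen I) {t : ℝ} (ht : t ∈ I)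
    (hV : γ t ∈ V) (he : T t = W (γ t)) : ∀ᶠ u in 𝓝 t, T u = W (γ u) := by
  have hγ := (h.der t ht).continuousAt
  have hW : ContinuousAt (fun u => W (γ u)) t :=
    ContinuousAt.comp (hL.cW.contDiffAt (hL.opn.mem_nhds hV)).continuousAt hγ
  have hT := h.cont t ht
  have hf : ContinuousAt (fun u => (T u).1 * (W (γ u)).1 + (T u).2 * (W (γ u)).2) t :=
    (hT.fst.mul hW.fst).add (hT.snd.mul hW.snd)
  have h0 : 0 < (T t).1 * (W (γ t)).1 + (T t).2 * (W (γ t)).2 := by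
    rw [← he]; nlinarith [h.unit t ht]
  filter_upwards [hI.mem_nhds ht, hγ.preimage_mem_nhds (hL.opn.mem_nhds hV),
    hf.eventually (lt_mem_nhds h0)] with u hu hu' hp
  refine (RedA_pm hL h hI hu hu').resolve_right fun hn => ?_
  rw [hn] at hp
  have := hL.unit _ hu' (h.mem u hu)
  simp only [Prod.fst_neg, Prod.snd_neg] at hp
  nlinarith

theorem RedA_ex (hΓ : LocAll Γ) (h : IsArc Γ I γ T) (hI : IsOpen I) {t : ℝ} (ht : t ∈ I) :
    ∃ V G W, γ t ∈ V ∧ Loc Γ V G W ∧ T t = W (γ t) := by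
  obtain ⟨V, G, W, hV, hL⟩ := hΓ _ (h.mem t ht)
  rcases RedA_pm hL h hI ht hV with e | e
  · exact ⟨V, G, W, hV, hL, e⟩
  · exact ⟨V, G, _, hV, hL.neg, e⟩

/-- near a parameter an arc solves the equation of a local tangent field -/
theorem IsArc.loc (hΓ : LocAll Γ) (h : IsArc Γ I γ T) (hI : IsOpen I) {t : ℝ} (ht : t ∈ I) :
    ∃ V G W, γ t ∈ V ∧ Loc Γ V G W ∧ ∀ᶠ u in 𝓝 t, T u = W (γ u) := by
  obtain ⟨V, G, W, hV, hL, e⟩ := RedA_ex hΓ h hI ht
  exact ⟨V, G, W, hV, hL, RedA_loc hL h hI ht hV e⟩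

theorem IsArc.sign (hΓ : LocAll Γ) (h : IsArc Γ I γ T) (hI : IsOpen I) (h' : IsArc Γ J α τ)
    (hJ : IsOpen J) {t u : ℝ} (ht : t ∈ I) (hu : u ∈ J) (he : γ t = α u) :
    T t = τ u ∨ T t = -τ u := by
  obtain ⟨V, G, W, hV, hL, e⟩ := RedA_ex hΓ h hI ht
  rcases RedA_pm hL h' hJ hu (he ▸ hV) with e' | e'
  · left; rw [e, e', he]
  · right; rw [e, e', he, neg_neg]

theorem RedA_ev (hΓ : LocAll Γ) (h : IsArc Γ I γ T) (h' : IsArc Γ I α τ) (hI : IsOpen I)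
    {t : ℝ} (ht : t ∈ I) (he : γ t = α t) (he' : T t = τ t) :
    ∀ᶠ u in 𝓝 t, γ u = α u ∧ T u = τ u := by
  obtain ⟨V, G, W, hV, hL, e⟩ := RedA_ex hΓ h hI ht
  have h1 := RedA_loc hL h hI ht hV e
  have h2 := RedA_loc hL h' hI ht (he ▸ hV) (by rw [← he', ← he, e])
  obtain ⟨K, s, hs, hK⟩ := (hL.cW.contDiffAt (hL.opn.mem_nhds hV)).exists_lipschitzOnWith
  have h3 : γ =ᶠ[𝓝 t] α := by
    refine ODE_solution_unique_of_eventually (v := fun _ => W) (s := fun _ => s) (K := K)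
      (Filter.Eventually.of_forall fun _ => hK) ?_ ?_ he
    · filter_upwards [h1, hI.mem_nhds ht, (h.der t ht).continuousAt.preimage_mem_nhds hs]
        with u a b c
      exact ⟨a ▸ h.der u b, c⟩
    · filter_upwards [h2, hI.mem_nhds ht,
        (h'.der t ht).continuousAt.preimage_mem_nhds (he ▸ hs)] with u a b c
      exact ⟨a ▸ h'.der u b, c⟩
  filter_upwards [h1, h2, h3] with u a b c
  exact ⟨c, by rw [a, b, c]⟩

theorem IsArc.unique (hΓ : LocAll Γ) (h : IsArc Γ I γ T) (h' : IsArc Γ I α τ) (hI : IsOpen I)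
    (hc : IsPreconnected I) {t₀ : ℝ} (ht₀ : t₀ ∈ I) (he : γ t₀ = α t₀) (he' : T t₀ = τ t₀) :
    ∀ t ∈ I, γ t = α t ∧ T t = τ t := by
  have hu : IsOpen {t | t ∈ I ∧ γ t = α t ∧ T t = τ t} := by
    refine isOpen_iff_mem_nhds.2 fun t ht => ?_
    filter_upwards [hI.mem_nhds ht.1, RedA_ev hΓ h h' hI ht.1 ht.2.1 ht.2.2] with u a b
    exact ⟨a, b⟩
  have := hc.subset_of_closure_inter_subset hu ⟨t₀, ht₀, ht₀, he, he'⟩ (by
    rintro t ⟨ht, htI⟩
    have hf := mem_closure_iff_frequently.1 ht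
    exact ⟨htI, tendsto_nhds_unique_of_frequently_eq (h.der t htI).continuousAt
      (h'.der t htI).continuousAt (hf.mono fun u hu => hu.2.1),
      tendsto_nhds_unique_of_frequently_eq (h.cont t htI) (h'.cont t htI)
        (hf.mono fun u hu => hu.2.2)⟩)
  exact fun t ht => (this ht).2

theorem IsArc.follow (hΓ : LocAll Γ) (h : IsArc Γ I γ T) (hI : IsOpen I) (hIc : I.OrdConnected)
    (h' : IsArc Γ J α τ) (hJ : IsOpen J) (hJc : J.OrdConnected) {a b : ℝ} (ha : a ∈ I)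
    (hb : b ∈ J) (he : γ a = α b) : ∃ σ : ℝ, (σ = 1 ∨ σ = -1) ∧ ∀ u, a + u ∈ I → b + σ * u ∈ J →
      γ (a + u) = α (b + σ * u) ∧ T (a + u) = σ • τ (b + σ * u) := by
  obtain ⟨σ, hσ, e⟩ : ∃ σ : ℝ, (σ = 1 ∨ σ = -1) ∧ T a = σ • τ b := by
    rcases h.sign hΓ hI h' hJ ha hb he with e | e
    · exact ⟨1, Or.inl rfl, by rw [e, one_smul]⟩
    · exact ⟨-1, Or.inr rfl, by rw [e, neg_one_smul]⟩
  refine ⟨σ, hσ, fun u hu hu' => ?_⟩
  have h1 := (h.shift a (Or.inl rfl)).mono (J := {u | a + 1 * u ∈ I} ∩ {u | b + σ * u ∈ J})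
    inter_subset_left
  have h2 := (h'.shift b hσ).mono (J := {u | a + 1 * u ∈ I} ∩ {u | b + σ * u ∈ J})
    inter_subset_right
  have hcv : ∀ {K : Set ℝ}, K.OrdConnected → ∀ c d : ℝ, Convex ℝ {u | c + d * u ∈ K} := by
    intro K hK c d x hx y hy p q hp hq hpq
    have := hK.convex (𝕜 := ℝ) hx hy hp hq hpq
    simp only [smul_eq_mul, mem_ofPred_eq] at this ⊢
    convert this using 1
    linear_combination (-c) * hpq
  have := h1.unique hΓ h2 ((hI.preimage (by fun_prop)).inter (hJ.preimage (by fun_prop)))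
    ((hcv hIc a 1).inter (hcv hJc b σ)).isPreconnected (t₀ := 0) ⟨by simpa using ha,
      by simpa using hb⟩ (by simpa using he) (by simpa using e) u ⟨by simpa using hu, hu'⟩
  simpa using this

theorem IsArc.ode (hΓ : LocAll Γ) (h : IsArc Γ I γ T) (hI : IsOpen I) {t : ℝ} (ht : t ∈ I)
    (h1 : 0 < (γ t).1) (h2 : 0 < (γ t).2) :
    HasDerivAt T (kap (γ t).1 (γ t).2 (T t).1 (T t).2 • (-(T t).2, (T t).1)) t := by
  obtain ⟨V, G, W, hV, hL, e⟩ := h.loc hΓ hI ht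
  have hW : HasFDerivAt W (fderiv ℝ W (γ t)) (γ t) :=
    ((hL.cW.contDiffAt (hL.opn.mem_nhds hV)).differentiableAt one_ne_zero).hasFDerivAt
  have h3 := (hW.comp_hasDerivAt t (h.der t ht)).congr_of_eventuallyEq e
  rw [e.self_of_nhds, hL.curv _ hV (h.mem t ht) h1 h2] at h3
  rw [e.self_of_nhds]
  exact h3

theorem IsArc.ax1 (hΓ : LocAll Γ) (h : IsArc Γ I γ T) (hI : IsOpen I) {t : ℝ} (ht : t ∈ I)
    (h1 : (γ t).1 = 0) : (T t).2 = 0 := by
  obtain ⟨V, G, W, hV, hL, e⟩ := RedA_ex hΓ h hI ht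
  rw [e]; exact hL.ax1 _ hV (h.mem t ht) h1

theorem IsArc.ax2 (hΓ : LocAll Γ) (h : IsArc Γ I γ T) (hI : IsOpen I) {t : ℝ} (ht : t ∈ I)
    (h1 : (γ t).2 = 0) : (T t).1 = 0 := by
  obtain ⟨V, G, W, hV, hL, e⟩ := RedA_ex hΓ h hI ht
  rw [e]; exact hL.ax2 _ hV (h.mem t ht) h1

end Pool.Agent.MP_48470b_gt

end
end

section

open Set
open scoped Topology ContDiff

noncomputable section

namespace Pool.Agent.MP_48470b_gt

variable {Γ : Set (ℝ × ℝ)} {I : Set ℝ} {γ T α τ : ℝ → ℝ × ℝ}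

theorem exists_arc (hΓ : LocAll Γ) {z : ℝ × ℝ} (hz : z ∈ Γ) :
    ∃ ε > 0, ∃ α τ, IsArc Γ (Ioo (-ε) ε) α τ ∧ α 0 = z := by
  obtain ⟨V, G, W, hV, h⟩ := hΓ z hz
  obtain ⟨α, h0, ε, hε, hα⟩ := (h.cW.contDiffAt (h.opn.mem_nhds hV)
    ).exists_forall_mem_closedBall_exists_eq_forall_mem_Ioo_hasDerivAt₀ 0
  have h1 : ∀ᶠ t in 𝓝 (0 : ℝ), α t ∈ V ∧ HasDerivAt α (W (α t)) t :=
    ((hα 0 (by simpa using hε)).continuousAt.eventually (h.opn.mem_nhds (h0 ▸ hV))).and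
      (Filter.mem_of_superset (Ioo_mem_nhds (by simpa using hε) (by simpa using hε)) hα)
  obtain ⟨e, he, h2⟩ := Metric.eventually_nhds_iff_ball.1 h1
  rw [Real.ball_eq_Ioo, zero_sub, zero_add] at h2
  have h3 : ∀ t ∈ Ioo (-e) e, HasDerivAt (fun t => G (α t)) 0 t := fun t ht => by
    have := ((h.cG.contDiffAt (h.opn.mem_nhds (h2 t ht).1)).differentiableAt one_ne_zero
      ).hasFDerivAt.comp_hasDerivAt t (h2 t ht).2
    rwa [h.tan _ (h2 t ht).1] at this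
  have h4 : ∀ t ∈ Ioo (-e) e, α t ∈ Γ := fun t ht => by
    rw [h.mem _ (h2 t ht).1, isOpen_Ioo.is_const_of_deriv_eq_zero (𝕜 := ℝ)
      (f := fun t => G (α t)) isPreconnected_Ioo
      (fun t ht => (h3 t ht).differentiableAt.differentiableWithinAt) (fun t ht => (h3 t ht).deriv)
      ht (show (0 : ℝ) ∈ Ioo (-e) e by simpa using he), h0]
    exact (h.mem _ hV).1 hz
  exact ⟨e, he, α, fun t => W (α t), ⟨h4, fun t ht => (h2 t ht).2,
    fun t ht => h.unit _ (h2 t ht).1 (h4 t ht), fun t ht =>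
      (h.cW.continuousOn.continuousAt (h.opn.mem_nhds (h2 t ht).1)).comp
        (h2 t ht).2.continuousAt⟩, h0⟩

/-- an arc covers a neighbourhood in `Γ` of each of its points -/
theorem IsArc.cover (hΓ : LocAll Γ) (h : IsArc Γ I γ T) (hI : IsOpen I) {t : ℝ} (ht : t ∈ I)
    {δ : ℝ} (hδ : 0 < δ) : ∀ᶠ z in 𝓝 (γ t), z ∈ Γ → ∃ u, |u| < δ ∧ z = γ (t + u) := by
  obtain ⟨V, G, W, hV, hL, hW⟩ := h.loc hΓ hI ht
  obtain ⟨w, hw⟩ : ∃ w, w = T t := ⟨_, rfl⟩
  have hw1 : w.1 ^ 2 + w.2 ^ 2 = 1 := hw ▸ h.unit t ht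
  have h1 : ∀ᶠ q in 𝓝 (γ t), q ∈ V ∧ fderiv ℝ G q (w.2, -w.1) ≠ 0 := by
    refine Filter.Eventually.and (hL.opn.mem_nhds hV) (ContinuousAt.eventually_ne ?_ ?_)
    · exact ((hL.cG.continuousOn_fderiv_of_isOpen hL.opn le_rfl).continuousAt
        (hL.opn.mem_nhds hV)).clm_apply continuousAt_const
    · rw [hw, hW.self_of_nhds]; exact hL.nor _ hV (h.mem t ht)
  obtain ⟨ρ, hρ, h2⟩ := Metric.eventually_nhds_iff_ball.1 h1
  have h3 : HasStrictDerivAt (fun u => w.1 * (γ u).1 + w.2 * (γ u).2)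
      (w.1 * (T t).1 + w.2 * (T t).2) t := by
    refine hasStrictDerivAt_of_hasDerivAt_of_continuousAt
      (f' := fun u => w.1 * (T u).1 + w.2 * (T u).2) ?_ ?_
    · filter_upwards [hI.mem_nhds ht] with u hu
      exact (((ContinuousLinearMap.fst ℝ ℝ ℝ).hasFDerivAt.comp_hasDerivAt u (h.der u hu)
        ).const_mul _).add (((ContinuousLinearMap.snd ℝ ℝ ℝ).hasFDerivAt.comp_hasDerivAt u
          (h.der u hu)).const_mul _)
    · have := h.cont t ht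
      fun_prop
  have h4 : {u | u ∈ I ∧ γ u ∈ Metric.ball (γ t) ρ ∧ |u - t| < δ} ∈ 𝓝 t :=
    Filter.inter_mem (hI.mem_nhds ht) (Filter.inter_mem
      ((h.der t ht).continuousAt.eventually (Metric.ball_mem_nhds _ hρ))
      (Metric.ball_mem_nhds t hδ))
  have h5 := Filter.image_mem_map (m := fun u => w.1 * (γ u).1 + w.2 * (γ u).2) h4
  rw [h3.map_nhds_eq (by rw [← hw, ← sq, ← sq, hw1]; exact one_ne_zero)] at h5
  have h6 : ContinuousAt (fun z : ℝ × ℝ => w.1 * z.1 + w.2 * z.2) (γ t) := by fun_prop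
  filter_upwards [h6.eventually h5, Metric.ball_mem_nhds _ hρ] with z hz hzb hzΓ
  obtain ⟨u, ⟨hu, hub, huδ⟩, hz⟩ := hz
  refine ⟨u - t, huδ, ?_⟩
  rw [add_sub_cancel]
  obtain ⟨r, hr⟩ : ∃ r : ℝ, z - γ u = r • (w.2, -w.1) := by
    refine ⟨w.2 * (z.1 - (γ u).1) - w.1 * (z.2 - (γ u).2), Prod.ext ?_ ?_⟩
    · simp only [Prod.fst_sub, Prod.smul_fst, smul_eq_mul]
      linear_combination (-(z.1 - (γ u).1)) * hw1 - w.1 * hz
    · simp only [Prod.snd_sub, Prod.smul_snd, smul_eq_mul]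
      linear_combination (-(z.2 - (γ u).2)) * hw1 - w.2 * hz
  have h7 : ∀ s ∈ Icc (0 : ℝ) 1, γ u + s • (z - γ u) ∈ Metric.ball (γ t) ρ := fun s hs =>
    (convex_ball _ _).add_smul_sub_mem hub hzb hs
  have h8 : ∀ s ∈ Icc (0 : ℝ) 1, HasDerivAt (fun s : ℝ => G (γ u + s • (z - γ u)))
      (fderiv ℝ G (γ u + s • (z - γ u)) (z - γ u)) s := fun s hs =>
    ((hL.cG.contDiffAt (hL.opn.mem_nhds (h2 _ (h7 s hs)).1)).differentiableAt one_ne_zero
      ).hasFDerivAt.comp_hasDerivAt s (by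
        simpa using ((hasDerivAt_id s).smul_const (z - γ u)).const_add (γ u))
  obtain ⟨s, hs, h9⟩ := exists_hasDerivAt_eq_zero zero_lt_one
    (fun s hs => (h8 s hs).continuousAt.continuousWithinAt) (by
      simp [(hL.mem _ (h2 _ hub).1).1 (h.mem u hu), (hL.mem _ (h2 _ hzb).1).1 hzΓ])
    fun s hs => h8 s (Ioo_subset_Icc_self hs)
  have h10 := (h2 _ (h7 s (Ioo_subset_Icc_self hs))).2
  generalize γ u + s • (z - γ u) = q at h9 h10
  rw [hr, map_smul, smul_eq_mul] at h9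
  rw [← sub_eq_zero, hr, (mul_eq_zero.1 h9).resolve_right h10, zero_smul]

theorem RedB_glue {ι : Type} (J : ι → Set ℝ) (g s : ι → ℝ → ℝ × ℝ) (ho : ∀ i, IsOpen (J i))
    (h : ∀ i, IsArc Γ (J i) (g i) (s i))
    (hc : ∀ i j, ∀ t ∈ J i, t ∈ J j → g i t = g j t ∧ s i t = s j t) :
    ∃ γ T, IsArc Γ (⋃ i, J i) γ T ∧ ∀ i, ∀ t ∈ J i, γ t = g i t ∧ T t = s i t := by
  classical
  obtain ⟨γ, T, h1⟩ : ∃ γ T : ℝ → ℝ × ℝ, ∀ i, ∀ t ∈ J i, γ t = g i t ∧ T t = s i t :=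
    ⟨fun t => if h : ∃ i, t ∈ J i then g h.choose t else 0,
      fun t => if h : ∃ i, t ∈ J i then s h.choose t else 0, fun i t ht => by
        have h2 : ∃ i, t ∈ J i := ⟨i, ht⟩
        simp only [dif_pos h2]
        exact hc _ _ t h2.choose_spec ht⟩
  refine ⟨γ, T, ⟨fun t ht => ?_, fun t ht => ?_, fun t ht => ?_, fun t ht => ?_⟩, h1⟩ <;>
    obtain ⟨i, hi⟩ := mem_iUnion.1 ht
  · exact (h1 i t hi).1 ▸ (h i).mem t hi
  · rw [(h1 i t hi).2]
    refine ((h i).der t hi).congr_of_eventuallyEq ?_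
    filter_upwards [(ho i).mem_nhds hi] with u hu using (h1 i u hu).1
  · exact (h1 i t hi).2 ▸ (h i).unit t hi
  · refine ((h i).cont t hi).congr ?_
    filter_upwards [(ho i).mem_nhds hi] with u hu using (h1 i u hu).2.symm

theorem RedB_unif (hΓ : LocAll Γ) (hc : IsCompact Γ) :
    ∃ e > 0, ∀ z ∈ Γ, ∃ α τ, IsArc Γ (Ioo (-e) e) α τ ∧ α 0 = z := by
  have h := hc.eventually_forall_of_forall_eventually (x₀ := (0 : ℝ))
    (P := fun e z => z ∈ Γ → ∃ α τ, IsArc Γ (Ioo (-e) e) α τ ∧ α 0 = z) fun z hz => by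
      obtain ⟨ε, hε, α, τ, h, rfl⟩ := exists_arc hΓ hz
      rw [nhds_prod_eq]
      filter_upwards [(gt_mem_nhds (half_pos hε)).prod_mk
        (h.cover hΓ isOpen_Ioo (by simpa using hε) (half_pos hε))] with q hq hq'
      obtain ⟨u, hu, h1⟩ := hq.2 hq'
      refine ⟨_, _, (h.shift u (Or.inl rfl)).mono fun t ht => ?_, by simp [h1]⟩
      have h2 : q.1 < ε / 2 := hq.1
      rw [abs_lt] at hu
      exact ⟨by linarith [ht.1], by linarith [ht.2]⟩
  obtain ⟨e, h1, h2⟩ := ((h.filter_mono (nhdsWithin_le_nhds (s := Ioi 0))).and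
    self_mem_nhdsWithin).exists
  exact ⟨e, h2, fun z hz => h1 z hz hz⟩

theorem RedB_step (hΓ : LocAll Γ) {e a b : ℝ} (he : 0 < e)
    (hu : ∀ z ∈ Γ, ∃ α τ, IsArc Γ (Ioo (-e) e) α τ ∧ α 0 = z) (ha : a < 0) (hb : 0 < b)
    (h : IsArc Γ (Ioo a b) γ T) :
    ∃ γ' T', IsArc Γ (Ioo a (b + e / 2)) γ' T' ∧ γ' 0 = γ 0 ∧ T' 0 = T 0 := by
  obtain ⟨c, h1, h2, h3⟩ : ∃ c, a < c ∧ c < b ∧ b - e / 2 ≤ c :=
    ⟨max 0 (b - e / 2), lt_max_of_lt_left ha, max_lt hb (by linarith), le_max_right _ _⟩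
  obtain ⟨β, s, hβ, h4⟩ := hu _ (h.mem c ⟨h1, h2⟩)
  obtain ⟨σ, hσ, h5⟩ := h.follow hΓ isOpen_Ioo ordConnected_Ioo hβ isOpen_Ioo ordConnected_Ioo
    ⟨h1, h2⟩ (show (0 : ℝ) ∈ Ioo (-e) e by simpa using he) h4.symm
  have h6 : ∀ t ∈ Ioo (c - e) (c + e), -σ * c + σ * t ∈ Ioo (-e) e := fun t ht => by
    rcases hσ with rfl | rfl <;> exact ⟨by linarith [ht.1, ht.2], by linarith [ht.1, ht.2]⟩
  have h7 : ∀ t ∈ Ioo a b, t ∈ Ioo (c - e) (c + e) →
      γ t = β (-σ * c + σ * t) ∧ T t = σ • s (-σ * c + σ * t) := fun t ht ht' => by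
    have e1 : 0 + σ * (t - c) = -σ * c + σ * t := by ring
    have := h5 (t - c) (by rwa [add_sub_cancel]) (e1 ▸ h6 t ht')
    rwa [add_sub_cancel, e1] at this
  obtain ⟨γ', T', h8, h9⟩ := RedB_glue (Γ := Γ)
    (fun i : Bool => cond i (Ioo a b) (Ioo (c - e) (c + e)))
    (fun i => cond i γ fun t => β (-σ * c + σ * t))
    (fun i => cond i T fun t => σ • s (-σ * c + σ * t))
    (fun i => by cases i <;> exact isOpen_Ioo)
    (fun i => by
      cases i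
      · exact (hβ.shift (-σ * c) hσ).mono h6
      · exact h)
    (fun i j t hi hj => by
      cases i <;> cases j
      · exact ⟨rfl, rfl⟩
      · exact ⟨(h7 t hj hi).1.symm, (h7 t hj hi).2.symm⟩
      · exact h7 t hi hj
      · exact ⟨rfl, rfl⟩)
  refine ⟨γ', T', h8.mono fun t ht => mem_iUnion.2 ?_, h9 true 0 ⟨ha, hb⟩⟩
  by_cases h10 : t < b
  · exact ⟨true, ht.1, h10⟩
  · exact ⟨false, by linarith, by linarith [ht.2]⟩

theorem exists_global (hΓ : LocAll Γ) (hc : IsCompact Γ) {ε : ℝ} (hε : 0 < ε)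
    (h : IsArc Γ (Ioo (-ε) ε) α τ) :
    ∃ γ T, IsArc Γ (Ioi (-ε)) γ T ∧ γ 0 = α 0 ∧ T 0 = τ 0 := by
  obtain ⟨e, he, hu⟩ := RedB_unif hΓ hc
  have hb : ∀ n : ℕ, 0 < ε + n * (e / 2) := fun n => by positivity
  have h1 : ∀ n : ℕ, ∃ g s, IsArc Γ (Ioo (-ε) (ε + n * (e / 2))) g s ∧ g 0 = α 0 ∧ s 0 = τ 0 := by
    intro n
    induction n with
    | zero => exact ⟨α, τ, by simpa using h, rfl, rfl⟩
    | succ n ih =>
      obtain ⟨g, s, h1, h2, h3⟩ := ih
      obtain ⟨g', s', h4, h5, h6⟩ := RedB_step hΓ he hu (neg_lt_zero.2 hε) (hb n) h1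
      refine ⟨g', s', ?_, h5.trans h2, h6.trans h3⟩
      rwa [Nat.cast_succ, add_mul, one_mul, ← add_assoc]
  choose g s h1 h2 h3 using h1
  obtain ⟨γ, T, h4, h5⟩ := RedB_glue _ g s (fun _ => isOpen_Ioo) h1 fun i j t hi hj =>
    ((h1 i).mono (Ioo_subset_Ioo_right (min_le_left _ (ε + j * (e / 2))))).unique hΓ
      ((h1 j).mono (Ioo_subset_Ioo_right (min_le_right _ _))) isOpen_Ioo isPreconnected_Ioo
      (t₀ := 0) ⟨neg_lt_zero.2 hε, lt_min (hb i) (hb j)⟩ ((h2 i).trans (h2 j).symm)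
      ((h3 i).trans (h3 j).symm) t ⟨hi.1, lt_min hi.2 hj.2⟩
  have h6 := h5 0 0 ⟨neg_lt_zero.2 hε, hb 0⟩
  refine ⟨γ, T, h4.mono fun t ht => mem_iUnion.2 ?_, h6.1.trans (h2 0), h6.2.trans (h3 0)⟩
  obtain ⟨n, hn⟩ := exists_nat_gt (t / (e / 2))
  rw [div_lt_iff₀ (half_pos he)] at hn
  exact ⟨n, ht, by linarith⟩

end Pool.Agent.MP_48470b_gt

end
end

section

open Set
open scoped Topology ContDiff

noncomputable section

namespace Pool.Agent.MP_48470b_gt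

lemma RedE_pos {f : ℝ → ℝ} {d t : ℝ} (hd : HasDerivAt f d t) (h0 : f t = 0) (hp : 0 < d) :
    ∃ δ > 0, ∀ u, |u| < δ → (0 < u → 0 < f (t + u)) ∧ (u < 0 → f (t + u) < 0) := by
  have h1 : ∀ᶠ u in 𝓝[≠] (0:ℝ), 0 < u⁻¹ • (f (t + u) - f t) :=
    hd.tendsto_slope_zero.eventually (lt_mem_nhds hp)
  rw [eventually_nhdsWithin_iff, Metric.eventually_nhds_iff] at h1
  obtain ⟨δ, hδ, h1⟩ := h1
  refine ⟨δ, hδ, fun u hu => ⟨fun h => ?_, fun h => ?_⟩⟩
  · have := h1 (y := u) (by simpa using hu) h.ne'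
    rw [h0, sub_zero, smul_eq_mul] at this
    exact (mul_pos_iff_of_pos_left (inv_pos.2 h)).1 this
  · have := h1 (y := u) (by simpa using hu) h.ne
    rw [h0, sub_zero, smul_eq_mul] at this
    exact neg_of_mul_pos_right this (inv_lt_zero.2 h).le

lemma RedE_neg {f : ℝ → ℝ} {d t : ℝ} (hd : HasDerivAt f d t) (h0 : f t = 0) (hp : d < 0) :
    ∃ δ > 0, ∀ u, |u| < δ → (0 < u → f (t + u) < 0) ∧ (u < 0 → 0 < f (t + u)) := by
  obtain ⟨δ, hδ, h⟩ := RedE_pos (f := fun u => -f u) hd.neg (by simp [h0]) (neg_pos.2 hp)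
  exact ⟨δ, hδ, fun u hu => ⟨fun e => by linarith [(h u hu).1 e],
    fun e => by linarith [(h u hu).2 e]⟩⟩

lemma RedE_ne {f : ℝ → ℝ} {d t : ℝ} (hd : HasDerivAt f d t) (h0 : f t = 0) (hp : d ≠ 0) :
    ∃ δ > 0, ∀ u, 0 < u → u < δ → f (t + u) ≠ 0 := by
  rcases hp.lt_or_gt with e | e
  · obtain ⟨δ, hδ, h⟩ := RedE_neg hd h0 e
    exact ⟨δ, hδ, fun u h1 h2 => ((h u (by rwa [abs_of_pos h1])).1 h1).ne⟩
  · obtain ⟨δ, hδ, h⟩ := RedE_pos hd h0 e
    exact ⟨δ, hδ, fun u h1 h2 => ((h u (by rwa [abs_of_pos h1])).1 h1).ne'⟩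

variable {Γ : Set (ℝ × ℝ)} {I : Set ℝ} {γ T : ℝ → ℝ × ℝ}

lemma IsArc.d1 (h : IsArc Γ I γ T) {t : ℝ} (ht : t ∈ I) :
    HasDerivAt (fun u => (γ u).1) (T t).1 t :=
  (ContinuousLinearMap.fst ℝ ℝ ℝ).hasFDerivAt.comp_hasDerivAt t (h.der t ht)

lemma IsArc.d2 (h : IsArc Γ I γ T) {t : ℝ} (ht : t ∈ I) :
    HasDerivAt (fun u => (γ u).2) (T t).2 t :=
  (ContinuousLinearMap.snd ℝ ℝ ℝ).hasFDerivAt.comp_hasDerivAt t (h.der t ht)

lemma IsArc.not_origin (hΓ : LocAll Γ) (h : IsArc Γ I γ T) (hI : IsOpen I) {t : ℝ} (ht : t ∈ I)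
    (h1 : (γ t).1 = 0) (h2 : (γ t).2 = 0) : False := by
  have := h.unit t ht
  rw [h.ax1 hΓ hI ht h1, h.ax2 hΓ hI ht h2] at this
  simp at this

/-- the product of the coordinates has non-zero derivative on the axes -/
lemma IsArc.dprod (hΓ : LocAll Γ) (h : IsArc Γ I γ T) (hI : IsOpen I) {t : ℝ} (ht : t ∈ I)
    (h0 : (γ t).1 * (γ t).2 = 0) : (T t).1 * (γ t).2 + (γ t).1 * (T t).2 ≠ 0 := by
  have hu := h.unit t ht
  rcases mul_eq_zero.1 h0 with e | e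
  · have e2 := h.ax1 hΓ hI ht e
    rw [e, zero_mul, add_zero]
    refine mul_ne_zero (fun e3 => ?_) fun e3 => h.not_origin hΓ hI ht e e3
    rw [e2, e3] at hu; simp at hu
  · have e2 := h.ax2 hΓ hI ht e
    rw [e, mul_zero, zero_add]
    refine mul_ne_zero (fun e3 => h.not_origin hΓ hI ht e3 e) fun e3 => ?_
    rw [e2, e3] at hu; simp at hu

theorem exists_offaxis {Γ : Set (ℝ × ℝ)} (hΓ : LocAll Γ) {z : ℝ × ℝ} (hz : z ∈ Γ) :
    ∃ z' ∈ Γ, z'.1 ≠ 0 ∧ z'.2 ≠ 0 := by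
  by_cases h0 : z.1 * z.2 = 0
  · obtain ⟨ε, hε, α, τ, h, rfl⟩ := exists_arc hΓ hz
    have m : (0:ℝ) ∈ Ioo (-ε) ε := ⟨by linarith, hε⟩
    obtain ⟨δ, hδ, h1⟩ := RedE_ne ((h.d1 m).fun_mul (h.d2 m)) h0 (h.dprod hΓ isOpen_Ioo m h0)
    have p : 0 < min δ ε := lt_min hδ hε
    have := h1 (min δ ε / 2) (by linarith) (by linarith [min_le_left δ ε])
    rw [zero_add] at this
    exact ⟨_, h.mem _ ⟨by linarith, by linarith [min_le_right δ ε]⟩, mul_ne_zero_iff.1 this⟩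
  · exact ⟨z, hz, mul_ne_zero_iff.1 h0⟩

variable {ε : ℝ}

/-- a double point forces a return to the starting point -/
lemma RedE_return (hΓ : LocAll Γ) (hε : 0 < ε) (h : IsArc Γ (Ioi (-ε)) γ T) {t u : ℝ}
    (ht : 0 ≤ t) (htu : t < u) (he : γ t = γ u) : γ (u - t) = γ 0 := by
  have mt : t ∈ Ioi (-ε) := by simp only [mem_Ioi]; linarith
  have mu : u ∈ Ioi (-ε) := by simp only [mem_Ioi]; linarith
  obtain ⟨σ, hσ, h1⟩ := h.follow hΓ isOpen_Ioi ordConnected_Ioi h isOpen_Ioi ordConnected_Ioi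
    mt mu he
  rcases hσ with rfl | rfl
  · have := (h1 (-t) (by simp only [mem_Ioi]; linarith) (by simp only [mem_Ioi]; linarith)).1
    rw [add_neg_cancel, one_mul, ← sub_eq_add_neg] at this
    exact this.symm
  · have m : t + (u - t) / 2 ∈ Ioi (-ε) := by simp only [mem_Ioi]; linarith
    have e : u + -1 * ((u - t) / 2) = t + (u - t) / 2 := by ring
    have h2 := (h1 ((u - t) / 2) m (e ▸ m)).2
    rw [e] at h2
    have h3 := h.unit _ m
    have a1 := congrArg Prod.fst h2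
    have a2 := congrArg Prod.snd h2
    simp only [Prod.smul_fst, Prod.smul_snd, smul_eq_mul] at a1 a2
    have b1 : (T (t + (u - t) / 2)).1 = 0 := by linarith
    have b2 : (T (t + (u - t) / 2)).2 = 0 := by linarith
    rw [b1, b2] at h3
    simp at h3

lemma RedE_double (hΓ : LocAll Γ) (hc : IsCompact Γ) (hε : 0 < ε) (h : IsArc Γ (Ioi (-ε)) γ T) :
    ∃ t u, 0 ≤ t ∧ t < u ∧ γ t = γ u := by
  have mem : ∀ n : ℕ, γ (n + 1) ∈ Γ := fun n => h.mem _ (by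
    have : (0:ℝ) ≤ n := Nat.cast_nonneg n
    simp only [mem_Ioi]; linarith)
  obtain ⟨z, hz, φ, hφ, hlim⟩ := hc.tendsto_subseq mem
  obtain ⟨η, hη, α, τ, ha, rfl⟩ := exists_arc hΓ hz
  have m : (0:ℝ) ∈ Ioo (-η) η := ⟨by linarith, hη⟩
  have hcov := hlim.eventually (ha.cover hΓ isOpen_Ioo m (lt_min hη (by norm_num : (0:ℝ) < 1/4)))
  obtain ⟨N, hN⟩ := Filter.eventually_atTop.1 hcov
  have key : ∀ n, N ≤ n → ∃ v, |v| < 1/4 ∧ γ (φ n + 1 + v) = α 0 := by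
    intro n hn
    obtain ⟨s, hs, he⟩ := hN n hn (mem _)
    rw [zero_add] at he
    have s1 := abs_lt.1 (hs.trans_le (min_le_left _ _))
    have s2 := abs_lt.1 (hs.trans_le (min_le_right _ _))
    have n0 : (0:ℝ) ≤ φ n := Nat.cast_nonneg _
    obtain ⟨σ, hσ, h1⟩ := h.follow hΓ isOpen_Ioi ordConnected_Ioi ha isOpen_Ioo ordConnected_Ioo
      (a := φ n + 1) (b := s) (by simp only [mem_Ioi]; linarith) ⟨s1.1, s1.2⟩ he
    rcases hσ with rfl | rfl
    · refine ⟨-s, by rw [abs_neg]; exact abs_lt.2 s2, ?_⟩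
      have := (h1 (-s) (by simp only [mem_Ioi]; linarith) (by simpa using hη)).1
      simpa using this
    · refine ⟨s, abs_lt.2 s2, ?_⟩
      have := (h1 s (by simp only [mem_Ioi]; linarith) (by simpa using hη)).1
      simpa using this
  obtain ⟨v, hv, e1⟩ := key N le_rfl
  obtain ⟨w, hw, e2⟩ := key (N + 1) (Nat.le_succ N)
  have a1 := abs_lt.1 hv
  have a2 := abs_lt.1 hw
  have n0 : (0:ℝ) ≤ φ N := Nat.cast_nonneg _
  have n1 : (φ N : ℝ) + 1 ≤ φ (N + 1) := by exact_mod_cast hφ (Nat.lt_succ_self N)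
  exact ⟨_, _, by linarith, by linarith, e1.trans e2.symm⟩

theorem exists_profile {Γ : Set (ℝ × ℝ)} (hΓ : LocAll Γ) (hc : IsCompact Γ) {a : ℝ} (ha : 0 < a)
    (hA : (a, 0) ∈ Γ) : ∃ (L : ℝ) (x y c s : ℝ → ℝ), 0 < L ∧ ContinuousOn x (Icc 0 L) ∧
      ContinuousOn y (Icc 0 L) ∧ (∀ t ∈ Icc 0 L, (x t, y t) ∈ Γ) ∧ (x 0, y 0) = (a, 0) ∧
      (∀ t ∈ Icc 0 L, ∀ᶠ z in 𝓝 (x t, y t), z ∈ Γ → 0 ≤ z.1 → 0 ≤ z.2 →
        ∃ u ∈ Icc 0 L, z = (x u, y u)) ∧
      ((∃ t ∈ Icc 0 L, x t = 0) → Prof L x y c s) := by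
  obtain ⟨ε, hε, α, τ, h0, e0⟩ := exists_arc hΓ hA
  have m0 : (0:ℝ) ∈ Ioo (-ε) ε := ⟨by linarith, hε⟩
  have t1 : (τ 0).1 = 0 := h0.ax2 hΓ isOpen_Ioo m0 (by rw [e0])
  have t2 : (τ 0).2 = 1 ∨ (τ 0).2 = -1 := by
    have := h0.unit 0 m0
    rw [t1] at this
    exact mul_self_eq_one_iff.1 (by linarith)
  have h1 : IsArc Γ (Ioo (-ε) ε) (fun u => α (0 + (τ 0).2 * u))
      (fun u => (τ 0).2 • τ (0 + (τ 0).2 * u)) := (h0.shift 0 t2).mono fun u hu => by
    rcases t2 with e | e <;> rw [e] <;> constructor <;> linarith [hu.1, hu.2]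
  obtain ⟨γ, T, h, g0, T0⟩ := exists_global hΓ hc hε h1
  simp only [mul_zero, add_zero, e0] at g0 T0
  have T01 : (T 0).1 = 0 := by rw [T0]; simp [t1]
  have T02 : (T 0).2 = 1 := by rw [T0]; rcases t2 with e | e <;> simp [e]
  have mI : ∀ t, 0 ≤ t → t ∈ Ioi (-ε) := fun t ht => by simp only [mem_Ioi]; linarith
  have x0 : (γ 0).1 = a := by rw [g0]
  have y0 : (γ 0).2 = 0 := by rw [g0]
  have cx : ∀ t, 0 ≤ t → ContinuousAt (fun u => (γ u).1) t := fun t ht => (h.d1 (mI t ht)).continuousAt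
  have cy : ∀ t, 0 ≤ t → ContinuousAt (fun u => (γ u).2) t := fun t ht => (h.d2 (mI t ht)).continuousAt
  obtain ⟨t, u, ht, htu, he⟩ := RedE_double hΓ hc hε h
  have hb : (γ (u - t)).1 * (γ (u - t)).2 = 0 := by
    rw [RedE_return hΓ hε h ht htu he, y0, mul_zero]
  obtain ⟨δ₀, hδ₀, d0⟩ := RedE_pos (h.d2 (mI 0 le_rfl)) y0 (by rw [T02]; exact one_pos)
  obtain ⟨δ₁, hδ₁, d1⟩ := RedE_ne ((h.d1 (mI 0 le_rfl)).fun_mul (h.d2 (mI 0 le_rfl)))
    (by rw [y0, mul_zero]) (h.dprod hΓ isOpen_Ioi (mI 0 le_rfl) (by rw [y0, mul_zero]))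
  obtain ⟨L, hL, hL0, hLne⟩ := exists_first_zero (f := fun t => (γ t).1 * (γ t).2)
    (sub_pos.2 htu) (fun w hw => ((cx w hw.1).mul (cy w hw.1)).continuousWithinAt) hb (by
      filter_upwards [Ioo_mem_nhdsGT hδ₁] with w hw
      simpa using d1 w hw.1 hw.2)
  have Lp := hL.1
  have cX : ContinuousOn (fun u => (γ u).1) (Icc 0 L) := fun w hw => (cx w hw.1).continuousWithinAt
  have cY : ContinuousOn (fun u => (γ u).2) (Icc 0 L) := fun w hw => (cy w hw.1).continuousWithinAt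
  have xp : ∀ w ∈ Ico 0 L, 0 < (γ w).1 :=
    pos_of_ne isPreconnected_Ico (cX.mono Ico_subset_Icc_self) (fun w hw => by
      rcases hw.1.eq_or_lt with rfl | e
      · rw [x0]; exact ha.ne'
      · exact left_ne_zero_of_mul (hLne w ⟨e, hw.2⟩)) ⟨le_rfl, Lp⟩ (by rw [x0]; exact ha)
  have yp : ∀ w ∈ Ioo 0 L, 0 < (γ w).2 := by
    have p : 0 < min δ₀ L := lt_min hδ₀ Lp
    refine pos_of_ne isPreconnected_Ioo (cY.mono Ioo_subset_Icc_self)
      (fun w hw => right_ne_zero_of_mul (hLne w hw)) (t0 := min δ₀ L / 2)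
      ⟨by linarith, by linarith [min_le_right δ₀ L]⟩ ?_
    have := (d0 (min δ₀ L / 2) (by
      rw [abs_of_pos (by linarith)]; linarith [min_le_left δ₀ L])).1 (by linarith)
    simpa using this
  have mL := mI L Lp.le
  have before : ∀ {f : ℝ → ℝ} {d : ℝ}, HasDerivAt f d L → f L = 0 → (∀ w ∈ Ioo 0 L, 0 < f w) →
      d ≠ 0 → d < 0 := by
    intro f d hd hf hp hne
    refine hne.lt_or_gt.resolve_right fun e => ?_
    obtain ⟨δ, hδ, k⟩ := RedE_pos hd hf e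
    have p : 0 < min δ L := lt_min hδ Lp
    have k1 := (k (-(min δ L / 2)) (by
      rw [abs_neg, abs_of_pos (by linarith)]; linarith [min_le_left δ L])).2 (by linarith)
    have k2 := hp (L + -(min δ L / 2)) ⟨by linarith [min_le_right δ L], by linarith⟩
    linarith
  have endx : (γ L).1 = 0 → (T L).1 < 0 := fun e =>
    before (h.d1 mL) e (fun w hw => xp w (Ioo_subset_Ico_self hw)) fun e2 => by
      have := h.unit L mL
      rw [e2, h.ax1 hΓ isOpen_Ioi mL e] at this; simp at this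
  have endy : (γ L).2 = 0 → (T L).2 < 0 := fun e =>
    before (h.d2 mL) e yp fun e2 => by
      have := h.unit L mL
      rw [e2, h.ax2 hΓ isOpen_Ioi mL e] at this; simp at this
  have after : ∃ δ > 0, ∀ w, 0 < w → w < δ → (γ (L + w)).1 < 0 ∨ (γ (L + w)).2 < 0 := by
    rcases mul_eq_zero.1 hL0 with e | e
    · obtain ⟨δ, hδ, k⟩ := RedE_neg (h.d1 mL) e (endx e)
      exact ⟨δ, hδ, fun w h1 h2 => .inl ((k w (by rwa [abs_of_pos h1])).1 h1)⟩
    · obtain ⟨δ, hδ, k⟩ := RedE_neg (h.d2 mL) e (endy e)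
      exact ⟨δ, hδ, fun w h1 h2 => .inr ((k w (by rwa [abs_of_pos h1])).1 h1)⟩
  obtain ⟨δ₂, hδ₂, d2⟩ := after
  refine ⟨L, fun u => (γ u).1, fun u => (γ u).2, fun u => (T u).1, fun u => (T u).2, Lp, cX, cY,
    fun w hw => h.mem w (mI w hw.1), g0, fun w hw => ?_, fun hx => ?_⟩
  · filter_upwards [h.cover hΓ isOpen_Ioi (mI w hw.1) (lt_min hδ₀ hδ₂)] with z hz hzΓ z1 z2
    obtain ⟨v, hv, rfl⟩ := hz hzΓ
    have v1 := abs_lt.1 (hv.trans_le (min_le_left _ _))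
    have v2 := abs_lt.1 (hv.trans_le (min_le_right _ _))
    refine ⟨w + v, ⟨?_, ?_⟩, rfl⟩
    · by_contra e
      have e' := not_le.1 e
      have := (d0 (w + v) (abs_lt.2 ⟨by linarith [hw.1], by linarith⟩)).2 e'
      rw [zero_add] at this
      linarith
    · by_contra e
      have e' := not_le.1 e
      have := d2 (w + v - L) (by linarith) (by linarith [hw.2])
      rw [add_sub_cancel] at this
      rcases this with k | k <;> linarith
  · obtain ⟨w, hw, hw0⟩ := hx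
    have xL : (γ L).1 = 0 := by
      rcases hw.2.eq_or_lt with rfl | e
      · exact hw0
      · exact absurd hw0 (xp w ⟨hw.1, e⟩).ne'
    have sL := h.ax1 hΓ isOpen_Ioi mL xL
    have yL : 0 < (γ L).2 := by
      refine lt_of_le_of_ne ?_ fun e => h.not_origin hΓ isOpen_Ioi mL xL e.symm
      have : L ∈ closure (Ioo 0 L) := by rw [closure_Ioo Lp.ne]; exact right_mem_Icc.2 Lp.le
      exact ContinuousWithinAt.closure_le this continuousWithinAt_const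
        (cy L Lp.le).continuousWithinAt fun u hu => (yp u hu).le
    have inj : ∀ p ∈ Icc 0 L, ∀ q ∈ Icc 0 L, p < q → γ p ≠ γ q := fun p hp q hq hpq e => by
      have k := RedE_return hΓ hε h hp.1 hpq e
      rcases (show q - p ≤ L by linarith [hp.1, hq.2]).eq_or_lt with e2 | e2
      · rw [e2] at k; rw [k, y0] at yL; exact lt_irrefl _ yL
      · have := yp _ ⟨sub_pos.2 hpq, e2⟩
        rw [k, y0] at this; exact lt_irrefl _ this
    have ode := fun w (hw : w ∈ Ioo 0 L) =>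
      h.ode hΓ isOpen_Ioi (mI w hw.1.le) (xp w (Ioo_subset_Ico_self hw)) (yp w hw)
    refine ⟨Lp, cX, cY, fun w hw => (h.cont w (mI w hw.1)).fst.continuousWithinAt,
      fun w hw => (h.cont w (mI w hw.1)).snd.continuousWithinAt, fun w hw => h.unit w (mI w hw.1),
      fun w hw => ⟨xp w (Ioo_subset_Ico_self hw), yp w hw⟩, fun w hw => h.d1 (mI w hw.1.le),
      fun w hw => h.d2 (mI w hw.1.le), fun w hw => ?_, fun w hw => ?_, x0 ▸ ha, y0, T01, T02, xL,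
      yL, ?_, sL, fun p hp q hq e1 e2 => ?_⟩
    · exact ((ContinuousLinearMap.fst ℝ ℝ ℝ).hasFDerivAt.comp_hasDerivAt w (ode w hw)).congr_deriv
        (by simp [mul_comm])
    · exact ((ContinuousLinearMap.snd ℝ ℝ ℝ).hasFDerivAt.comp_hasDerivAt w (ode w hw)).congr_deriv
        (by simp [mul_comm])
    · have k1 := h.unit L mL
      have k2 := endx xL
      rw [sL] at k1
      nlinarith
    · have e : γ p = γ q := Prod.ext e1 e2
      rcases lt_trichotomy p q with k | k | k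
      · exact absurd e (inj p hp q hq k)
      · exact k
      · exact absurd e.symm (inj q hq p hp k)

end Pool.Agent.MP_48470b_gt

end
end

section

/-! With `v > 0` there is no radial tangent. -/

set_option autoImplicit false

open Real Set Filter Topology

namespace Pool.Agent.MP_48470b_gt

namespace Crv

variable (γ : Crv)

noncomputable def qq (t : ℝ) : ℝ := γ.V t ^ 2 / (γ.E t ^ 2 * γ.z t ^ 3)
noncomputable def FF (t : ℝ) : ℝ := γ.E t ^ 2 * γ.z t ^ 3 - 4 * γ.V t ^ 2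

variable {γ}

theorem Sol.dEz {t : ℝ} (h : γ.Sol t) : HasDerivAt (fun t => γ.E t ^ 2 * γ.z t ^ 3)
    (2 * γ.v t * γ.E t ^ 2 * γ.z t ^ 2 * γ.G t) t :=
  hd ((h.dE.mul h.dE).mul ((h.dz.mul h.dz).mul h.dz)) (fun _ => by simp only [Pi.mul_apply]; ring)
    (by simp only [Pi.mul_apply]; unfold G; ring)

theorem Sol.dV2 {t : ℝ} (h : γ.Sol t) : HasDerivAt (fun t => γ.V t ^ 2)
    (2 * γ.V t * (γ.w t * γ.G t)) t :=
  hd (h.dV.mul h.dV) (fun _ => by simp only [Pi.mul_apply]; ring) (by ring)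

theorem Sol.dqq {t : ℝ} (h : γ.Sol t) : HasDerivAt γ.qq
    ((2 * γ.G t * γ.E t ^ 2 * γ.z t ^ 2 * γ.w t ^ 2 * γ.v t * γ.u t ^ 2)
      / (γ.E t ^ 2 * γ.z t ^ 3) ^ 2) t := by
  have hz := h.z_pos
  have hE := γ.E_pos t
  refine hd (h.dV2.div h.dEz (by positivity)) (fun _ => rfl) ?_
  congr 1
  have huv := h.uv
  unfold V
  linear_combination (2 * γ.G t * γ.E t ^ 2 * γ.z t ^ 2 * γ.w t ^ 2 * γ.v t) * huv

theorem Sol.dFF {t : ℝ} (h : γ.Sol t) : HasDerivAt γ.FF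
    (2 * γ.v t * γ.G t * γ.E t ^ 2 * (γ.x t ^ 2 - γ.y t ^ 2) ^ 2) t :=
  hd (h.dEz.sub (h.dV2.const_mul 4)) (fun _ => rfl) (by unfold V w z; ring)

theorem Sol.qq_eq {t : ℝ} (h : γ.Sol t) :
    γ.qq t * γ.z t ^ 3 = (γ.x t * γ.y t * γ.v t) ^ 2 := by
  have hz := h.z_pos.ne'
  have hE := (γ.E_pos t).ne'
  unfold qq V w
  field_simp

theorem Sol.FF_eq {t : ℝ} (h : γ.Sol t) :
    γ.FF t = exp (-γ.z t / 2) * γ.z t ^ 3 * (1 - 4 * γ.qq t) := by
  have hz := h.z_pos.ne'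
  have hE := (γ.E_pos t).ne'
  have h1 : exp (-γ.z t / 2) = γ.E t ^ 2 := by
    unfold E; rw [sq, ← exp_add]; congr 1; ring
  rw [h1]
  unfold FF qq
  field_simp

end Crv

theorem lam_le (z : ℝ) (hz : 0 < z) : exp (-z / 2) * z ^ 3 ≤ exp (-3) * 216 := by
  have h1 : z / 6 ≤ exp ((z - 6) / 6) := by linarith [add_one_le_exp ((z - 6) / 6)]
  have h2 : (z / 6) ^ 3 ≤ exp ((z - 6) / 6) ^ 3 := pow_le_pow_left₀ (by positivity) h1 3
  rw [← exp_nat_mul] at h2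
  have h3 : exp (-z / 2) * exp (((3 : ℕ) : ℝ) * ((z - 6) / 6)) = exp (-3) := by
    rw [← exp_add]; congr 1; push_cast; ring
  have h4 := exp_pos (-z / 2)
  nlinarith [mul_le_mul_of_nonneg_left h2 h4.le]

theorem lam_ge (z : ℝ) (h6 : 6 ≤ z) (h12 : z ≤ 12) : exp (-6) * 1728 ≤ exp (-z / 2) * z ^ 3 := by
  have hz : 0 < z := by linarith
  have h1 : 12 / z ≤ exp ((12 - z) / 6) := by
    have h0 : 12 / z ≤ 1 + (12 - z) / 6 := by
      rw [div_le_iff₀ hz]; nlinarith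
    linarith [add_one_le_exp ((12 - z) / 6)]
  have h2 : (12 / z) ^ 3 ≤ exp ((12 - z) / 6) ^ 3 := pow_le_pow_left₀ (by positivity) h1 3
  rw [← exp_nat_mul, div_pow, div_le_iff₀ (by positivity)] at h2
  have h3 : exp (-6) * exp (((3 : ℕ) : ℝ) * ((12 - z) / 6)) = exp (-z / 2) := by
    rw [← exp_add]; congr 1; push_cast; ring
  have h4 := exp_pos (-6)
  have h5 := mul_le_mul_of_nonneg_left h2 h4.le
  rw [← mul_assoc, h3] at h5
  linarith

theorem exp_three_lt : exp 3 < 21 := by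
  have h1 : exp 3 = exp 1 ^ 3 := by rw [← exp_nat_mul]; norm_num
  have h2 := exp_one_lt_d9
  have h3 : exp 1 ^ 3 < (2.7182818286 : ℝ) ^ 3 :=
    pow_lt_pow_left₀ h2 (exp_pos 1).le (by norm_num)
  rw [h1]; refine h3.trans (by norm_num)

/-- the algebraic inequality of step (c) -/
theorem stepc {x y c s : ℝ} (hx : 0 < x) (hy : 0 < y) (hc : 0 ≤ c) (hs : 0 ≤ s)
    (hcs : c ^ 2 + s ^ 2 = 1) (hz : 6 ≤ x ^ 2 + y ^ 2) (hM : y * c ≤ 31 / 45) :
    (x * y * (x * c + y * s)) ^ 2 < 2 / 9 * (x ^ 2 + y ^ 2) ^ 3 := by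
  obtain ⟨r, hr0, hr⟩ : ∃ r : ℝ, 0 < r ∧ r ^ 2 = x ^ 2 + y ^ 2 :=
    ⟨√(x ^ 2 + y ^ 2), by positivity, sq_sqrt (by positivity)⟩
  have hr1 : 2.449 ≤ r := by nlinarith
  set M := y * c with hMdef
  have hM0 : 0 ≤ M := by positivity
  have hM1 : M ≤ 0.2813 * r := by nlinarith
  have h1 : y * (y * s) ≤ y ^ 2 - M ^ 2 / 2 := by
    have : (y * s) ^ 2 = y ^ 2 - M ^ 2 := by rw [hMdef]; linear_combination (y ^ 2) * hcs
    nlinarith [sq_nonneg (y - y * s)]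
  have hxr : x ≤ r := by nlinarith
  have h2 : x * y * (x * c + y * s) ≤ x * (x * M + (r ^ 2 - x ^ 2) - M ^ 2 / 2) := by
    have : x * y * (x * c + y * s) = x * (x * M + y * (y * s)) := by rw [hMdef]; ring
    rw [this]
    apply mul_le_mul_of_nonneg_left _ hx.le
    linarith
  have h3 : x * (x * M + (r ^ 2 - x ^ 2) - M ^ 2 / 2) ≤ 0.4713 * r ^ 3 := by
    rcases le_total x (0.2813 * r) with h | h
    · have a1 : x * M ≤ (0.2813 * r) * (0.2813 * r) := mul_le_mul h hM1 hM0 (by positivity)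
      have a2 : x * M + (r ^ 2 - x ^ 2) - M ^ 2 / 2 ≤ 1.1 * r ^ 2 := by nlinarith
      have a3 : x * (x * M + (r ^ 2 - x ^ 2) - M ^ 2 / 2) ≤ x * (1.1 * r ^ 2) :=
        mul_le_mul_of_nonneg_left a2 hx.le
      have a4 : x * (1.1 * r ^ 2) ≤ (0.2813 * r) * (1.1 * r ^ 2) :=
        mul_le_mul_of_nonneg_right h (by positivity)
      have a5 : 0 < r ^ 3 := by positivity
      nlinarith
    · have a1 : x * M - M ^ 2 / 2 ≤ x * (0.2813 * r) - (0.2813 * r) ^ 2 / 2 := by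
        nlinarith [mul_nonneg (sub_nonneg.2 hM1) (show 0 ≤ x - (0.2813 * r + M) / 2 by linarith)]
      have a3 : x * (x * M + (r ^ 2 - x ^ 2) - M ^ 2 / 2)
          ≤ x * (x * (0.2813 * r) - (0.2813 * r) ^ 2 / 2 + (r ^ 2 - x ^ 2)) :=
        mul_le_mul_of_nonneg_left (by linarith) hx.le
      have a4 : 0 ≤ (x - 2 / 3 * r) ^ 2 * (x + 1.052 * r) := by positivity
      have a5 : 0 ≤ r ^ 2 * (r - x) := mul_nonneg (by positivity) (by linarith)
      have a6 : 0 ≤ r * x * (r - x) := mul_nonneg (by positivity) (by linarith)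
      have a7 : 0 < r ^ 3 := by positivity
      nlinarith
  have h4 : 0 ≤ x * y * (x * c + y * s) := by positivity
  have h5 : (x * y * (x * c + y * s)) ^ 2 ≤ (0.4713 * r ^ 3) ^ 2 :=
    pow_le_pow_left₀ h4 (h2.trans h3) 2
  rw [← hr]
  have h6 : 0 < r ^ 6 := by positivity
  nlinarith

/-- the algebraic inequality of step (b) -/
theorem stepb {x y c s : ℝ} (hx1 : 3 / 2 ≤ x) (hx2 : x ≤ 9 / 5) (hy : 2.95 ≤ y) (hc : c ≤ 0)
    (hn : (x ^ 2 / 2 - 2) * y * s - (y ^ 2 / 2 - 1) * x * c ≤ 0) :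
    0 ≤ ((x ^ 2 / 2 - 1) * y * s - (y ^ 2 / 2 - 1) * x * c) / (x * y)
      + 1.136 * (1.56 + 4 * (x - 1.65)) * c := by
  have hx : 0 < x := by linarith
  have hy0 : 0 < y := by linarith
  have hd : 0 < 2 - x ^ 2 / 2 := by nlinarith
  have hY : 1.136 * y ≤ y ^ 2 / 2 - 1 := by nlinarith
  have hl : (1.56 + 4 * (x - 1.65)) * (2 - x ^ 2 / 2) ≤ 1 := by
    nlinarith [mul_nonneg (sub_nonneg.2 hx1) (sub_nonneg.2 hx2), sq_nonneg (x - 1.65),
      mul_nonneg (sub_nonneg.2 hx1) (sq_nonneg (x - 1.65))]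
  have hc' : 0 ≤ -c := by linarith
  have h1 : (y ^ 2 / 2 - 1) * x * (-c)
      ≤ ((x ^ 2 / 2 - 1) * y * s - (y ^ 2 / 2 - 1) * x * c) * (2 - x ^ 2 / 2) := by
    have hp : 0 ≤ x ^ 2 / 2 - 1 := by nlinarith
    nlinarith [mul_nonneg hp (neg_nonneg.2 hn)]
  have h2 : 1.136 * y * x * (-c) ≤ (y ^ 2 / 2 - 1) * x * (-c) := by
    have : 0 ≤ x * (-c) := by positivity
    nlinarith
  have h3 : 1.136 * (1.56 + 4 * (x - 1.65)) * (-c) * (x * y) * (2 - x ^ 2 / 2)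
      ≤ 1.136 * y * x * (-c) := by
    have : 0 ≤ 1.136 * y * x * (-c) := by positivity
    nlinarith
  have h4 : 1.136 * (1.56 + 4 * (x - 1.65)) * (-c) * (x * y)
      ≤ (x ^ 2 / 2 - 1) * y * s - (y ^ 2 / 2 - 1) * x * c :=
    le_of_mul_le_mul_right (by linarith) hd
  have h5 : 1.136 * (1.56 + 4 * (x - 1.65)) * (-c)
      ≤ ((x ^ 2 / 2 - 1) * y * s - (y ^ 2 / 2 - 1) * x * c) / (x * y) := by
    rw [le_div_iff₀ (by positivity)]; exact h4
  linarith

theorem arctan_le_self' {t : ℝ} (ht : 0 ≤ t) : arctan t ≤ t := by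
  have := le_tan (arctan_nonneg.2 ht) (arctan_lt_pi_div_two t)
  rwa [tan_arctan] at this

namespace Crv.Prof

variable {γ : Crv} {L : ℝ}

/-- step (b) -/
theorem after_max (h : γ.Prof L) (hv : ∀ t ∈ Ioo 0 L, 0 < γ.v t) {T : ℝ} (hT : T ∈ Ioo 0 L)
    (hc : γ.c T = 0) (hz : 12 < γ.z T) : γ.x T ≤ 9 / 5 := by
  by_contra hn
  push Not at hn
  have hL : L ∈ Icc 0 L := ⟨h.hL.le, le_rfl⟩
  have hT' := Ioo_subset_Icc_self hT
  have hcs := h.c_stay hv hT hc.le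
  have hanti : ∀ a ∈ Icc T L, ∀ b ∈ Icc T L, a ≤ b → γ.x b ≤ γ.x a := fun a ha b hb hab =>
    anti_of_deriv hab (h.cx.mono (Icc_subset_Icc (hT'.1.trans ha.1) hb.2))
      (fun t ht => (h.sol t ⟨lt_of_lt_of_le hT.1 (ha.1.trans ht.1.le), lt_of_lt_of_le ht.2 hb.2⟩).dx)
      (fun t ht => hcs t ⟨ha.1.trans ht.1.le, ht.2.le.trans hb.2⟩)
  obtain ⟨t1, ht1, hx1⟩ := intermediate_value_Icc' hT.2.le (h.cx.mono (h.sub_Icc hT' hL))
    (show (9 / 5 : ℝ) ∈ Icc (γ.x L) (γ.x T) by rw [h.xL]; exact ⟨by norm_num, hn.le⟩)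
  have ht1' : t1 ∈ Icc 0 L := h.sub_Icc hT' hL ht1
  obtain ⟨t2, ht2, hx2⟩ := intermediate_value_Icc' ht1.2 (h.cx.mono (h.sub_Icc ht1' hL))
    (show (3 / 2 : ℝ) ∈ Icc (γ.x L) (γ.x t1) by rw [h.xL, hx1]; norm_num)
  have ht2L : t2 < L := lt_of_le_of_ne ht2.2 (fun h0 => by rw [h0, h.xL] at hx2; norm_num at hx2)
  have hI : ∀ t ∈ Icc t1 t2, t ∈ Ioo 0 L := fun t ht =>
    ⟨lt_of_lt_of_le hT.1 (ht1.1.trans ht.1), lt_of_le_of_lt ht.2 ht2L⟩
  have hI2 : ∀ t ∈ Icc t1 t2, t ∈ Icc T L := fun t ht => ⟨ht1.1.trans ht.1, ht.2.trans ht2.2⟩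
  have hxr : ∀ t ∈ Icc t1 t2, 3 / 2 ≤ γ.x t ∧ γ.x t ≤ 9 / 5 := fun t ht =>
    ⟨hx2 ▸ hanti t (hI2 t ht) t2 ⟨ht1.1.trans ht2.1, ht2.2⟩ ht.2,
      hx1 ▸ hanti t1 ht1 t (hI2 t ht) ht.1⟩
  have hyr : ∀ t ∈ Icc t1 t2, 2.95 ≤ γ.y t := fun t ht => by
    have h1 := h.z_le hv hT' (Ioo_subset_Icc_self (hI t ht)) (hI2 t ht).1
    have h2 := hxr t ht
    have h3 := (h.sol t (hI t ht)).py
    unfold z at h1 hz
    nlinarith
  have hder : ∀ t ∈ Icc t1 t2, HasDerivAt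
      (fun t => arctan (-γ.c t / γ.s t) + 1.136 * (1.56 * γ.x t + 2 * (γ.x t - 1.65) ^ 2))
      (γ.k t + 1.136 * (1.56 + 4 * (γ.x t - 1.65)) * γ.c t) t := fun t ht => by
    have hS := h.sol t (hI t ht)
    have hs := h.s_pos hv (hI t ht)
    refine hd ((hS.dc.neg.div hS.ds hs.ne').arctan.add (((hS.dx.const_mul 1.56).add
      (((hS.dx.sub_const 1.65).mul (hS.dx.sub_const 1.65)).const_mul 2)).const_mul 1.136))
      (fun _ => by simp only [Pi.add_apply, Pi.mul_apply, Pi.div_apply, Pi.neg_apply]; ring) ?_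
    simp only [Pi.div_apply, Pi.neg_apply]
    have hcs := hS.cs
    have e1 : 1 + (-γ.c t / γ.s t) ^ 2 = 1 / γ.s t ^ 2 := by
      field_simp; linarith
    rw [e1]
    field_simp
    linear_combination (-γ.k t) * hcs
  have hmono := mono_of_deriv ht2.1 (fun t ht => (hder t ht).continuousAt.continuousWithinAt)
    (fun t ht => hder t (Ioo_subset_Icc_self ht)) (fun t ht => by
      have ht' := Ioo_subset_Icc_self ht
      have := stepb (hxr t ht').1 (hxr t ht').2 (hyr t ht') (hcs t (hI2 t ht'))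
        (h.n1_nonpos hv (hI t ht'))
      rw [(h.sol t (hI t ht')).k_eq]
      exact this)
  have m1 : t1 ∈ Icc t1 t2 := ⟨le_rfl, ht2.1⟩
  have m2 : t2 ∈ Icc t1 t2 := ⟨ht2.1, le_rfl⟩
  have b1 : 0 ≤ arctan (-γ.c t1 / γ.s t1) :=
    arctan_nonneg.2 (div_nonneg (by linarith [hcs t1 ht1]) (h.s_pos hv (hI t1 m1)).le)
  have hs2 := h.s_pos hv (hI t2 m2)
  have hc2 := hcs t2 (hI2 t2 m2)
  have b2 : arctan (-γ.c t2 / γ.s t2) ≤ -γ.c t2 / γ.s t2 :=
    arctan_le_self' (div_nonneg (by linarith) hs2.le)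
  have b3 : -γ.c t2 / γ.s t2 ≤ 0.52 := by
    rw [div_le_iff₀ hs2]
    have h1 := h.n1_nonpos hv (hI t2 m2)
    unfold n1 at h1
    rw [hx2] at h1
    have hy := hyr t2 m2
    have hY : 1.136 * γ.y t2 ≤ γ.y t2 ^ 2 / 2 - 1 := by nlinarith
    have h2 : 1.136 * γ.y t2 * (-γ.c t2) ≤ (γ.y t2 ^ 2 / 2 - 1) * (-γ.c t2) :=
      mul_le_mul_of_nonneg_right hY (by linarith)
    have h3 : γ.y t2 * (1.704 * (-γ.c t2)) ≤ γ.y t2 * (0.875 * γ.s t2) := by nlinarith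
    have h4 := le_of_mul_le_mul_left h3 (by linarith)
    linarith
  simp only [hx1, hx2] at hmono
  norm_num at hmono
  linarith

/-- With `v > 0` there is no radial tangent. -/
theorem final (h : γ.Prof L) (hv : ∀ t ∈ Ioo 0 L, 0 < γ.v t) :
    ∀ P ∈ Ioo 0 L, γ.u P ≠ 0 := by
  intro P hP hu
  have hL : L ∈ Icc 0 L := ⟨h.hL.le, le_rfl⟩
  have hP' := Ioo_subset_Icc_self hP
  have hS := h.sol P hP
  have hsP := h.s_pos hv hP
  have hcP : 0 < γ.c P := by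
    have h1 := hS.px
    have h2 := hS.py
    unfold u at hu
    by_contra hn
    push Not at hn
    nlinarith [mul_pos h1 hsP, mul_nonneg h2.le (neg_nonneg.2 hn)]
  -- the value of `qq` at `P`
  have hqP : 2 / 9 ≤ γ.qq P := by
    have h1 := h.n1_nonpos hv hP
    have h2 := h.n2_nonneg hv hP
    have hx := hS.px
    have hy := hS.py
    have hz := hS.z_pos
    have e0 : γ.x P * γ.s P = γ.y P * γ.c P := by unfold u at hu; linarith
    have e1 : γ.x P * γ.n1 P = γ.c P * (γ.x P ^ 2 - 2 * γ.y P ^ 2) := by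
      unfold n1; linear_combination ((γ.x P ^ 2 / 2 - 2) * γ.y P) * e0
    have e2 : γ.x P * γ.n2 P = γ.c P * (2 * γ.x P ^ 2 - γ.y P ^ 2) := by
      unfold n2; linear_combination ((γ.x P ^ 2 / 2 - 1) * γ.y P) * e0
    have f1 : γ.x P ^ 2 - 2 * γ.y P ^ 2 ≤ 0 := by
      by_contra hn
      push Not at hn
      nlinarith [mul_pos hcP hn, mul_nonneg hx.le (neg_nonneg.2 h1)]
    have f2 : 0 ≤ 2 * γ.x P ^ 2 - γ.y P ^ 2 := by
      by_contra hn
      push Not at hn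
      nlinarith [mul_pos hcP (neg_pos.2 hn), mul_nonneg hx.le h2]
    have e3 : γ.v P ^ 2 = γ.z P := by have := hS.uv; rw [hu] at this; linarith
    have e4 := hS.qq_eq
    have e5 : 2 / 9 * γ.z P ^ 3 ≤ (γ.x P * γ.y P * γ.v P) ^ 2 := by
      rw [mul_pow, e3]
      have : 2 / 9 * γ.z P ^ 2 ≤ (γ.x P * γ.y P) ^ 2 := by
        unfold z; nlinarith [mul_nonneg f2 (neg_nonneg.2 f1)]
      nlinarith
    rw [← e4] at e5
    exact le_of_mul_le_mul_right e5 (by positivity)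
  -- the first vertical tangent after `P`
  obtain ⟨T0, hT0, hc0⟩ := intermediate_value_Icc' hP.2.le (h.cc.mono (h.sub_Icc hP' hL))
    (show (0 : ℝ) ∈ Icc (γ.c L) (γ.c P) by rw [h.cL]; exact ⟨by norm_num, hcP.le⟩)
  have hPT0 : P < T0 := lt_of_le_of_ne hT0.1 (fun h0 => by rw [← h0] at hc0; linarith)
  obtain ⟨T, hT1, hcT, hT2⟩ := exists_first_zero hPT0
    (h.cc.mono (h.sub_Icc hP' (h.sub_Icc hP' hL hT0))) hc0
    ((hS.dc.continuousAt.eventually_ne hcP.ne').filter_mono nhdsWithin_le_nhds)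
  have hT : T ∈ Ioo 0 L := ⟨hP.1.trans hT1.1, lt_of_le_of_ne (hT1.2.trans hT0.2)
    (fun h0 => by rw [h0, h.cL] at hcT; norm_num at hcT)⟩
  have hT' := Ioo_subset_Icc_self hT
  have hI : ∀ t ∈ Icc P T, t ∈ Ioo 0 L := fun t ht =>
    ⟨lt_of_lt_of_le hP.1 ht.1, lt_of_le_of_lt ht.2 hT.2⟩
  have hcpos : ∀ t ∈ Ico P T, 0 < γ.c t :=
    pos_of_ne isPreconnected_Ico
      (h.cc.mono (fun t ht => Ioo_subset_Icc_self (hI t (Ico_subset_Icc_self ht))))
      (fun t ht => by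
        rcases ht.1.eq_or_lt with h0 | h0
        · rw [← h0]; exact hcP.ne'
        · exact hT2 t ⟨h0, ht.2⟩) ⟨le_rfl, hT1.1⟩ hcP
  have hST := h.sol T hT
  obtain ⟨hsT, hxT⟩ := h.vert hv hT hcT
  have hqT : γ.qq T ≤ 4 / 27 := by
    have e4 := hST.qq_eq
    have hz := hST.z_pos
    have e5 : (γ.x T * γ.y T * γ.v T) ^ 2 ≤ 4 / 27 * γ.z T ^ 3 := by
      unfold v z
      rw [hcT, hsT]
      nlinarith [mul_nonneg (sq_nonneg (2 * γ.x T ^ 2 - γ.y T ^ 2))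
        (show 0 ≤ γ.x T ^ 2 + 4 * γ.y T ^ 2 by positivity)]
    rw [← e4] at e5
    exact le_of_mul_le_mul_right e5 (by positivity)
  have hqmono : ∀ b ∈ Icc P T, γ.z b ≤ 6 → γ.qq P ≤ γ.qq b := fun b hb hzb =>
    mono_of_deriv hb.1
      (fun t ht => (h.sol t (hI t ⟨ht.1, ht.2.trans hb.2⟩)).dqq.continuousAt.continuousWithinAt)
      (fun t ht => (h.sol t (hI t ⟨ht.1.le, ht.2.le.trans hb.2⟩)).dqq) (fun t ht => by
        have ht' := hI t ⟨ht.1.le, ht.2.le.trans hb.2⟩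
        have h1 := h.z_le hv (Ioo_subset_Icc_self ht') (Ioo_subset_Icc_self (hI b hb)) ht.2.le
        have h2 : 0 ≤ γ.G t := by unfold G; linarith
        have h3 := hv t ht'
        positivity)
  have hzT : 6 < γ.z T := by
    by_contra hn
    push Not at hn
    linarith [hqmono T ⟨hT1.1.le, le_rfl⟩ hn]
  obtain ⟨Q, hQ, hzQ, hqQ⟩ : ∃ Q ∈ Ico P T, 6 ≤ γ.z Q ∧ 2 / 9 ≤ γ.qq Q := by
    rcases le_total 6 (γ.z P) with h6 | h6
    · exact ⟨P, ⟨le_rfl, hT1.1⟩, h6, hqP⟩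
    · obtain ⟨C, hC, hzC⟩ := intermediate_value_Icc hT1.1.le (h.cz.mono (h.sub_Icc hP' hT'))
        (show (6 : ℝ) ∈ Icc (γ.z P) (γ.z T) from ⟨h6, hzT.le⟩)
      refine ⟨C, ⟨hC.1, lt_of_le_of_ne hC.2 (fun h0 => by rw [h0] at hzC; linarith)⟩, hzC.ge,
        hqP.trans (hqmono C hC hzC.le)⟩
  have hJ : ∀ t ∈ Icc Q T, t ∈ Ioo 0 L := fun t ht => hI t ⟨hQ.1.trans ht.1, ht.2⟩
  have hQ' := hJ Q ⟨le_rfl, hQ.2.le⟩
  have hSQ := h.sol Q hQ'
  -- step (a)
  have hz12 : 12 < γ.z T := by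
    by_contra hn
    push Not at hn
    have h1 := anti_of_deriv hQ.2.le
      (fun t ht => (h.sol t (hJ t ht)).dFF.continuousAt.continuousWithinAt)
      (fun t ht => (h.sol t (hJ t (Ioo_subset_Icc_self ht))).dFF) (fun t ht => by
        have ht' := hJ t (Ioo_subset_Icc_self ht)
        have h1 := h.z_le hv (Ioo_subset_Icc_self hQ') (Ioo_subset_Icc_self ht') ht.1.le
        have h2 : 0 ≤ -γ.G t := by unfold G; linarith
        have h3 := hv t ht'
        have : 0 ≤ 2 * γ.v t * (-γ.G t) * γ.E t ^ 2 * (γ.x t ^ 2 - γ.y t ^ 2) ^ 2 := by positivity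
        linarith)
    rw [hST.FF_eq, hSQ.FF_eq] at h1
    have h2 := lam_ge _ hzT.le hn
    have h3 := lam_le _ hSQ.z_pos
    have h4 : exp (-6) * 1728 * (11 / 27) ≤ exp (-γ.z T / 2) * γ.z T ^ 3 * (1 - 4 * γ.qq T) :=
      mul_le_mul h2 (by linarith) (by norm_num) (by have := hST.z_pos; positivity)
    have h5 : exp (-γ.z Q / 2) * γ.z Q ^ 3 * (1 - 4 * γ.qq Q) ≤ exp (-3) * 216 * (1 / 9) := by
      have := hSQ.z_pos
      calc _ ≤ exp (-γ.z Q / 2) * γ.z Q ^ 3 * (1 / 9) :=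
            mul_le_mul_of_nonneg_left (by linarith) (by positivity)
        _ ≤ _ := mul_le_mul_of_nonneg_right h3 (by norm_num)
    have h6 : exp (-3 : ℝ) = exp (-6) * exp 3 := by rw [← exp_add]; norm_num
    have h7 := exp_three_lt
    have h8 := exp_pos (-6 : ℝ)
    nlinarith
  -- step (b)
  have hx95 := h.after_max hv hT hcT hz12
  -- step (c)
  have hxle : ∀ t ∈ Icc Q T, γ.x t ≤ γ.x T := fun t ht =>
    mono_of_deriv ht.2 (h.cx.mono (h.sub_Icc (Ioo_subset_Icc_self (hJ t ht)) hT'))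
      (fun s hs => (h.sol s (hJ s ⟨ht.1.trans hs.1.le, hs.2.le⟩)).dx)
      (fun s hs => (hcpos s ⟨hQ.1.trans (ht.1.trans hs.1.le), hs.2⟩).le)
  have hder : ∀ t ∈ Icc Q T, HasDerivAt
      (fun t => exp (-(γ.y t ^ 2) / 4) * (γ.y t * γ.c t - 31 / 45))
      (exp (-(γ.y t ^ 2) / 4) * (γ.y t * γ.s t)
        * (31 / 90 - (γ.x t / 2 - 1 / γ.x t) * γ.s t)) t := fun t ht => by
    have hS := h.sol t (hJ t ht)
    refine hd ((hS.dy2.neg.div_const 4).exp.mul ((hS.dy.mul hS.dc).sub_const (31 / 45)))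
      (fun _ => rfl) ?_
    simp only [Pi.mul_apply, Pi.neg_apply]
    have hy := hS.py.ne'
    unfold k
    field_simp
    ring
  have hmono := mono_of_deriv hQ.2.le (fun t ht => (hder t ht).continuousAt.continuousWithinAt)
    (fun t ht => hder t (Ioo_subset_Icc_self ht)) (fun t ht => by
      have ht' := Ioo_subset_Icc_self ht
      have hS := h.sol t (hJ t ht')
      have hs := h.s_pos hv (hJ t ht')
      have hx := hS.px
      have hy := hS.py
      have hs1 : γ.s t ≤ 1 := by nlinarith [hS.cs, sq_nonneg (γ.c t)]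
      have hx2 : γ.x t ≤ 9 / 5 := (hxle t ht').trans hx95
      have hX : γ.x t / 2 - 1 / γ.x t ≤ 31 / 90 := by
        have : 5 / 9 ≤ 1 / γ.x t := by rw [le_div_iff₀ hx]; linarith
        linarith
      have : 0 ≤ 31 / 90 - (γ.x t / 2 - 1 / γ.x t) * γ.s t := by nlinarith
      positivity)
  simp only [hcT] at hmono
  have hM : γ.y Q * γ.c Q ≤ 31 / 45 := by
    by_contra hn
    push Not at hn
    have h1 := exp_pos (-(γ.y Q ^ 2) / 4)
    have h2 := exp_pos (-(γ.y T ^ 2) / 4)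
    nlinarith [mul_pos h1 (sub_pos.2 hn)]
  have hfin := stepc hSQ.px hSQ.py (hcpos Q hQ).le (h.s_pos hv hQ').le hSQ.cs hzQ hM
  have e4 := hSQ.qq_eq
  have hz := hSQ.z_pos
  have e5 : 2 / 9 * γ.z Q ^ 3 ≤ γ.qq Q * γ.z Q ^ 3 :=
    mul_le_mul_of_nonneg_right hqQ (by positivity)
  unfold v z at e4
  unfold z at e5
  linarith

end Crv.Prof

end Pool.Agent.MP_48470b_gt

end

section

/-! Abstract tools for the ordering of polar strands. -/

set_option autoImplicit false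

open Real Set Filter Topology

namespace Pool.Agent.MP_48470b_gt

theorem exists_inv {f : ℝ → ℝ} {K : Set ℝ} (hK : IsCompact K) (hc : ContinuousOn f K)
    (hi : InjOn f K) : ∃ g : ℝ → ℝ, ContinuousOn g (f '' K) ∧ (∀ t ∈ K, g (f t) = t) := by
  refine ⟨Function.invFunOn f K, ?_, fun t ht => hi.leftInvOn_invFunOn ht⟩
  rw [continuousOn_iff_isClosed]
  intro t ht
  refine ⟨f '' (K ∩ t), ((hK.inter_right ht).image_of_continuousOn
    (hc.mono inter_subset_left)).isClosed, ?_⟩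
  ext m
  constructor
  · rintro ⟨h1, a, ha, rfl⟩
    rw [mem_preimage, hi.leftInvOn_invFunOn ha] at h1
    exact ⟨⟨a, ⟨ha, h1⟩, rfl⟩, ⟨a, ha, rfl⟩⟩
  · rintro ⟨⟨a, ha, rfl⟩, h2⟩
    refine ⟨?_, h2⟩
    rw [mem_preimage, hi.leftInvOn_invFunOn ha.1]
    exact ha.2

/-- enumeration of a finite set inside an interval -/
theorem exists_enum (S : Finset ℝ) : ∀ L : ℝ, 0 < L → (∀ t ∈ S, t ∈ Ioo 0 L) →
    ∃ (n : ℕ) (τ : ℕ → ℝ), τ 0 = 0 ∧ τ (n + 1) = L ∧ (∀ k ≤ n, τ k < τ (k + 1)) ∧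
      (∀ k, 1 ≤ k → k ≤ n → τ k ∈ S) ∧ (∀ k ≤ n, ∀ t ∈ Ioo (τ k) (τ (k + 1)), t ∉ S) ∧
      (∀ t ∈ S, ∃ k, 1 ≤ k ∧ k ≤ n ∧ τ k = t) := by
  induction S using Finset.induction_on_max with
  | empty =>
    intro L hL _
    refine ⟨0, fun k => if k = 0 then 0 else L, by simp, by simp, ?_, ?_, ?_, ?_⟩
    · intro k hk
      obtain rfl : k = 0 := by omega
      simpa using hL
    · intro k h1 h2; omega
    · intro k _ t _; simp
    · intro t ht; simp at ht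
  | insert a s ha ih =>
    intro L hL hS
    have haL := hS a (Finset.mem_insert_self a s)
    obtain ⟨n, τ, h0, h1, h2, h3, h4, h5⟩ := ih a haL.1
      (fun t ht => ⟨(hS t (Finset.mem_insert_of_mem ht)).1, ha t ht⟩)
    have hmono : ∀ j k, k ≤ j → j ≤ n + 1 → τ k ≤ τ j := by
      intro j
      induction j with
      | zero => intro k hk _; obtain rfl : k = 0 := by omega
                exact le_rfl
      | succ j ihj =>
        intro k hk hj
        rcases Nat.lt_or_ge k (j + 1) with h | h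
        · exact (ihj k (by omega) (by omega)).trans (h2 j (by omega)).le
        · obtain rfl : k = j + 1 := by omega
          exact le_rfl
    refine ⟨n + 1, fun k => if k ≤ n + 1 then τ k else L, by simp [h0], by simp, ?_, ?_, ?_, ?_⟩
    · intro k hk
      rcases Nat.lt_or_ge k (n + 1) with h | h
      · simp only [show k ≤ n + 1 by omega, show k + 1 ≤ n + 1 by omega, if_true]
        exact h2 k (by omega)
      · obtain rfl : k = n + 1 := by omega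
        simp only [le_refl, if_true, show ¬ (n + 1 + 1 ≤ n + 1) by omega, if_false, h1]
        exact haL.2
    · intro k hk1 hk
      simp only [hk, if_true]
      rcases Nat.lt_or_ge k (n + 1) with h | h
      · exact Finset.mem_insert_of_mem (h3 k hk1 (by omega))
      · obtain rfl : k = n + 1 := by omega
        rw [h1]; exact Finset.mem_insert_self a s
    · intro k hk t ht
      rcases Nat.lt_or_ge k (n + 1) with h | h
      · simp only [show k ≤ n + 1 by omega, show k + 1 ≤ n + 1 by omega, if_true] at ht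
        rw [Finset.mem_insert]
        rintro (h6 | h6)
        · have := hmono (n + 1) (k + 1) (by omega) le_rfl
          rw [h1] at this
          linarith [ht.2]
        · exact h4 k (by omega) t ht h6
      · obtain rfl : k = n + 1 := by omega
        simp only [le_refl, if_true, h1] at ht
        rw [Finset.mem_insert]
        rintro (h6 | h6)
        · linarith [ht.1]
        · linarith [ht.1, ha t h6]
    · intro t ht
      rw [Finset.mem_insert] at ht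
      rcases ht with rfl | ht
      · exact ⟨n + 1, by omega, le_rfl, by simp [h1]⟩
      · obtain ⟨k, hk1, hk2, hk3⟩ := h5 t ht
        exact ⟨k, hk1, by omega, by simp [show k ≤ n + 1 by omega, hk3]⟩

/-- if rank-neighbours are index-neighbours there is no interior local minimum -/
theorem path_lemma {n : ℕ} {f : ℕ → ℝ} (hinj : ∀ i ≤ n, ∀ j ≤ n, f i = f j → i = j)
    (hadj : ∀ i ≤ n, ∀ j ≤ n, f i < f j → (∀ k ≤ n, ¬ (f i < f k ∧ f k < f j)) →
      i + 1 = j ∨ j + 1 = i)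
    {k : ℕ} (hk : k + 2 ≤ n) (h1 : f (k + 1) < f k) (h2 : f (k + 1) < f (k + 2)) : False := by
  classical
  have key : ∀ (B : ℕ → Prop) [DecidablePred B] (b : ℕ), b ≤ n → B b → f (k + 1) < f b →
      ¬ B (k + 1) →
      (∀ i j, ¬ B i → B j → (i + 1 = j ∨ j + 1 = i) → i = k + 1 ∧ j = b) →
      ∀ l ≤ n, ¬ (f (k + 1) < f l ∧ f l < f b) := by
    intro B _ b hb hB hfb hnB hstep
    obtain ⟨j0, hj0, hj1⟩ := ((Finset.range (n + 1)).filter (fun j => B j ∧ f (k + 1) < f j)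
      ).exists_min_image f ⟨b, by simp [hB, hfb]; omega⟩
    simp only [Finset.mem_filter, Finset.mem_range] at hj0 hj1
    obtain ⟨i0, hi0, hi1⟩ := ((Finset.range (n + 1)).filter (fun i => f i < f j0)
      ).exists_max_image f ⟨k + 1, by simp [hj0.2.2]; omega⟩
    simp only [Finset.mem_filter, Finset.mem_range] at hi0 hi1
    have hbetween : ∀ l ≤ n, ¬ (f i0 < f l ∧ f l < f j0) := fun l hl h =>
      absurd (hi1 l ⟨by omega, h.2⟩) (not_le.2 h.1)
    have hj := hadj i0 (by omega) j0 (by omega) hi0.2 hbetween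
    have hge := hi1 (k + 1) ⟨by omega, hj0.2.2⟩
    have hnBi : ¬ B i0 := by
      intro hBi
      rcases hge.eq_or_lt with h | h
      · have := hinj (k + 1) (by omega) i0 (by omega) h
        rw [← this] at hBi; exact hnB hBi
      · exact absurd (hj1 i0 ⟨hi0.1, hBi, h⟩) (not_le.2 hi0.2)
    obtain ⟨e1, e2⟩ := hstep i0 j0 hnBi hj0.2.1 hj
    rw [e1, e2] at hbetween
    exact hbetween
  have a1 := key (fun j => k + 1 < j) (k + 2) hk (by omega) h2 (by omega)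
    (fun i j hi hj h => by omega)
  have a2 := key (fun j => j < k + 1) k (by omega) (by omega) h1 (by omega)
    (fun i j hi hj h => by omega)
  rcases lt_trichotomy (f k) (f (k + 2)) with h | h | h
  · exact a1 k (by omega) ⟨h1, h⟩
  · have := hinj k (by omega) (k + 2) hk h
    omega
  · exact a2 (k + 2) hk ⟨h2, h⟩

/-- Abstract polar data: `μ` is the polar parameter, `z` the radial one. -/
structure Ab (L : ℝ) (μ z u v ρ : ℝ → ℝ) (n : ℕ) (τ d : ℕ → ℝ) : Prop where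
  cμ : ContinuousOn μ (Icc 0 L)
  cz : ContinuousOn z (Icc 0 L)
  cu : ContinuousOn u (Icc 0 L)
  cv : ContinuousOn v (Icc 0 L)
  dμ : ∀ t ∈ Ioo 0 L, HasDerivAt μ (ρ t * u t) t
  ρpos : ∀ t ∈ Ioo 0 L, 0 < ρ t
  dz : ∀ t ∈ Ioo 0 L, HasDerivAt z (2 * v t) t
  inj : ∀ t ∈ Icc 0 L, ∀ t' ∈ Icc 0 L, μ t = μ t' → z t = z t' → t = t'
  τ0 : τ 0 = 0
  τL : τ (n + 1) = L
  τlt : ∀ k ≤ n, τ k < τ (k + 1)
  uz : ∀ k, 1 ≤ k → k ≤ n → u (τ k) = 0 ∧ v (τ k) ≠ 0
  une : ∀ k ≤ n, ∀ t ∈ Ioo (τ k) (τ (k + 1)), u t ≠ 0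
  dmem : ∀ k ≤ n, d k ∈ Ioo (τ k) (τ (k + 1))
  dzero : ∀ k ≤ n, μ (d k) = 0
  ext : ∀ e, (e = 0 ∨ e = L) → 0 < μ e → ∀ t ∈ Icc 0 L, t ≠ e → μ t < μ e

namespace Ab

variable {L : ℝ} {μ z u v ρ : ℝ → ℝ} {n : ℕ} {τ d : ℕ → ℝ}

theorem negz (h : Ab L μ z u v ρ n τ d) : Ab L μ (fun t => -z t) u (fun t => -v t) ρ n τ d :=
  ⟨h.cμ, h.cz.neg, h.cu, h.cv.neg, h.dμ, h.ρpos,
    fun t ht => hd (h.dz t ht).neg (fun _ => rfl) (by ring),
    fun t ht t' ht' h1 h2 => h.inj t ht t' ht' h1 (neg_injective h2), h.τ0, h.τL, h.τlt,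
    fun k h1 h2 => ⟨(h.uz k h1 h2).1, neg_ne_zero.2 (h.uz k h1 h2).2⟩, h.une, h.dmem, h.dzero,
    h.ext⟩

theorem τ_lt (h : Ab L μ z u v ρ n τ d) : ∀ j k, k < j → j ≤ n + 1 → τ k < τ j := by
  intro j
  induction j with
  | zero => intro k hk _; omega
  | succ j ihj =>
    intro k hk hj
    rcases Nat.lt_or_ge k j with h1 | h1
    · exact (ihj k h1 (by omega)).trans (h.τlt j (by omega))
    · obtain rfl : k = j := by omega
      exact h.τlt k (by omega)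

theorem τ_le (h : Ab L μ z u v ρ n τ d) {j k : ℕ} (h1 : k ≤ j) (h2 : j ≤ n + 1) : τ k ≤ τ j := by
  rcases h1.eq_or_lt with h3 | h3
  · rw [h3]
  · exact (h.τ_lt j k h3 h2).le

theorem sub (h : Ab L μ z u v ρ n τ d) {k : ℕ} (hk : k ≤ n) :
    Icc (τ k) (τ (k + 1)) ⊆ Icc 0 L :=
  Icc_subset_Icc (h.τ0 ▸ h.τ_le (Nat.zero_le k) (by omega)) (h.τL ▸ h.τ_le (by omega) le_rfl)

theorem sub' (h : Ab L μ z u v ρ n τ d) {k : ℕ} (hk : k ≤ n) :
    Ioo (τ k) (τ (k + 1)) ⊆ Ioo 0 L :=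
  Ioo_subset_Ioo (h.τ0 ▸ h.τ_le (Nat.zero_le k) (by omega)) (h.τL ▸ h.τ_le (by omega) le_rfl)

/-- closed strands meet only when equal or consecutive -/
theorem meet (h : Ab L μ z u v ρ n τ d) {i j : ℕ} (hi : i ≤ n) (hj : j ≤ n) {t : ℝ}
    (h1 : t ∈ Icc (τ i) (τ (i + 1))) (h2 : t ∈ Icc (τ j) (τ (j + 1))) :
    i = j ∨ i + 1 = j ∨ j + 1 = i := by
  by_contra hn
  rcases Nat.lt_or_ge i j with h3 | h3
  · have := h.τ_lt j (i + 1) (by omega) (by omega)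
    linarith [h1.2, h2.1]
  · have := h.τ_lt i (j + 1) (by omega) (by omega)
    linarith [h1.1, h2.2]

theorem meet' (h : Ab L μ z u v ρ n τ d) {i j : ℕ} (hi : i ≤ n) (hj : j ≤ n) {t : ℝ}
    (h1 : t ∈ Ioo (τ i) (τ (i + 1))) (h2 : t ∈ Ioo (τ j) (τ (j + 1))) : i = j := by
  by_contra hn
  rcases Nat.lt_or_ge i j with h3 | h3
  · have := h.τ_le (j := j) (k := i + 1) (by omega) (by omega)
    linarith [h1.2, h2.1]
  · have := h.τ_le (j := i) (k := j + 1) (by omega) (by omega)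
    linarith [h1.1, h2.2]

/-- the strand `k` as a graph over the polar parameter -/
structure Gr (μ u ρ : ℝ → ℝ) (a b d0 : ℝ) (g : ℝ → ℝ) (tl th : ℝ) : Prop where
  ends : (tl = a ∧ th = b) ∨ (tl = b ∧ th = a)
  lo : μ tl < 0
  hi : 0 < μ th
  cg : ContinuousOn g (Icc (μ tl) (μ th))
  gμ : ∀ t ∈ Icc a b, g (μ t) = t
  μmem : ∀ t ∈ Ioo a b, μ t ∈ Ioo (μ tl) (μ th)
  μg : ∀ m ∈ Icc (μ tl) (μ th), μ (g m) = m
  gmem : ∀ m ∈ Icc (μ tl) (μ th), g m ∈ Icc a b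
  gmem' : ∀ m ∈ Ioo (μ tl) (μ th), g m ∈ Ioo a b
  dg : ∀ m ∈ Ioo (μ tl) (μ th), HasDerivAt g (ρ (g m) * u (g m))⁻¹ m
  sgn : ∀ t ∈ Ioo a b, 0 < u t * (th - d0)
  side : ∀ t ∈ Ioo a b, 0 < (th - t) * (th - d0)

theorem graph (h : Ab L μ z u v ρ n τ d) {k : ℕ} (hk : k ≤ n) :
    ∃ g tl th, Gr μ u ρ (τ k) (τ (k + 1)) (d k) g tl th := by
  have hab := h.τlt k hk
  have hd0 := h.dmem k hk
  have hcu : ContinuousOn u (Ioo (τ k) (τ (k + 1))) :=
    h.cu.mono (Ioo_subset_Icc_self.trans (h.sub hk))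
  have hcμ := h.cμ.mono (h.sub hk)
  -- common construction
  have main : ∀ tl th : ℝ, ((tl = τ k ∧ th = τ (k + 1)) ∨ (tl = τ (k + 1) ∧ th = τ k)) →
      InjOn μ (Icc (τ k) (τ (k + 1))) →
      (∀ t ∈ Ioo (τ k) (τ (k + 1)), μ t ∈ Ioo (μ tl) (μ th)) →
      (∀ t ∈ Ioo (τ k) (τ (k + 1)), 0 < u t * (th - d k)) →
      ∃ g, Gr μ u ρ (τ k) (τ (k + 1)) (d k) g tl th := by
    intro tl th he hinj hmem hsgn
    obtain ⟨g, hg1, hg2⟩ := exists_inv isCompact_Icc hcμ hinj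
    have htl : tl ∈ Icc (τ k) (τ (k + 1)) := by
      rcases he with he | he <;> rw [he.1] <;> constructor <;> linarith
    have hth : th ∈ Icc (τ k) (τ (k + 1)) := by
      rcases he with he | he <;> rw [he.2] <;> constructor <;> linarith
    have hsurj : Icc (μ tl) (μ th) ⊆ μ '' Icc (τ k) (τ (k + 1)) :=
      isPreconnected_Icc.intermediate_value htl hth hcμ
    have h0 := hmem (d k) hd0
    rw [h.dzero k hk] at h0
    have hμg : ∀ m ∈ Icc (μ tl) (μ th), μ (g m) = m := fun m hm => by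
      obtain ⟨t, ht, rfl⟩ := hsurj hm
      rw [hg2 t ht]
    have hgm : ∀ m ∈ Icc (μ tl) (μ th), g m ∈ Icc (τ k) (τ (k + 1)) := fun m hm => by
      obtain ⟨t, ht, rfl⟩ := hsurj hm
      rw [hg2 t ht]; exact ht
    have hgm' : ∀ m ∈ Ioo (μ tl) (μ th), g m ∈ Ioo (τ k) (τ (k + 1)) := fun m hm => by
      have h1 := hgm m (Ioo_subset_Icc_self hm)
      have h2 := hμg m (Ioo_subset_Icc_self hm)
      have h3 : g m ≠ tl := fun e => by rw [e] at h2; linarith [hm.1]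
      have h4 : g m ≠ th := fun e => by rw [e] at h2; linarith [hm.2]
      rcases he with he | he
      · exact ⟨lt_of_le_of_ne h1.1 (he.1 ▸ h3.symm), lt_of_le_of_ne h1.2 (he.2 ▸ h4)⟩
      · exact ⟨lt_of_le_of_ne h1.1 (he.2 ▸ h4.symm), lt_of_le_of_ne h1.2 (he.1 ▸ h3)⟩
    refine ⟨g, he, h0.1, h0.2, hg1.mono hsurj, hg2, hmem, hμg, hgm, hgm', fun m hm => ?_, hsgn,
      fun t ht => ?_⟩
    · have hn : Icc (μ tl) (μ th) ∈ 𝓝 m := Icc_mem_nhds hm.1 hm.2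
      have ht := hgm' m hm
      exact (h.dμ _ (h.sub' hk ht)).of_local_left_inverse ((hg1.mono hsurj).continuousAt hn)
        (mul_ne_zero (h.ρpos _ (h.sub' hk ht)).ne' (h.une k hk _ ht))
        (Filter.mem_of_superset hn (fun m' hm' => hμg m' hm'))
    · rcases he with he | he
      · rw [he.2]; exact mul_pos (by linarith [ht.2]) (by linarith [hd0.2])
      · rw [he.2]; exact mul_pos_of_neg_of_neg (by linarith [ht.1]) (by linarith [hd0.1])
  rcases lt_or_gt_of_ne (h.une k hk _ hd0) with hu | hu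
  · have hneg := neg_of_ne isPreconnected_Ioo hcu (h.une k hk) hd0 hu
    have hanti : StrictAntiOn μ (Icc (τ k) (τ (k + 1))) := fun a ha b hb hab' =>
      santi_of_deriv hab' (hcμ.mono (Icc_subset_Icc ha.1 hb.2))
        (fun t ht => h.dμ t (h.sub' hk (Ioo_subset_Ioo ha.1 hb.2 ht)))
        (fun t ht => mul_neg_of_pos_of_neg (h.ρpos t (h.sub' hk (Ioo_subset_Ioo ha.1 hb.2 ht)))
          (hneg t (Ioo_subset_Ioo ha.1 hb.2 ht)))
    obtain ⟨g, hg⟩ := main (τ (k + 1)) (τ k) (Or.inr ⟨rfl, rfl⟩) hanti.injOn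
      (fun t ht => ⟨hanti (Ioo_subset_Icc_self ht) ⟨hab.le, le_rfl⟩ ht.2,
        hanti ⟨le_rfl, hab.le⟩ (Ioo_subset_Icc_self ht) ht.1⟩)
      (fun t ht => mul_pos_of_neg_of_neg (hneg t ht) (by linarith [hd0.1]))
    exact ⟨g, _, _, hg⟩
  · have hpos := pos_of_ne isPreconnected_Ioo hcu (h.une k hk) hd0 hu
    have hmono : StrictMonoOn μ (Icc (τ k) (τ (k + 1))) := fun a ha b hb hab' =>
      smono_of_deriv hab' (hcμ.mono (Icc_subset_Icc ha.1 hb.2))
        (fun t ht => h.dμ t (h.sub' hk (Ioo_subset_Ioo ha.1 hb.2 ht)))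
        (fun t ht => mul_pos (h.ρpos t (h.sub' hk (Ioo_subset_Ioo ha.1 hb.2 ht)))
          (hpos t (Ioo_subset_Ioo ha.1 hb.2 ht)))
    obtain ⟨g, hg⟩ := main (τ k) (τ (k + 1)) (Or.inl ⟨rfl, rfl⟩) hmono.injOn
      (fun t ht => ⟨hmono ⟨le_rfl, hab.le⟩ (Ioo_subset_Icc_self ht) ht.1,
        hmono (Ioo_subset_Icc_self ht) ⟨hab.le, le_rfl⟩ ht.2⟩)
      (fun t ht => mul_pos (hpos t ht) (by linarith [hd0.2]))
    exact ⟨g, _, _, hg⟩

end Ab

end Pool.Agent.MP_48470b_gt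

end

section

/-! Behaviour of radially adjacent strands at their upper ends. -/

set_option autoImplicit false

open Real Set Filter Topology

namespace Pool.Agent.MP_48470b_gt

namespace Ab

variable {L : ℝ} {μ z u v ρ : ℝ → ℝ} {n : ℕ} {τ d : ℕ → ℝ}

theorem Gr.th_mem {a b d0 : ℝ} {g : ℝ → ℝ} {tl th : ℝ} (G : Gr μ u ρ a b d0 g tl th)
    (hab : a < b) : th ∈ Icc a b := by
  rcases G.ends with he | he <;> rw [he.2] <;> constructor <;> linarith

theorem Gr.g_th {a b d0 : ℝ} {g : ℝ → ℝ} {tl th : ℝ} (G : Gr μ u ρ a b d0 g tl th)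
    (hab : a < b) : g (μ th) = th := G.gμ th (G.th_mem hab)

theorem g_zero (h : Ab L μ z u v ρ n τ d) {k : ℕ} (hk : k ≤ n) {g : ℝ → ℝ} {tl th : ℝ}
    (G : Gr μ u ρ (τ k) (τ (k + 1)) (d k) g tl th) : g 0 = d k := by
  rw [← h.dzero k hk]; exact G.gμ _ (Ioo_subset_Icc_self (h.dmem k hk))

/-- continuity of a composite along a strand -/
theorem comp_cont (h : Ab L μ z u v ρ n τ d) {k : ℕ} (hk : k ≤ n) {g : ℝ → ℝ} {tl th : ℝ}
    (G : Gr μ u ρ (τ k) (τ (k + 1)) (d k) g tl th) {f : ℝ → ℝ} (hf : ContinuousOn f (Icc 0 L)) :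
    ContinuousOn (fun m => f (g m)) (Icc (μ tl) (μ th)) :=
  hf.comp G.cg (fun m hm => h.sub hk (G.gmem m hm))

theorem order (h : Ab L μ z u v ρ n τ d) {i j : ℕ} (hi : i ≤ n) (hj : j ≤ n) (hij : i ≠ j)
    {gi gj : ℝ → ℝ} {tli thi tlj thj : ℝ}
    (Gi : Gr μ u ρ (τ i) (τ (i + 1)) (d i) gi tli thi)
    (Gj : Gr μ u ρ (τ j) (τ (j + 1)) (d j) gj tlj thj) {m m' : ℝ}
    (hm1 : m ∈ Ioo (μ tli) (μ thi)) (hm2 : m ∈ Ioo (μ tlj) (μ thj))
    (hm1' : m' ∈ Ioo (μ tli) (μ thi)) (hm2' : m' ∈ Ioo (μ tlj) (μ thj))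
    (hlt : z (gi m) < z (gj m)) : z (gi m') < z (gj m') := by
  have hI : IsPreconnected (Ioo (μ tli) (μ thi) ∩ Ioo (μ tlj) (μ thj)) := by
    rw [Ioo_inter_Ioo]; exact isPreconnected_Ioo
  have := pos_of_ne (f := fun m => z (gj m) - z (gi m)) hI
    (((h.comp_cont hj Gj h.cz).mono (fun m hm => Ioo_subset_Icc_self hm.2)).sub
      ((h.comp_cont hi Gi h.cz).mono (fun m hm => Ioo_subset_Icc_self hm.1)))
    (fun m hm h0 => by
      have a1 := Gi.gmem' m hm.1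
      have a2 := Gj.gmem' m hm.2
      have e := h.inj _ (h.sub hi (Ioo_subset_Icc_self a1)) _ (h.sub hj (Ioo_subset_Icc_self a2))
        (by rw [Gi.μg m (Ioo_subset_Icc_self hm.1), Gj.μg m (Ioo_subset_Icc_self hm.2)])
        (by linarith)
      rw [e] at a1
      exact hij (h.meet' hi hj a1 a2)) (t0 := m) ⟨hm1, hm2⟩ (by linarith) m' ⟨hm1', hm2'⟩
  linarith

theorem tend (h : Ab L μ z u v ρ n τ d) {k : ℕ} (hk : k ≤ n) {g : ℝ → ℝ} {tl th : ℝ}
    (G : Gr μ u ρ (τ k) (τ (k + 1)) (d k) g tl th) {f : ℝ → ℝ} (hf : ContinuousOn f (Icc 0 L))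
    {β : ℝ} (h0 : 0 < β) (hβ : β ≤ μ th) :
    Tendsto (fun m => f (g m)) (𝓝[<] β) (𝓝 (f (g β))) := by
  have h1 := h.comp_cont hk G hf β ⟨by linarith [G.lo], hβ⟩
  refine h1.tendsto.mono_left ?_
  apply nhdsWithin_le_of_mem
  exact mem_of_superset (Ioo_mem_nhdsLT (G.lo.trans h0))
    (fun m hm => ⟨hm.1.le, hm.2.le.trans hβ⟩)

theorem near (h : Ab L μ z u v ρ n τ d) {k : ℕ} (hk : k ≤ n) {g : ℝ → ℝ} {tl th : ℝ}
    (G : Gr μ u ρ (τ k) (τ (k + 1)) (d k) g tl th) (hth : th ∈ Ioo 0 L) (hv : v th ≠ 0) :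
    ∀ᶠ m in 𝓝[<] μ th, 0 < (z th - z (g m)) * (v th * (th - d k)) := by
  have h1 := (hasDerivAt_iff_tendsto_slope.1 (h.dz th hth)).mul_const (v th)
  have h2 : ∀ᶠ t in 𝓝[≠] th, 0 < slope z th t * v th :=
    h1.eventually (lt_mem_nhds (by nlinarith [sq_pos_of_ne_zero hv]))
  have hI : ∀ᶠ m in 𝓝[<] μ th, m ∈ Ioo (μ tl) (μ th) := Ioo_mem_nhdsLT (G.lo.trans G.hi)
  have h3 : Tendsto g (𝓝[<] μ th) (𝓝[≠] th) := by
    apply tendsto_nhdsWithin_of_tendsto_nhds_of_eventually_within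
    · have := h.tend hk G (f := fun t => t) continuousOn_id G.hi le_rfl
      rwa [G.g_th (h.τlt k hk)] at this
    · filter_upwards [hI] with m hm e
      have := G.μg m (Ioo_subset_Icc_self hm)
      rw [mem_singleton_iff.1 e] at this
      linarith [hm.2]
  filter_upwards [h3.eventually h2, hI] with m hm1 hm2
  have h4 := G.side _ (G.gmem' m hm2)
  have h5 : th - g m ≠ 0 := fun e => by rw [e] at h4; simp at h4
  have h6 : g m - th ≠ 0 := fun e => h5 (by linarith)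
  have h7 : z th - z (g m) = slope z th (g m) * (th - g m) := by
    rw [slope_def_field]; field_simp; ring
  rw [h7]
  nlinarith [mul_pos hm1 h4]

/-- the neighbour across an interior upper end -/
theorem nb (h : Ab L μ z u v ρ n τ d) {i : ℕ} (hi : i ≤ n) {g : ℝ → ℝ} {tl th : ℝ}
    (G : Gr μ u ρ (τ i) (τ (i + 1)) (d i) g tl th) (hth : th ∈ Ioo 0 L) :
    u th = 0 ∧ v th ≠ 0 ∧ ∃ k ≤ n, (k + 1 = i ∨ i + 1 = k) ∧ (th - d k) * (th - d i) < 0 ∧
      ∃ gk tlk, Gr μ u ρ (τ k) (τ (k + 1)) (d k) gk tlk th := by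
  have hdi := h.dmem i hi
  rcases G.ends with he | he
  · have hin : i + 1 ≤ n := by
      by_contra hn
      have : i = n := by omega
      rw [he.2, this, h.τL] at hth
      exact lt_irrefl _ hth.2
    obtain ⟨gk, tlk, thk, Gk⟩ := h.graph hin
    have hdk := h.dmem _ hin
    have e : thk = th := by
      rcases Gk.ends with hk | hk
      · have := Gk.lo; rw [hk.1, ← he.2] at this; linarith [G.hi]
      · rw [hk.2, he.2]
    rw [e] at Gk
    refine ⟨he.2 ▸ (h.uz _ (by omega) hin).1, he.2 ▸ (h.uz _ (by omega) hin).2, i + 1, hin,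
      Or.inr rfl, ?_, gk, tlk, Gk⟩
    rw [he.2]; exact mul_neg_of_neg_of_pos (by linarith [hdk.1]) (by linarith [hdi.2])
  · obtain ⟨k, rfl⟩ : ∃ k, i = k + 1 := by
      rcases i with _ | k
      · rw [he.2, h.τ0] at hth; exact absurd hth.1 (lt_irrefl _)
      · exact ⟨k, rfl⟩
    have hkn : k ≤ n := by omega
    obtain ⟨gk, tlk, thk, Gk⟩ := h.graph hkn
    have hdk := h.dmem _ hkn
    have e : thk = th := by
      rcases Gk.ends with hk | hk
      · rw [hk.2, he.2]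
      · have := Gk.lo; rw [hk.1, ← he.2] at this; linarith [G.hi]
    rw [e] at Gk
    refine ⟨he.2 ▸ (h.uz _ (by omega) hi).1, he.2 ▸ (h.uz _ (by omega) hi).2, k, hkn,
      Or.inl rfl, ?_, gk, tlk, Gk⟩
    rw [he.2]; exact mul_neg_of_pos_of_neg (by linarith [hdk.2]) (by linarith [hdi.1])

theorem top (h : Ab L μ z u v ρ n τ d) {i j : ℕ} (hi : i ≤ n) (hj : j ≤ n)
    (hnj : ¬ (i + 1 = j ∨ j + 1 = i)) (hlt : z (d i) < z (d j))
    (hadj : ∀ k ≤ n, ¬ (z (d i) < z (d k) ∧ z (d k) < z (d j)))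
    {gi gj : ℝ → ℝ} {tli thi tlj thj : ℝ}
    (Gi : Gr μ u ρ (τ i) (τ (i + 1)) (d i) gi tli thi)
    (Gj : Gr μ u ρ (τ j) (τ (j + 1)) (d j) gj tlj thj) (hle : μ thi ≤ μ thj) :
    u thi = 0 ∧ v thi * (thi - d i) < 0 := by
  have hij : i ≠ j := fun e => by rw [e] at hlt; exact lt_irrefl _ hlt
  have hti := Gi.th_mem (h.τlt i hi)
  have htj := Gj.th_mem (h.τlt j hj)
  have hsep : ∀ t ∈ Icc (τ j) (τ (j + 1)), t ≠ thi := fun t ht e => by
    rw [e] at ht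
    rcases h.meet hi hj hti ht with h1 | h1
    · exact hij h1
    · exact hnj h1
  have hth : thi ∈ Ioo 0 L := by
    have h1 := h.sub hi hti
    refine ⟨lt_of_le_of_ne h1.1 (fun e => ?_), lt_of_le_of_ne h1.2 (fun e => ?_)⟩
    · have := h.ext thi (Or.inl e.symm) Gi.hi thj (h.sub hj htj) (hsep _ htj); linarith
    · have := h.ext thi (Or.inr e) Gi.hi thj (h.sub hj htj) (hsep _ htj); linarith
  obtain ⟨hu, hv, k, hk, hki, hside, gk, tlk, Gk⟩ := h.nb hi Gi hth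
  refine ⟨hu, ?_⟩
  by_contra hn
  push Not at hn
  have hd0 : thi - d i ≠ 0 := fun e => by rw [e] at hside; simp at hside
  have hpos : 0 < v thi * (thi - d i) := lt_of_le_of_ne hn (mul_ne_zero hv hd0).symm
  have hneg : v thi * (thi - d k) < 0 := by
    by_contra hn2
    push Not at hn2
    nlinarith [mul_nonneg hn2 hpos.le, sq_pos_of_ne_zero hv]
  have hik : i ≠ k := by omega
  have hkj : k ≠ j := by
    rintro rfl
    exact hnj (by omega)
  have z0i : (0 : ℝ) ∈ Ioo (μ tli) (μ thi) := ⟨Gi.lo, Gi.hi⟩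
  have z0j : (0 : ℝ) ∈ Ioo (μ tlj) (μ thj) := ⟨Gj.lo, Gj.hi⟩
  have z0k : (0 : ℝ) ∈ Ioo (μ tlk) (μ thi) := ⟨Gk.lo, Gk.hi⟩
  have hI : ∀ᶠ m in 𝓝[<] μ thi, m ∈ Ioo 0 (μ thi) := Ioo_mem_nhdsLT Gi.hi
  have ti := h.tend hi Gi h.cz Gi.hi le_rfl
  have tj := h.tend hj Gj h.cz Gi.hi hle
  have tk := h.tend hk Gk h.cz Gi.hi le_rfl
  rw [Gi.g_th (h.τlt i hi)] at ti
  rw [Gk.g_th (h.τlt k hk)] at tk
  have hle2 : z thi ≤ z (gj (μ thi)) := by
    refine le_of_tendsto_of_tendsto ti tj ?_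
    filter_upwards [hI] with m hm
    exact (h.order hi hj hij Gi Gj z0i z0j ⟨Gi.lo.trans hm.1, hm.2⟩
      ⟨Gj.lo.trans hm.1, lt_of_lt_of_le hm.2 hle⟩
      (by rwa [h.g_zero hi Gi, h.g_zero hj Gj])).le
  have hmj : μ thi ∈ Icc (μ tlj) (μ thj) := ⟨(Gj.lo.trans Gi.hi).le, hle⟩
  have hlt2 : z thi < z (gj (μ thi)) := lt_of_le_of_ne hle2 (fun e =>
    hsep _ (Gj.gmem _ hmj) (h.inj _ (h.sub hj (Gj.gmem _ hmj)) _ (h.sub hi hti)
      (Gj.μg _ hmj) e.symm))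
  have hev := tk.eventually_lt tj hlt2
  obtain ⟨m, hm0, hm1, hm2, hm3⟩ :=
    (hI.and ((h.near hi Gi hth hv).and ((h.near hk Gk hth hv).and hev))).exists
  have a1 : z (gi m) < z thi := by
    by_contra hn2
    push Not at hn2
    nlinarith [mul_nonneg (sub_nonneg.2 hn2) hpos.le]
  have a2 : z thi < z (gk m) := by
    by_contra hn2
    push Not at hn2
    nlinarith [mul_nonneg (sub_nonneg.2 hn2) (neg_nonneg.2 hneg.le)]
  have mi : m ∈ Ioo (μ tli) (μ thi) := ⟨Gi.lo.trans hm0.1, hm0.2⟩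
  have mj : m ∈ Ioo (μ tlj) (μ thj) := ⟨Gj.lo.trans hm0.1, lt_of_lt_of_le hm0.2 hle⟩
  have mk : m ∈ Ioo (μ tlk) (μ thi) := ⟨Gk.lo.trans hm0.1, hm0.2⟩
  have b1 := h.order hi hk hik Gi Gk mi mk z0i z0k (a1.trans a2)
  have b2 := h.order hk hj hkj Gk Gj mk mj z0k z0j hm3
  rw [h.g_zero hi Gi, h.g_zero hk Gk] at b1
  rw [h.g_zero hj Gj, h.g_zero hk Gk] at b2
  exact hadj k hk ⟨b1, b2⟩

theorem up (h : Ab L μ z u v ρ n τ d) {i j : ℕ} (hi : i ≤ n) (hj : j ≤ n)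
    (hnj : ¬ (i + 1 = j ∨ j + 1 = i)) (hlt : z (d i) < z (d j))
    (hadj : ∀ k ≤ n, ¬ (z (d i) < z (d k) ∧ z (d k) < z (d j))) :
    ∃ ti ∈ Ioo (τ i) (τ (i + 1)), ∃ tj ∈ Ioo (τ j) (τ (j + 1)),
      μ ti = μ tj ∧ 0 < μ ti ∧ v ti / u ti < v tj / u tj := by
  obtain ⟨gi, tli, thi, Gi⟩ := h.graph hi
  obtain ⟨gj, tlj, thj, Gj⟩ := h.graph hj
  have T1 : μ thi ≤ μ thj → u thi = 0 ∧ v thi * (thi - d i) < 0 :=
    h.top hi hj hnj hlt hadj Gi Gj
  have T2 : μ thj ≤ μ thi → u thj = 0 ∧ 0 < v thj * (thj - d j) := fun hle => by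
    have := h.negz.top hj hi (fun e => hnj (by omega)) (by simpa using hlt)
      (fun k hk e => hadj k hk ⟨by linarith [e.2], by linarith [e.1]⟩) Gj Gi hle
    exact ⟨this.1, by linarith [this.2]⟩
  have key : ∃ β, 0 < β ∧ β ≤ μ thi ∧ β ≤ μ thj ∧ ∀ᶠ m in 𝓝[<] β,
      (v (gi m) * (thi - d i)) * (u (gj m) * (thj - d j))
        < (v (gj m) * (thj - d j)) * (u (gi m) * (thi - d i)) := by
    have tt : ∀ β, 0 < β → β ≤ μ thi → β ≤ μ thj →
        (v (gi β) * (thi - d i)) * (u (gj β) * (thj - d j))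
          < (v (gj β) * (thj - d j)) * (u (gi β) * (thi - d i)) → ∀ᶠ m in 𝓝[<] β,
        (v (gi m) * (thi - d i)) * (u (gj m) * (thj - d j))
          < (v (gj m) * (thj - d j)) * (u (gi m) * (thi - d i)) := fun β h0 h1 h2 h3 =>
      (((h.tend hi Gi h.cv h0 h1).mul_const _).mul ((h.tend hj Gj h.cu h0 h2).mul_const _)
        ).eventually_lt (((h.tend hj Gj h.cv h0 h2).mul_const _).mul
          ((h.tend hi Gi h.cu h0 h1).mul_const _)) h3
    rcases lt_trichotomy (μ thi) (μ thj) with hc | hc | hc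
    · refine ⟨μ thi, Gi.hi, le_rfl, hc.le, tt _ Gi.hi le_rfl hc.le ?_⟩
      obtain ⟨a1, a2⟩ := T1 hc.le
      rw [Gi.g_th (h.τlt i hi), a1]
      have a3 := Gj.sgn _ (Gj.gmem' _ ⟨Gj.lo.trans Gi.hi, hc⟩)
      nlinarith [mul_pos (neg_pos.2 a2) a3]
    · refine ⟨μ thi, Gi.hi, le_rfl, hc.le, ?_⟩
      obtain ⟨-, a2⟩ := T1 hc.le
      obtain ⟨-, b2⟩ := T2 hc.ge
      have ti := (h.tend hi Gi h.cv Gi.hi le_rfl).mul_const (thi - d i)
      have tj := (h.tend hj Gj h.cv Gi.hi hc.le).mul_const (thj - d j)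
      rw [Gi.g_th (h.τlt i hi)] at ti
      have e : gj (μ thi) = thj := by rw [hc]; exact Gj.g_th (h.τlt j hj)
      rw [e] at tj
      filter_upwards [ti.eventually (gt_mem_nhds a2), tj.eventually (lt_mem_nhds b2),
        Ioo_mem_nhdsLT Gi.hi] with m m1 m2 m3
      have a3 := Gi.sgn _ (Gi.gmem' m ⟨Gi.lo.trans m3.1, m3.2⟩)
      have b3 := Gj.sgn _ (Gj.gmem' m ⟨Gj.lo.trans m3.1, hc ▸ m3.2⟩)
      nlinarith [mul_pos (neg_pos.2 m1) b3, mul_pos m2 a3]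
    · refine ⟨μ thj, Gj.hi, hc.le, le_rfl, tt _ Gj.hi hc.le le_rfl ?_⟩
      obtain ⟨a1, a2⟩ := T2 hc.le
      rw [Gj.g_th (h.τlt j hj), a1]
      have a3 := Gi.sgn _ (Gi.gmem' _ ⟨Gi.lo.trans Gj.hi, hc⟩)
      nlinarith [mul_pos a2 a3]
  obtain ⟨β, h0, h1, h2, h3⟩ := key
  obtain ⟨m, hm1, hm2⟩ := (h3.and (Ioo_mem_nhdsLT h0)).exists
  have mi : m ∈ Ioo (μ tli) (μ thi) := ⟨Gi.lo.trans hm2.1, lt_of_lt_of_le hm2.2 h1⟩
  have mj : m ∈ Ioo (μ tlj) (μ thj) := ⟨Gj.lo.trans hm2.1, lt_of_lt_of_le hm2.2 h2⟩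
  have a3 := Gi.sgn _ (Gi.gmem' m mi)
  have b3 := Gj.sgn _ (Gj.gmem' m mj)
  have ei := Gi.μg m (Ioo_subset_Icc_self mi)
  have ej := Gj.μg m (Ioo_subset_Icc_self mj)
  refine ⟨gi m, Gi.gmem' m mi, gj m, Gj.gmem' m mj, by rw [ei, ej], by rw [ei]; exact hm2.1, ?_⟩
  have si : thi - d i ≠ 0 := fun e => by rw [e] at a3; simp at a3
  have sj : thj - d j ≠ 0 := fun e => by rw [e] at b3; simp at b3
  rw [← mul_div_mul_right _ _ si, ← mul_div_mul_right (v (gj m)) _ sj, div_lt_div_iff₀ a3 b3]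
  exact hm1

theorem turn (h : Ab L μ z u v ρ n τ d) {k : ℕ} (hk : k + 1 ≤ n) (hμ : 0 < μ (τ (k + 1))) :
    0 < v (τ (k + 1)) * (z (d (k + 1)) - z (d k)) := by
  have hk' : k ≤ n := by omega
  obtain ⟨g1, tl1, th1, G1⟩ := h.graph hk'
  obtain ⟨g2, tl2, th2, G2⟩ := h.graph hk
  have e1 : th1 = τ (k + 1) := by
    rcases G1.ends with he | he
    · exact he.2
    · have := G1.lo; rw [he.1] at this; linarith
  have e2 : th2 = τ (k + 1) := by
    rcases G2.ends with he | he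
    · have := G2.lo; rw [he.1] at this; linarith
    · exact he.2
  rw [e1] at G1
  rw [e2] at G2
  have hth : τ (k + 1) ∈ Ioo 0 L :=
    ⟨h.τ0 ▸ h.τ_lt _ _ (by omega) (by omega), h.τL ▸ h.τ_lt _ _ (by omega) le_rfl⟩
  have hv := (h.uz _ (by omega) hk).2
  obtain ⟨m, hm0, hm1, hm2⟩ :=
    ((show ∀ᶠ m in 𝓝[<] μ (τ (k + 1)), m ∈ Ioo 0 (μ (τ (k + 1))) from Ioo_mem_nhdsLT hμ).and
      ((h.near hk' G1 hth hv).and (h.near hk G2 hth hv))).exists
  have d1 := (h.dmem k hk').2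
  have d2 := (h.dmem _ hk).1
  have a1 : 0 < (z (τ (k + 1)) - z (g1 m)) * v (τ (k + 1)) := by
    by_contra hn
    push Not at hn
    nlinarith [mul_nonneg (neg_nonneg.2 hn) (sub_pos.2 d1).le]
  have a2 : 0 < (z (g2 m) - z (τ (k + 1))) * v (τ (k + 1)) := by
    by_contra hn
    push Not at hn
    nlinarith [mul_nonneg (neg_nonneg.2 hn) (sub_pos.2 d2).le]
  have m1 : m ∈ Ioo (μ tl1) (μ (τ (k + 1))) := ⟨G1.lo.trans hm0.1, hm0.2⟩
  have m2 : m ∈ Ioo (μ tl2) (μ (τ (k + 1))) := ⟨G2.lo.trans hm0.1, hm0.2⟩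
  have z1 : (0 : ℝ) ∈ Ioo (μ tl1) (μ (τ (k + 1))) := ⟨G1.lo, hμ⟩
  have z2 : (0 : ℝ) ∈ Ioo (μ tl2) (μ (τ (k + 1))) := ⟨G2.lo, hμ⟩
  rcases lt_or_gt_of_ne hv with hv' | hv'
  · have := h.order hk hk' (by omega) G2 G1 m2 m1 z2 z1 (by nlinarith)
    rw [h.g_zero hk G2, h.g_zero hk' G1] at this
    exact mul_pos_of_neg_of_neg hv' (by linarith)
  · have := h.order hk' hk (by omega) G1 G2 m1 m2 z1 z2 (by nlinarith)
    rw [h.g_zero hk G2, h.g_zero hk' G1] at this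
    exact mul_pos hv' (by linarith)

end Ab

end Pool.Agent.MP_48470b_gt

end

section

/-! All radial tangents of an embedded profile curve point the same way. -/

set_option autoImplicit false

open Real Set Filter Topology

namespace Pool.Agent.MP_48470b_gt

namespace Crv

variable (γ : Crv)

noncomputable def mu (t : ℝ) : ℝ := (γ.y t ^ 2 - γ.x t ^ 2) / γ.z t
noncomputable def rho (t : ℝ) : ℝ := 4 * γ.x t * γ.y t / γ.z t ^ 2

variable {γ}

theorem Sol.dmu {t : ℝ} (h : γ.Sol t) : HasDerivAt γ.mu (γ.rho t * γ.u t) t := by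
  refine hd ((h.dy2.sub h.dx2).div h.dz h.z_pos.ne') (fun _ => rfl) ?_
  have hz := h.z_pos.ne'
  simp only [Pi.sub_apply]
  unfold rho
  field_simp
  unfold u v z
  ring

theorem Sol.rho_pos {t : ℝ} (h : γ.Sol t) : 0 < γ.rho t := by
  unfold rho
  have := h.px; have := h.py; have := h.z_pos
  positivity

theorem Sol.kz {t : ℝ} (h : γ.Sol t) : γ.k t * γ.z t * (γ.x t * γ.y t)
    = (γ.z t / 2 - 2) * γ.u t * (γ.x t * γ.y t) + (γ.x t ^ 2 - γ.y t ^ 2) * γ.v t := by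
  have hk := h.hk
  unfold n0 at hk
  unfold z u v
  linear_combination (γ.x t ^ 2 + γ.y t ^ 2) * hk

theorem Sol.v_ne {t : ℝ} (h : γ.Sol t) (hu : γ.u t = 0) : γ.v t ≠ 0 := by
  intro hv
  have := h.uv
  rw [hu, hv] at this
  linarith [h.z_pos]

/-- at a radial tangent `u'` has the sign of `-μ` -/
theorem Sol.du_mu {t : ℝ} (h : γ.Sol t) (hu : γ.u t = 0) :
    γ.k t * γ.v t = -γ.mu t * (γ.v t ^ 2 / (γ.x t * γ.y t)) := by
  have h1 := h.kz
  rw [hu] at h1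
  have hx := h.px.ne'; have hy := h.py.ne'; have hz := h.z_pos.ne'
  unfold mu
  field_simp
  linear_combination (γ.v t) * h1

theorem Sol.dp {t : ℝ} (h : γ.Sol t) (hu : γ.u t ≠ 0) : HasDerivAt (fun t => γ.v t / γ.u t)
    ((γ.G t - (γ.x t / γ.y t - (γ.x t / γ.y t)⁻¹) * (γ.v t / γ.u t)) * (1 + (γ.v t / γ.u t) ^ 2)
      * ((γ.x t / γ.y t + (γ.x t / γ.y t)⁻¹) / 4) * (γ.rho t * γ.u t)) t := by
  refine hd (h.dv.div h.du hu) (fun _ => rfl) ?_
  have h1 := h.kz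
  have h2 := h.uv
  have hx := h.px.ne'; have hy := h.py.ne'; have hz := h.z_pos.ne'
  have e1 : 1 + (γ.v t / γ.u t) ^ 2 = γ.z t / γ.u t ^ 2 := by
    field_simp; linarith
  have e2 : γ.x t / γ.y t + (γ.x t / γ.y t)⁻¹ = γ.z t / (γ.x t * γ.y t) := by
    unfold z; field_simp
  have e3 : γ.x t / γ.y t - (γ.x t / γ.y t)⁻¹ = (γ.x t ^ 2 - γ.y t ^ 2) / (γ.x t * γ.y t) := by
    field_simp
  rw [e1, e2, e3]
  unfold rho G
  field_simp
  linear_combination 2 * h1 + (2 * γ.k t * γ.x t * γ.y t) * h2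

namespace Prof

variable {L : ℝ}

theorem cmu (h : γ.Prof L) : ContinuousOn γ.mu (Icc 0 L) :=
  ((h.cy.pow 2).sub (h.cx.pow 2)).div h.cz (fun _ ht => (h.z_pos ht).ne')

theorem mu0 (h : γ.Prof L) : γ.mu 0 = -1 := by
  have := h.x0.ne'
  unfold mu z; rw [h.y0]; field_simp; ring

theorem muL (h : γ.Prof L) : γ.mu L = 1 := by
  have := h.yL.ne'
  unfold mu z; rw [h.xL]; field_simp; ring

theorem mu_lt (h : γ.Prof L) {t : ℝ} (ht : t ∈ Ico 0 L) : γ.mu t < 1 := by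
  have h1 := h.x_pos ht
  have h2 := h.z_pos (Ico_subset_Icc_self ht)
  unfold mu; rw [div_lt_one h2]; unfold z; nlinarith

theorem mu_gt (h : γ.Prof L) {t : ℝ} (ht : t ∈ Ioc 0 L) : -1 < γ.mu t := by
  have h1 := h.y_pos ht
  have h2 := h.z_pos (Ioc_subset_Icc_self ht)
  unfold mu; rw [lt_div_iff₀ h2]; unfold z; nlinarith

theorem x_nonneg (h : γ.Prof L) {t : ℝ} (ht : t ∈ Icc 0 L) : 0 ≤ γ.x t := by
  rcases ht.2.eq_or_lt with e | e
  · rw [e, h.xL]
  · exact (h.x_pos ⟨ht.1, e⟩).le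

theorem y_nonneg (h : γ.Prof L) {t : ℝ} (ht : t ∈ Icc 0 L) : 0 ≤ γ.y t := by
  rcases ht.1.eq_or_lt with e | e
  · rw [← e, h.y0]
  · exact (h.y_pos ⟨e, ht.2⟩).le

theorem mu_inj (h : γ.Prof L) {t t' : ℝ} (ht : t ∈ Icc 0 L) (ht' : t' ∈ Icc 0 L)
    (h1 : γ.mu t = γ.mu t') (h2 : γ.z t = γ.z t') : t = t' := by
  have hz := (h.z_pos ht').ne'
  unfold mu at h1
  rw [h2, div_left_inj' hz] at h1
  unfold z at h2
  exact h.inj t ht t' ht'
    ((pow_left_inj₀ (h.x_nonneg ht) (h.x_nonneg ht') two_ne_zero).1 (by linarith))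
    ((pow_left_inj₀ (h.y_nonneg ht) (h.y_nonneg ht') two_ne_zero).1 (by linarith))

theorem mu_ne (h : γ.Prof L) {t : ℝ} (ht : t ∈ Ioo 0 L) (hu : γ.u t = 0) : γ.mu t ≠ 0 := by
  intro h0
  have hS := h.sol t ht
  unfold mu at h0
  rw [div_eq_zero_iff] at h0
  rcases h0 with h0 | h0
  · exact h.diag ht hu ((pow_left_inj₀ hS.px.le hS.py.le two_ne_zero).1 (by linarith))
  · exact hS.z_pos.ne' h0

theorem du_ne (h : γ.Prof L) {t : ℝ} (ht : t ∈ Ioo 0 L) (hu : γ.u t = 0) :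
    γ.k t * γ.v t ≠ 0 := by
  have hS := h.sol t ht
  rw [hS.du_mu hu]
  have := hS.px; have := hS.py
  have h3 := sq_pos_of_ne_zero (hS.v_ne hu)
  exact mul_ne_zero (neg_ne_zero.2 (h.mu_ne ht hu)) (by positivity)

theorem zeros_finite (h : γ.Prof L) : {t ∈ Ioo 0 L | γ.u t = 0}.Finite := by
  have hc : IsCompact (Icc 0 L ∩ γ.u ⁻¹' {0}) :=
    isCompact_Icc.of_isClosed_subset
      (h.cu.preimage_isClosed_of_isClosed isClosed_Icc isClosed_singleton) inter_subset_left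
  have hmem : ∀ t ∈ Icc 0 L ∩ γ.u ⁻¹' {0}, t ∈ Ioo 0 L := fun t ht => by
    have h0 : γ.u t = 0 := ht.2
    refine ⟨lt_of_le_of_ne ht.1.1 (fun e => ?_), lt_of_le_of_ne ht.1.2 (fun e => ?_)⟩
    · rw [← e, h.u0] at h0; exact h.x0.ne' h0
    · rw [e, h.uL] at h0; exact h.yL.ne' h0
  have hf := hc.finite (isDiscrete_iff_nhdsNE.2 (fun t ht => by
    have := ((h.sol t (hmem t ht)).du.eventually_ne (c := 0) (h.du_ne (hmem t ht) ht.2))
    rw [inf_principal_eq_bot]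
    filter_upwards [this] with s hs hs2
    exact hs hs2.2))
  exact hf.subset (fun t ht => ⟨Ioo_subset_Icc_self ht.1, ht.2⟩)

/-- sign of `μ` at an interior radial tangent read off from the sign of `u` on one side -/
theorem mu_sign (h : γ.Prof L) {t : ℝ} (ht : t ∈ Ioo 0 L) (hu : γ.u t = 0) :
    ∀ᶠ s in 𝓝[≠] t, γ.u s * (s - t) * γ.mu t < 0 := by
  have hS := h.sol t ht
  have h1 := (hasDerivAt_iff_tendsto_slope.1 hS.du).mul_const (γ.mu t)
  have h2 : γ.k t * γ.v t * γ.mu t < 0 := by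
    rw [hS.du_mu hu]
    have := hS.px; have := hS.py
    have h3 := sq_pos_of_ne_zero (hS.v_ne hu)
    have h4 := sq_pos_of_ne_zero (h.mu_ne ht hu)
    have h5 : 0 < γ.v t ^ 2 / (γ.x t * γ.y t) := by positivity
    nlinarith [mul_pos h4 h5]
  filter_upwards [h1.eventually (gt_mem_nhds h2), self_mem_nhdsWithin] with s hs hs2
  have h6 : s - t ≠ 0 := sub_ne_zero.2 hs2
  rw [slope_def_field, hu, sub_zero] at hs
  have h7 : γ.u s * (s - t) * γ.mu t = γ.u s / (s - t) * γ.mu t * (s - t) ^ 2 := by field_simp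
  rw [h7]
  exact mul_neg_of_neg_of_pos hs (sq_pos_of_ne_zero h6)

/-- every strand crosses the diagonal -/
theorem cross (h : γ.Prof L) {a b : ℝ} (ha : a ∈ Icc 0 L) (hb : b ∈ Icc 0 L) (hab : a < b)
    (ha2 : a = 0 ∨ γ.u a = 0) (hb2 : b = L ∨ γ.u b = 0) (hne : ∀ t ∈ Ioo a b, γ.u t ≠ 0) :
    ∃ d ∈ Ioo a b, γ.mu d = 0 := by
  have hsub : Ioo a b ⊆ Icc 0 L := Ioo_subset_Icc_self.trans (Icc_subset_Icc ha.1 hb.2)
  obtain ⟨t0, ht0⟩ : (Ioo a b).Nonempty := nonempty_Ioo.2 hab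
  have hu0 := hne t0 ht0
  have hsame : ∀ t ∈ Ioo a b, 0 < γ.u t * γ.u t0 :=
    pos_of_ne isPreconnected_Ioo ((h.cu.mono hsub).mul continuousOn_const)
      (fun t ht => mul_ne_zero (hne t ht) hu0) ht0 (mul_self_pos.2 hu0)
  have hA : γ.mu a * γ.u t0 < 0 := by
    by_cases h0 : a = 0
    · have hcl : a ∈ closure (Ioo a b) := by rw [closure_Ioo hab.ne]; exact ⟨le_rfl, hab.le⟩
      have := ContinuousWithinAt.closure_le hcl (f := fun _ => (0 : ℝ))
        (g := fun t => γ.u t * γ.u t0) continuousWithinAt_const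
        (((h.cu a ha).mono hsub).mul continuousWithinAt_const) (fun t ht => (hsame t ht).le)
      simp only [h0, h.u0] at this
      rw [h0, h.mu0]
      have h3 : 0 ≤ γ.u t0 := nonneg_of_mul_nonneg_right this h.x0
      have := lt_of_le_of_ne h3 hu0.symm
      linarith
    · have hua : γ.u a = 0 := ha2.resolve_left h0
      have ha' : a ∈ Ioo 0 L := ⟨lt_of_le_of_ne ha.1 (Ne.symm h0), lt_of_lt_of_le hab hb.2⟩
      obtain ⟨s, hs1, hs2⟩ := (((h.mu_sign ha' hua).filter_mono (nhdsGT_le_nhdsNE a)).and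
        (Ioo_mem_nhdsGT hab)).exists
      have h4 := hsame s hs2
      by_contra hn
      push Not at hn
      have h5 := mul_nonneg (mul_nonneg hn h4.le) (sub_pos.2 hs2.1).le
      nlinarith [mul_pos (neg_pos.2 hs1) (mul_self_pos.2 hu0)]
  have hB : 0 < γ.mu b * γ.u t0 := by
    by_cases h0 : b = L
    · have hcl : b ∈ closure (Ioo a b) := by rw [closure_Ioo hab.ne]; exact ⟨hab.le, le_rfl⟩
      have := ContinuousWithinAt.closure_le hcl (f := fun _ => (0 : ℝ))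
        (g := fun t => γ.u t * γ.u t0) continuousWithinAt_const
        (((h.cu b hb).mono hsub).mul continuousWithinAt_const) (fun t ht => (hsame t ht).le)
      simp only [h0, h.uL] at this
      rw [h0, h.muL]
      have h3 : 0 ≤ γ.u t0 := nonneg_of_mul_nonneg_right this h.yL
      have := lt_of_le_of_ne h3 hu0.symm
      linarith
    · have hub : γ.u b = 0 := hb2.resolve_left h0
      have hb' : b ∈ Ioo 0 L := ⟨lt_of_le_of_lt ha.1 hab, lt_of_le_of_ne hb.2 h0⟩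
      obtain ⟨s, hs1, hs2⟩ := (((h.mu_sign hb' hub).filter_mono (nhdsLT_le_nhdsNE b)).and
        (Ioo_mem_nhdsLT hab)).exists
      have h4 := hsame s hs2
      by_contra hn
      push Not at hn
      have h5 := mul_nonneg (mul_nonneg (neg_nonneg.2 hn) h4.le) (sub_pos.2 hs2.2).le
      nlinarith [mul_pos (neg_pos.2 hs1) (mul_self_pos.2 hu0)]
  obtain ⟨d, hd, hd2⟩ := intermediate_value_Ioo hab.le
    ((h.cmu.mono (Icc_subset_Icc ha.1 hb.2)).mul (continuousOn_const (c := γ.u t0)))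
    (show (0 : ℝ) ∈ Ioo (γ.mu a * γ.u t0) (γ.mu b * γ.u t0) from ⟨hA, hB⟩)
  exact ⟨d, hd, (mul_eq_zero.1 hd2).resolve_right hu0⟩

theorem exists_Ab (h : γ.Prof L) : ∃ (n : ℕ) (τ d : ℕ → ℝ),
    Ab L γ.mu γ.z γ.u γ.v γ.rho n τ d ∧
    Ab L (fun t => -γ.mu t) γ.z (fun t => -γ.u t) γ.v γ.rho n τ d ∧
    ∀ t ∈ Ioo 0 L, γ.u t = 0 → ∃ k, 1 ≤ k ∧ k ≤ n ∧ τ k = t := by
  obtain ⟨n, τ, h0, h1, h2, h3, h4, h5⟩ := exists_enum h.zeros_finite.toFinset L h.hL
    (fun t ht => (h.zeros_finite.mem_toFinset.1 ht).1)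
  simp only [Finite.mem_toFinset, mem_ofPred_eq] at h3 h4 h5
  have hmem : ∀ k ≤ n + 1, τ k ∈ Icc 0 L := by
    intro k hk
    rcases Nat.eq_zero_or_pos k with e | e
    · rw [e, h0]; exact ⟨le_rfl, h.hL.le⟩
    · rcases hk.eq_or_lt with e2 | e2
      · rw [e2, h1]; exact ⟨h.hL.le, le_rfl⟩
      · exact Ioo_subset_Icc_self (h3 k e (by omega)).1
  have hne : ∀ k ≤ n, ∀ t ∈ Ioo (τ k) (τ (k + 1)), γ.u t ≠ 0 := fun k hk t ht e =>
    h4 k hk t ht ⟨Ioo_subset_Ioo (hmem k (by omega)).1 (hmem (k + 1) (by omega)).2 ht, e⟩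
  have hd' : ∀ k, ∃ d, k ≤ n → d ∈ Ioo (τ k) (τ (k + 1)) ∧ γ.mu d = 0 := by
    intro k
    by_cases hk : k ≤ n
    · obtain ⟨d, hd1, hd2⟩ := h.cross (hmem k (by omega)) (hmem (k + 1) (by omega)) (h2 k hk)
        (by
          rcases Nat.eq_zero_or_pos k with e | e
          · left; rw [e, h0]
          · right; exact (h3 k e hk).2)
        (by
          rcases hk.eq_or_lt with e | e
          · left; rw [e, h1]
          · right; exact (h3 (k + 1) (by omega) e).2) (hne k hk)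
      exact ⟨d, fun _ => ⟨hd1, hd2⟩⟩
    · exact ⟨0, fun e => absurd e hk⟩
  choose d hd2 using hd'
  refine ⟨n, τ, d, ⟨h.cmu, h.cz, h.cu, h.cv, fun t ht => (h.sol t ht).dmu,
    fun t ht => (h.sol t ht).rho_pos, fun t ht => (h.sol t ht).dz,
    fun t ht t' ht' => h.mu_inj ht ht', h0, h1, h2,
    fun k k1 k2 => ⟨(h3 k k1 k2).2, (h.sol _ (h3 k k1 k2).1).v_ne (h3 k k1 k2).2⟩, hne,
    fun k hk => (hd2 k hk).1, fun k hk => (hd2 k hk).2, ?_⟩,
    ⟨h.cmu.neg, h.cz, h.cu.neg, h.cv,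
    fun t ht => hd (h.sol t ht).dmu.neg (fun _ => rfl) (by ring),
    fun t ht => (h.sol t ht).rho_pos, fun t ht => (h.sol t ht).dz,
    fun t ht t' ht' e => h.mu_inj ht ht' (neg_injective e), h0, h1, h2,
    fun k k1 k2 => ⟨neg_eq_zero.2 (h3 k k1 k2).2, (h.sol _ (h3 k k1 k2).1).v_ne (h3 k k1 k2).2⟩,
    fun k hk t ht => neg_ne_zero.2 (hne k hk t ht),
    fun k hk => (hd2 k hk).1, fun k hk => neg_eq_zero.2 (hd2 k hk).2, ?_⟩,
    fun t ht hu => h5 t ⟨ht, hu⟩⟩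
  · rintro e (he | he) hpos t ht hte
    · rw [he, h.mu0] at hpos; norm_num at hpos
    · rw [he, h.muL]; exact h.mu_lt ⟨ht.1, lt_of_le_of_ne ht.2 (he ▸ hte)⟩
  · rintro e (he | he) hpos t ht hte
    · rw [he, h.mu0]
      have := h.mu_gt ⟨lt_of_le_of_ne ht.1 (he ▸ hte.symm), ht.2⟩
      linarith
    · rw [he, h.muL] at hpos; norm_num at hpos

theorem ratio_eq (h : γ.Prof L) {a b : ℝ} (ha : a ∈ Ioo 0 L) (hb : b ∈ Ioo 0 L)
    (hm : γ.mu a = γ.mu b) : γ.x a / γ.y a = γ.x b / γ.y b := by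
  have Sa := h.sol a ha
  have Sb := h.sol b hb
  have := Sa.px; have := Sa.py; have := Sb.px; have := Sb.py
  unfold mu at hm
  rw [div_eq_div_iff Sa.z_pos.ne' Sb.z_pos.ne'] at hm
  unfold z at hm
  rw [div_eq_div_iff Sa.py.ne' Sb.py.ne']
  exact (pow_left_inj₀ (by positivity) (by positivity) two_ne_zero).1 (by linarith)

/-- radially adjacent strands are consecutive -/
theorem adj (h : γ.Prof L) {n : ℕ} {τ d : ℕ → ℝ} (A : Ab L γ.mu γ.z γ.u γ.v γ.rho n τ d)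
    (B : Ab L (fun t => -γ.mu t) γ.z (fun t => -γ.u t) γ.v γ.rho n τ d) {i j : ℕ}
    (hi : i ≤ n) (hj : j ≤ n) (hlt : γ.z (d i) < γ.z (d j))
    (hadj : ∀ k ≤ n, ¬ (γ.z (d i) < γ.z (d k) ∧ γ.z (d k) < γ.z (d j))) :
    i + 1 = j ∨ j + 1 = i := by
  by_contra hnj
  have hij : i ≠ j := fun e => by rw [e] at hlt; exact lt_irrefl _ hlt
  obtain ⟨si, hsi, sj, hsj, a1, a2, a3⟩ := B.up hi hj hnj hlt hadj
  obtain ⟨ti, hti, tj, htj, b1, b2, b3⟩ := A.up hi hj hnj hlt hadj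
  have a1' : γ.mu si = γ.mu sj := neg_injective a1
  rw [div_neg, div_neg] at a3
  obtain ⟨gi, tli, thi, Gi⟩ := A.graph hi
  obtain ⟨gj, tlj, thj, Gj⟩ := A.graph hj
  have hI : ∀ m ∈ Icc (γ.mu si) (γ.mu ti),
      m ∈ Ioo (γ.mu tli) (γ.mu thi) ∧ m ∈ Ioo (γ.mu tlj) (γ.mu thj) := fun m hm =>
    ⟨⟨lt_of_lt_of_le (Gi.μmem _ hsi).1 hm.1, lt_of_le_of_lt hm.2 (Gi.μmem _ hti).2⟩,
      ⟨lt_of_lt_of_le (a1' ▸ (Gj.μmem _ hsj).1) hm.1,
        lt_of_le_of_lt hm.2 (b1 ▸ (Gj.μmem _ htj).2)⟩⟩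
  have hder : ∀ {k : ℕ} (_ : k ≤ n) {g : ℝ → ℝ} {tl th : ℝ}
      (_ : Ab.Gr γ.mu γ.u γ.rho (τ k) (τ (k + 1)) (d k) g tl th) (m : ℝ),
      m ∈ Ioo (γ.mu tl) (γ.mu th) → HasDerivAt (fun m => γ.v (g m) / γ.u (g m))
        ((γ.G (g m) - (γ.x (g m) / γ.y (g m) - (γ.x (g m) / γ.y (g m))⁻¹)
          * (γ.v (g m) / γ.u (g m))) * (1 + (γ.v (g m) / γ.u (g m)) ^ 2)
          * ((γ.x (g m) / γ.y (g m) + (γ.x (g m) / γ.y (g m))⁻¹) / 4)) m := by
    intro k hk g tl th G m hm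
    have ht := G.gmem' m hm
    have hS := h.sol _ (A.sub' hk ht)
    have hu := A.une k hk _ ht
    refine hd ((hS.dp hu).comp m (G.dg m hm)) (fun _ => rfl) ?_
    rw [mul_assoc _ (γ.rho (g m) * γ.u (g m)), mul_inv_cancel₀ (mul_ne_zero hS.rho_pos.ne' hu),
      mul_one]
  have key := image_le_of_deriv_right_lt_deriv_boundary (a := γ.mu si) (b := γ.mu ti)
    (f := fun m => γ.v (gj m) / γ.u (gj m) - γ.v (gi m) / γ.u (gi m))
    (fun m hm => ((hder hj Gj m (hI m hm).2).sub (hder hi Gi m (hI m hm).1)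
      ).continuousAt.continuousWithinAt)
    (fun m hm => ((hder hj Gj m (hI m (Ico_subset_Icc_self hm)).2).sub
      (hder hi Gi m (hI m (Ico_subset_Icc_self hm)).1)).hasDerivWithinAt)
    (B := fun _ => 0) (B' := fun _ => 0)
    (by
      have e1 := Gi.gμ _ (Ioo_subset_Icc_self hsi)
      have e2 := Gj.gμ _ (Ioo_subset_Icc_self hsj)
      rw [← a1'] at e2
      simp only [e1, e2]
      linarith)
    (fun x => hasDerivAt_const x 0)
    (fun m hm h0 => by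
      obtain ⟨mi, mj⟩ := hI m (Ico_subset_Icc_self hm)
      have ti' := A.sub' hi (Gi.gmem' m mi)
      have tj' := A.sub' hj (Gj.gmem' m mj)
      have hz := A.order hi hj hij Gi Gj ⟨Gi.lo, Gi.hi⟩ ⟨Gj.lo, Gj.hi⟩ mi mj
        (by rwa [A.g_zero hi Gi, A.g_zero hj Gj])
      have hr := h.ratio_eq ti' tj'
        (by rw [Gi.μg m (Ioo_subset_Icc_self mi), Gj.μg m (Ioo_subset_Icc_self mj)])
      have hp : γ.v (gj m) / γ.u (gj m) = γ.v (gi m) / γ.u (gi m) := by linarith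
      rw [hp, ← hr]
      have hR : 0 < γ.x (gi m) / γ.y (gi m) := div_pos (h.sol _ ti').px (h.sol _ ti').py
      have hG : γ.G (gj m) < γ.G (gi m) := by unfold G; linarith
      have hq : 0 < (1 + (γ.v (gi m) / γ.u (gi m)) ^ 2)
        * ((γ.x (gi m) / γ.y (gi m) + (γ.x (gi m) / γ.y (gi m))⁻¹) / 4) := by positivity
      nlinarith [mul_pos (sub_pos.2 hG) hq])
    (show γ.mu ti ∈ Icc (γ.mu si) (γ.mu ti) from ⟨by linarith, le_rfl⟩)
  have e1 := Gi.gμ _ (Ioo_subset_Icc_self hti)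
  have e2 := Gj.gμ _ (Ioo_subset_Icc_self htj)
  rw [← b1] at e2
  simp only [e1, e2] at key
  linarith

/-- All radial tangents point the same way. -/
theorem snake (h : γ.Prof L) : ∀ z ∈ Ioo 0 L, ∀ z' ∈ Ioo 0 L, γ.u z = 0 → γ.u z' = 0 →
    0 < γ.v z → 0 < γ.v z' := by
  obtain ⟨n, τ, d, A, B, hall⟩ := h.exists_Ab
  have hinj : ∀ i ≤ n, ∀ j ≤ n, γ.z (d i) = γ.z (d j) → i = j := fun i hi j hj e => by
    have a1 := A.dmem i hi
    have a2 := A.dmem j hj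
    have := A.inj _ (A.sub hi (Ioo_subset_Icc_self a1)) _ (A.sub hj (Ioo_subset_Icc_self a2))
      (by rw [A.dzero i hi, A.dzero j hj]) e
    rw [this] at a1
    exact A.meet' hi hj a1 a2
  have hturn : ∀ k, k + 1 ≤ n → 0 < γ.v (τ (k + 1)) * (γ.z (d (k + 1)) - γ.z (d k)) := by
    intro k hk
    have hth : τ (k + 1) ∈ Ioo 0 L :=
      ⟨A.τ0 ▸ A.τ_lt _ _ (by omega) (by omega), A.τL ▸ A.τ_lt _ _ (by omega) le_rfl⟩
    rcases lt_or_gt_of_ne (h.mu_ne hth (A.uz _ (by omega) hk).1) with e | e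
    · exact B.turn hk (by linarith)
    · exact A.turn hk e
  have hstep : ∀ k, k + 2 ≤ n → 0 < γ.v (τ (k + 1)) * γ.v (τ (k + 2)) := by
    intro k hk
    have t1 := hturn k (by omega)
    have t2 := hturn (k + 1) hk
    have v1 := (A.uz (k + 1) (by omega) (by omega)).2
    have v2 := (A.uz (k + 2) (by omega) hk).2
    rcases lt_or_gt_of_ne v1 with e1 | e1 <;> rcases lt_or_gt_of_ne v2 with e2 | e2
    · exact mul_pos_of_neg_of_neg e1 e2
    · exact (path_lemma (f := fun k => γ.z (d k)) hinj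
        (fun i hi j hj h1 h2 => h.adj A B hi hj h1 h2) hk (by nlinarith) (by nlinarith)).elim
    · exact (path_lemma (f := fun k => -γ.z (d k))
        (fun i hi j hj e => hinj i hi j hj (neg_injective e))
        (fun i hi j hj h1 h2 => (h.adj A B hj hi (by linarith)
          (fun l hl e => h2 l hl ⟨by linarith [e.2], by linarith [e.1]⟩)).symm) hk
        (by nlinarith) (by nlinarith)).elim
    · exact mul_pos e1 e2
  have hall2 : ∀ k, k + 1 ≤ n → 0 < γ.v (τ 1) * γ.v (τ (k + 1)) := by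
    intro k
    induction k with
    | zero => intro hk; exact mul_self_pos.2 (A.uz 1 le_rfl hk).2
    | succ k ih =>
      intro hk
      have a1 := ih (by omega)
      have a2 := hstep k hk
      have a3 := mul_self_pos.2 (A.uz (k + 1) (by omega) (by omega)).2
      by_contra hn
      push Not at hn
      nlinarith [mul_pos a1 a2, mul_nonneg (neg_nonneg.2 hn) a3.le]
  intro z hz z' hz' hu hu' hv
  obtain ⟨k, k1, k2, rfl⟩ := hall z hz hu
  obtain ⟨l, l1, l2, rfl⟩ := hall z' hz' hu'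
  obtain ⟨k, rfl⟩ : ∃ k', k = k' + 1 := ⟨k - 1, by omega⟩
  obtain ⟨l, rfl⟩ : ∃ l', l = l' + 1 := ⟨l - 1, by omega⟩
  have a1 := hall2 k k2
  have a2 := hall2 l l2
  have a3 : 0 < γ.v (τ 1) := (pos_iff_pos_of_mul_pos a1).2 hv
  exact (pos_iff_pos_of_mul_pos a2).1 a3

end Prof

end Crv

end Pool.Agent.MP_48470b_gt

end

section

/-! An embedded profile curve from axis to axis is the circle of radius `√6`. -/

set_option autoImplicit false

open Real Set Filter Topology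

namespace Pool.Agent.MP_48470b_gt

theorem exists_last_zero {f : ℝ → ℝ} {a b : ℝ} (hab : a < b) (hc : ContinuousOn f (Icc a b))
    (ha : f a = 0) (hb : ∀ᶠ t in 𝓝[<] b, f t ≠ 0) :
    ∃ c ∈ Ico a b, f c = 0 ∧ ∀ t ∈ Ioo c b, f t ≠ 0 := by
  have hm : MapsTo (fun t : ℝ => -t) (Icc (-b) (-a)) (Icc a b) := fun t ht =>
    ⟨by linarith [ht.2], by linarith [ht.1]⟩
  have ht : Tendsto (fun t : ℝ => -t) (𝓝[>] (-b)) (𝓝[<] b) := by
    simpa using (tendsto_neg_nhdsGT_neg (a := b))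
  obtain ⟨c, hc1, hc2, hc3⟩ := exists_first_zero (f := fun t => f (-t)) (a := -b) (b := -a)
    (by linarith) (hc.comp continuousOn_neg hm) (by simpa using ha) (ht.eventually hb)
  refine ⟨-c, ⟨by linarith [hc1.2], by linarith [hc1.1]⟩, hc2, fun t ht => ?_⟩
  simpa using hc3 (-t) ⟨by linarith [ht.2], by linarith [ht.1]⟩

/-- The main theorem on profile curves. -/
theorem Prof.circle {L : ℝ} {x y c s : ℝ → ℝ} (h : Prof L x y c s) :
    ∀ t ∈ Icc 0 L, x t ^ 2 + y t ^ 2 = 6 := by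
  by_contra hn
  set γ : Crv := ⟨x, y, c, s⟩ with hγ
  have H : γ.Prof L := h.crv
  have h0 : (0 : ℝ) ∈ Icc 0 L := ⟨le_rfl, H.hL.le⟩
  have hL : L ∈ Icc 0 L := ⟨H.hL.le, le_rfl⟩
  have hR : ∀ a ∈ Icc 0 L, ∀ b ∈ Icc 0 L, a < b → (∀ t ∈ Ioo a b, γ.v t ≠ 0) → γ.v a = 0 →
      γ.v b = 0 → ∃ t ∈ Ioo a b, γ.u t = 0 := fun a ha b hb hab h1 h2 h3 =>
    (h.seg.sub ha.1 hab hb.2).lemR h1 h2 h3
  have hne : ∀ t ∈ Ioo 0 L, γ.v t ≠ 0 := by
    intro t ht hv
    have hS := H.sol t ht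
    have ht' := Ioo_subset_Icc_self ht
    have hG : γ.G t ≠ 0 := fun e => hn (H.circle ht hv (by unfold Crv.G at e; linarith))
    have hd0 : γ.w t * γ.G t ≠ 0 := mul_ne_zero hS.w_pos.ne' hG
    have hV0 : γ.V t = 0 := by unfold Crv.V; rw [hv, mul_zero]
    have hev : ∀ᶠ r in 𝓝[≠] t, 0 < γ.v r * (r - t) * γ.G t := by
      have h1 := (hasDerivAt_iff_tendsto_slope.1 hS.dV).mul_const (γ.G t)
      have h2 : 0 < γ.w t * γ.G t * γ.G t := by
        rw [mul_assoc]; exact mul_pos hS.w_pos (mul_self_pos.2 hG)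
      filter_upwards [h1.eventually (lt_mem_nhds h2), self_mem_nhdsWithin,
        mem_nhdsWithin_of_mem_nhds (Ioo_mem_nhds ht.1 ht.2)] with r hr hr2 hr3
      have h6 : r - t ≠ 0 := sub_ne_zero.2 hr2
      rw [slope_def_field, hV0, sub_zero] at hr
      have hw := (H.sol r hr3).w_pos
      have h7 : γ.v r * (r - t) * γ.G t = γ.V r / (r - t) * γ.G t * (r - t) ^ 2 / γ.w r := by
        unfold Crv.V; field_simp
      rw [h7]
      exact div_pos (mul_pos hr (sq_pos_of_ne_zero h6)) hw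
    have hev' : ∀ᶠ r in 𝓝[≠] t, γ.v r ≠ 0 := hev.mono (fun r hr e => by rw [e] at hr; simp at hr)
    obtain ⟨b, hb1, hb2, hb3⟩ := exists_first_zero ht.2 (H.cv.mono (H.sub_Icc ht' hL)) H.vL
      (hev'.filter_mono (nhdsGT_le_nhdsNE t))
    obtain ⟨a, ha1, ha2, ha3⟩ := exists_last_zero ht.1 (H.cv.mono (H.sub_Icc h0 ht')) H.v0
      (hev'.filter_mono (nhdsLT_le_nhdsNE t))
    have hb' : b ∈ Icc 0 L := ⟨ht'.1.trans hb1.1.le, hb1.2⟩
    have ha' : a ∈ Icc 0 L := ⟨ha1.1, ha1.2.le.trans ht'.2⟩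
    obtain ⟨z2, hz2, hu2⟩ := hR t ht' b hb' hb1.1 hb3 hv hb2
    obtain ⟨z1, hz1, hu1⟩ := hR a ha' t ht' ha1.2 ha3 ha2 hv
    obtain ⟨r2, hr2, hr2'⟩ :=
      ((hev.filter_mono (nhdsGT_le_nhdsNE t)).and (Ioo_mem_nhdsGT hb1.1)).exists
    obtain ⟨r1, hr1, hr1'⟩ :=
      ((hev.filter_mono (nhdsLT_le_nhdsNE t)).and (Ioo_mem_nhdsLT ha1.2)).exists
    have p2 : 0 < γ.v z2 * γ.G t :=
      pos_of_ne (f := fun r => γ.v r * γ.G t) isPreconnected_Ioo
        ((H.cv.mono (Ioo_subset_Icc_self.trans (H.sub_Icc ht' hb'))).mul continuousOn_const)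
        (fun r hr => mul_ne_zero (hb3 r hr) hG) hr2' (by
          by_contra hc
          push Not at hc
          nlinarith [mul_nonneg (neg_nonneg.2 hc) (sub_pos.2 hr2'.1).le]) z2 hz2
    have p1 : γ.v z1 * γ.G t < 0 :=
      neg_of_ne (f := fun r => γ.v r * γ.G t) isPreconnected_Ioo
        ((H.cv.mono (Ioo_subset_Icc_self.trans (H.sub_Icc ha' ht'))).mul continuousOn_const)
        (fun r hr => mul_ne_zero (ha3 r hr) hG) hr1' (by
          by_contra hc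
          push Not at hc
          nlinarith [mul_nonneg hc (sub_pos.2 hr1'.2).le]) z1 hz1
    have m1 := H.sub_Ioo ha' ht' hz1
    have m2 := H.sub_Ioo ht' hb' hz2
    rcases lt_or_gt_of_ne hG with e | e
    · have := H.snake z1 m1 z2 m2 hu1 hu2 (by nlinarith)
      nlinarith
    · have := H.snake z2 m2 z1 m1 hu2 hu1 (by nlinarith)
      nlinarith
  obtain ⟨z, hz, hu⟩ := hR 0 h0 L hL H.hL hne H.v0 H.vL
  rcases lt_or_gt_of_ne (hne z hz) with e | e
  · have hneg := neg_of_ne isPreconnected_Ioo (H.cI H.cv) hne hz e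
    refine H.mir.final (fun t ht => ?_) (L - z) ⟨by linarith [hz.2], by linarith [hz.1]⟩ ?_
    · rw [Crv.mir_v]
      linarith [hneg (L - t) ⟨by linarith [ht.2], by linarith [ht.1]⟩]
    · rw [Crv.mir_u, sub_sub_cancel]; exact hu
  · exact H.final (pos_of_ne isPreconnected_Ioo (H.cI H.cv) hne hz e) z hz hu

end Pool.Agent.MP_48470b_gt

end

section

open Set
open scoped Topology

noncomputable section

namespace Pool.Agent.MP_48470b_gt

lemma mem_sphere_iff (p : E4) :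
    p ∈ Metric.sphere (0 : E4) √6 ↔ √(p 0 ^ 2 + p 1 ^ 2) ^ 2 + √(p 2 ^ 2 + p 3 ^ 2) ^ 2 = 6 := by
  rw [Real.sq_sqrt (by positivity), Real.sq_sqrt (by positivity), mem_sphere_zero_iff_norm,
    EuclideanSpace.norm_eq, Real.sqrt_inj (by positivity) (by norm_num)]
  simp only [Fin.sum_univ_four, Real.norm_eq_abs, sq_abs]
  constructor <;> intro h <;> linarith

theorem birotational (S : Set E4) (hS : IsShrinker S)
    (hT : Nonempty (S ≃ₜ Metric.sphere (0 : E4) 1)) (hR : ∀ α β, ∀ p ∈ S, rot α β p ∈ S) :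
    S = Metric.sphere 0 √6 := by
  obtain ⟨e⟩ := hT
  have cS : IsCompact S := isCompact_iff_compactSpace.2 e.symm.compactSpace
  have c1 : ConnectedSpace (Metric.sphere (0 : E4) 1) := isConnected_iff_connectedSpace.1
    (isConnected_sphere (by rw [← Module.finrank_eq_rank]; simp) _ zero_le_one)
  have c2 : ConnectedSpace S := e.symm.surjective.connectedSpace e.symm.continuous
  have hΓ := locAll_Gam hS hR
  obtain ⟨⟨p0, hp0⟩⟩ := c2.toNonempty
  obtain ⟨⟨p1, hp1, a0, a1⟩, p2, hp2, b2, b3⟩ :=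
    meets_planes ⟨e⟩ hR (exists_offaxis hΓ ((mem_iff_io hR p0).1 hp0))
  have hA : (√(p2 0 ^ 2 + p2 1 ^ 2), (0:ℝ)) ∈ Gam S := by
    simpa [b2, b3] using (mem_iff_io hR p2).1 hp2
  have ha : 0 < √(p2 0 ^ 2 + p2 1 ^ 2) := by
    refine (Real.sqrt_nonneg _).lt_of_ne fun k => ?_
    obtain ⟨V, G, W, hV, hL⟩ := hΓ _ hA
    have := hL.unit _ hV hA
    rw [hL.ax1 _ hV hA k.symm, hL.ax2 _ hV hA rfl] at this
    simp at this
  obtain ⟨L, x, y, c, s, Lp, cx, cy, mem, st, cov, prof⟩ :=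
    exists_profile hΓ (isCompact_Gam cS) ha hA
  let π : S → ℝ × ℝ := fun p => (√(p.1 0 ^ 2 + p.1 1 ^ 2), √(p.1 2 ^ 2 + p.1 3 ^ 2))
  have cπ : Continuous π := by fun_prop
  have hK : IsCompact ((fun t => (x t, y t)) '' Icc 0 L) :=
    isCompact_Icc.image_of_continuousOn (cx.prodMk cy)
  have clo : IsClopen (π ⁻¹' ((fun t => (x t, y t)) '' Icc 0 L)) := by
    refine ⟨hK.isClosed.preimage cπ, isOpen_iff_mem_nhds.2 ?_⟩
    rintro p ⟨t, ht, hp⟩
    have k := cov t ht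
    rw [show (x t, y t) = π p from hp] at k
    filter_upwards [(cπ.tendsto p).eventually k] with q hq
    obtain ⟨u, hu, eq⟩ := hq ((mem_iff_io hR q.1).1 q.2) (Real.sqrt_nonneg _) (Real.sqrt_nonneg _)
    exact ⟨u, hu, eq.symm⟩
  have all : ∀ p : S, ∃ t ∈ Icc 0 L, (x t, y t) = π p := fun p => by
    have := clo.eq_univ ⟨⟨p2, hp2⟩, 0, ⟨le_rfl, Lp.le⟩, by simp [st, π, b2, b3]⟩
    exact (this ▸ mem_univ p : p ∈ π ⁻¹' ((fun t => (x t, y t)) '' Icc 0 L))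
  have P : Prof L x y c s := by
    obtain ⟨t, ht, k⟩ := all ⟨p1, hp1⟩
    exact prof ⟨t, ht, by simpa [π, a0, a1] using congrArg Prod.fst k⟩
  have circ := P.circle
  ext p
  rw [mem_sphere_iff]
  constructor
  · intro hp
    obtain ⟨t, ht, k⟩ := all ⟨p, hp⟩
    have k1 : x t = √(p 0 ^ 2 + p 1 ^ 2) := congrArg Prod.fst k
    have k2 : y t = √(p 2 ^ 2 + p 3 ^ 2) := congrArg Prod.snd k
    rw [← k1, ← k2]
    exact circ t ht
  · intro hp
    have u0 := Real.sqrt_nonneg (p 0 ^ 2 + p 1 ^ 2)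
    have v0 := Real.sqrt_nonneg (p 2 ^ 2 + p 3 ^ 2)
    have x6 := circ 0 ⟨le_rfl, Lp.le⟩
    rw [P.y0] at x6
    obtain ⟨t, ht, k⟩ := intermediate_value_Icc' Lp.le cx (show √(p 0 ^ 2 + p 1 ^ 2) ∈ Icc (x L) (x 0)
      from ⟨P.xL ▸ u0, abs_le_of_sq_le_sq' (by nlinarith) P.x0.le |>.2⟩)
    have y0 : 0 ≤ y t := by
      rcases ht.1.eq_or_lt with rfl | h1
      · exact P.y0.ge
      rcases ht.2.eq_or_lt with rfl | h2
      · exact P.yL.le
      · exact (P.pos t ⟨h1, h2⟩).2.le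
    have k2 : y t = √(p 2 ^ 2 + p 3 ^ 2) := by
      have := circ t ht
      rw [k] at this
      exact (pow_left_inj₀ y0 v0 two_ne_zero).1 (by linarith)
    rw [mem_iff_io hR, ← k, ← k2]
    exact mem t ht

end Pool.Agent.MP_48470b_gt

end
end

section

/-! The shrinker equation is invariant under linear isometries. -/

open Set
open scoped Topology RealInnerProductSpace

noncomputable section

namespace Pool.Agent.MP_48470b_gt

lemma Iso_grad (A : E4 ≃ₗᵢ[ℝ] E4) (F : E4 → ℝ) (q : E4) :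
    gradient (F ∘ A) q = A.symm (gradient F (A q)) := by
  refine ext_inner_right ℝ fun v => ?_
  have h := A.toContinuousLinearEquiv.comp_right_fderiv (f := F) (x := q)
  rw [← RedC_grad, ← A.inner_map_map, A.apply_symm_apply, ← RedC_grad]
  exact congrArg (fun L : E4 →L[ℝ] ℝ => L v) h

lemma Iso_nu (A : E4 ≃ₗᵢ[ℝ] E4) (F : E4 → ℝ) : nu (F ∘ A) = A.symm ∘ (nu F ∘ A) := by
  funext q
  simp [nu, Iso_grad]

lemma Iso_div (A : E4 ≃ₗᵢ[ℝ] E4) (X : E4 → E4) (n q : E4) :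
    divT (A.symm ∘ (X ∘ A)) (A.symm n) q = divT X n (A q) := by
  have h : ∀ v, fderiv ℝ (A.symm ∘ (X ∘ A)) q v = A.symm (fderiv ℝ X (A q) (A v)) := fun v => by
    rw [A.symm.comp_fderiv]
    exact congrArg (fun L : E4 →L[ℝ] E4 => A.symm (L v))
      (A.toContinuousLinearEquiv.comp_right_fderiv (f := X) (x := q))
  have t1 := LinearMap.trace_eq_sum_inner (fderiv ℝ X (A q)).toLinearMap
    (EuclideanSpace.basisFun (Fin 4) ℝ)
  have t2 := LinearMap.trace_eq_sum_inner (fderiv ℝ X (A q)).toLinearMap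
    ((EuclideanSpace.basisFun (Fin 4) ℝ).map A)
  simp only [divT, h, A.apply_symm_apply, A.symm.inner_map_map]
  congr 1
  have k : ∀ a b, ⟪A.symm a, b⟫ = ⟪A b, a⟫ := fun a b => by
    rw [← A.inner_map_map, A.apply_symm_apply, real_inner_comm]
  simp only [k]
  simp only [OrthonormalBasis.map_apply, EuclideanSpace.basisFun_apply,
    ContinuousLinearMap.coe_coe] at t1 t2
  rw [← t2, t1]
  exact Finset.sum_congr rfl fun i _ => real_inner_comm _ _

lemma IsShrinker.iso {S : Set E4} (hS : IsShrinker S) (A : E4 ≃ₗᵢ[ℝ] E4) :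
    IsShrinker (A ⁻¹' S) := by
  intro p hp
  obtain ⟨U, F, hU, hpU, hF, hg, hm, hH⟩ := hS _ hp
  refine ⟨A ⁻¹' U, F ∘ A, hU.preimage A.continuous, hpU,
    hF.comp A.contDiff.contDiffOn fun _ h => h, fun q hq => ?_, fun q hq => hm _ hq,
    fun q hq hs => ?_⟩
  · rw [Iso_grad]
    simpa using hg _ hq
  · rw [Iso_nu, Function.comp_apply, Iso_div, Function.comp_apply, hH _ hq hs,
      A.inner_map_eq_flip]

theorem birotational_iso (S : Set E4) (hS : IsShrinker S)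
    (hT : Nonempty (S ≃ₜ Metric.sphere (0 : E4) 1)) (A : E4 ≃ₗᵢ[ℝ] E4)
    (hR : ∀ α β, ∀ p ∈ S, A (rot α β (A.symm p)) ∈ S) : S = Metric.sphere 0 √6 := by
  obtain ⟨e⟩ := hT
  have h := birotational (A ⁻¹' S) (hS.iso A)
    ⟨(A.toHomeomorph.sets rfl).trans e⟩ fun α β p hp => by simpa using hR α β _ hp
  ext p
  have := Set.ext_iff.1 h (A.symm p)
  simpa using this

end Pool.Agent.MP_48470b_gt

end
end
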